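import Mathlib

/-! Brouwer's fixed point theorem in dimension two (disc and rectangle). -/

set_option autoImplicit false

namespace Pool.Agent.Giem37

open Metric Set

theorem exists_log {f : ℂ → ℂ} (hf : ContinuousOn f (closedBall 0 1))
    (h0 : ∀ z ∈ closedBall (0:ℂ) 1, f z ≠ 0) :
    ∃ L : ℂ → ℂ, ContinuousOn L (closedBall 0 1) ∧
      ∀ z ∈ closedBall (0:ℂ) 1, Complex.exp (L z) = f z := by
  have hK : IsCompact (closedBall (0:ℂ) 1) := isCompact_closedBall 0 1
  have hne : (closedBall (0:ℂ) 1).Nonempty := ⟨0, by simp⟩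
  obtain ⟨z0, hz0, hmin⟩ := hK.exists_isMinOn hne hf.norm
  set m := ‖f z0‖ with hm
  have hmpos : 0 < m := norm_pos_iff.mpr (h0 z0 hz0)
  have hmle : ∀ z ∈ closedBall (0:ℂ) 1, m ≤ ‖f z‖ := fun z hz => hmin hz
  have huc := hK.uniformContinuousOn_of_continuous hf
  rw [Metric.uniformContinuousOn_iff] at huc
  obtain ⟨δ, hδ, huc⟩ := huc m hmpos
  obtain ⟨n, hn⟩ := exists_nat_one_div_lt hδ
  obtain ⟨N, hN⟩ : ∃ N : ℕ, N = n + 1 := ⟨_, rfl⟩
  have hNpos : (0:ℝ) < N := by rw [hN]; positivity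
  obtain ⟨P, hP⟩ : ∃ P : ℕ → ℂ → ℂ, P = fun (k:ℕ) (z:ℂ) => ((k:ℝ)/N) • z := ⟨_, rfl⟩
  have hsc : ∀ k : ℕ, k ≤ N → ∀ z ∈ closedBall (0:ℂ) 1, P k z ∈ closedBall (0:ℂ) 1 := by
    intro k hk z hz
    rw [mem_closedBall_zero_iff] at hz ⊢
    rw [hP]; simp only
    rw [norm_smul, Real.norm_eq_abs, abs_of_nonneg (by positivity)]
    have : (k:ℝ)/N ≤ 1 := by
      rw [div_le_one hNpos]; exact_mod_cast hk
    calc (k:ℝ)/N * ‖z‖ ≤ 1 * 1 := by gcongr
      _ = 1 := one_mul 1
  have hPc : ∀ k, Continuous (P k) := by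
    intro k; rw [hP]; exact continuous_const_smul _
  have hratio : ∀ k : ℕ, k < N → ∀ z ∈ closedBall (0:ℂ) 1,
      f (P (k+1) z) / f (P k z) ∈ Complex.slitPlane := by
    intro k hk z hz
    have h1 := hsc k hk.le z hz
    have h2 := hsc (k+1) hk z hz
    have hd : dist (P (k+1) z) (P k z) < δ := by
      rw [hP]; simp only
      rw [dist_eq_norm, ← sub_smul, norm_smul, Real.norm_eq_abs]
      have e : ((k+1:ℕ):ℝ)/N - (k:ℝ)/N = 1/N := by push_cast; ring
      rw [e, abs_of_pos (by positivity)]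
      rw [mem_closedBall_zero_iff] at hz
      calc 1/(N:ℝ) * ‖z‖ ≤ 1/(N:ℝ) * 1 := by gcongr
        _ = 1/((n:ℝ)+1) := by rw [hN]; push_cast; ring
        _ < δ := hn
    have h3 := huc _ h2 _ h1 hd
    rw [dist_eq_norm] at h3
    have hf0 := h0 _ h1
    left
    have h4 : ‖f (P (k+1) z) / f (P k z) - 1‖ < 1 := by
      rw [div_sub_one hf0, norm_div, div_lt_one (norm_pos_iff.mpr hf0)]
      exact lt_of_lt_of_le h3 (hmle _ h1)
    have h5 := (Complex.abs_re_le_norm (f (P (k+1) z) / f (P k z) - 1))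
    rw [Complex.sub_re, Complex.one_re] at h5
    have h6 := abs_lt.mp (lt_of_le_of_lt h5 h4)
    linarith [h6.1]
  have hfP : ∀ k : ℕ, k ≤ N → ContinuousOn (fun z => f (P k z)) (closedBall (0:ℂ) 1) := by
    intro k hk
    exact hf.comp (hPc k).continuousOn (fun z hz => hsc k hk z hz)
  refine ⟨fun z => Complex.log (f 0) + ∑ k ∈ Finset.range N,
    Complex.log (f (P (k+1) z) / f (P k z)), ?_, ?_⟩
  · refine continuousOn_const.add ?_
    refine continuousOn_finsetSum _ (fun k hk => ?_)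
    have hk' := Finset.mem_range.mp hk
    refine ContinuousOn.clog ?_ (fun z hz => hratio k hk' z hz)
    exact (hfP (k+1) hk').div (hfP k hk'.le) (fun z hz => h0 _ (hsc k hk'.le z hz))
  · intro z hz
    rw [Complex.exp_add, Complex.exp_sum, Complex.exp_log (h0 0 (by simp))]
    have hprod : ∀ n ≤ N, ∏ k ∈ Finset.range n,
        Complex.exp (Complex.log (f (P (k+1) z) / f (P k z))) = f (P n z) / f (P 0 z) := by
      intro n hn
      induction n with
      | zero =>
        have := h0 _ (hsc 0 (Nat.zero_le _) z hz)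
        simp [div_self this]
      | succ k ih =>
        rw [Finset.prod_range_succ, ih (by omega),
          Complex.exp_log (Complex.slitPlane_ne_zero (hratio k (by omega) z hz))]
        have h1 := h0 _ (hsc 0 (Nat.zero_le _) z hz)
        have h2 := h0 _ (hsc k (by omega) z hz)
        field_simp
    rw [hprod N le_rfl]
    have e0 : P 0 z = 0 := by rw [hP]; simp
    have e1 : P N z = z := by
      rw [hP]; simp only; rw [div_self hNpos.ne', one_smul]
    rw [e0, e1]
    field_simp [h0 0 (by simp)]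

theorem brouwer_disc {f : ℂ → ℂ} (hf : ContinuousOn f (closedBall 0 1))
    (hm : ∀ z ∈ closedBall (0:ℂ) 1, f z ∈ closedBall (0:ℂ) 1) :
    ∃ z ∈ closedBall (0:ℂ) 1, f z = z := by
  by_contra hcon
  push Not at hcon
  have hv0 : ∀ z ∈ closedBall (0:ℂ) 1, z - f z ≠ 0 := fun z hz h =>
    hcon z hz (sub_eq_zero.mp h).symm
  obtain ⟨L, hLc, hL⟩ := exists_log (f := fun z => z - f z) (continuousOn_id.sub hf) hv0
  obtain ⟨e, he⟩ : ∃ e : ℝ → ℂ, e = fun t : ℝ => Complex.exp (t * Complex.I) := ⟨_, rfl⟩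
  have hec : Continuous e := by rw [he]; fun_prop
  have hnorm : ∀ t, ‖e t‖ = 1 := by
    intro t; rw [he]; exact Complex.norm_exp_ofReal_mul_I t
  have hmem : ∀ t, e t ∈ closedBall (0:ℂ) 1 := by
    intro t; rw [mem_closedBall_zero_iff, hnorm]
  have hre : ∀ t, (e t - f (e t)) * (starRingEnd ℂ) (e t) ∈ Complex.slitPlane := by
    intro t
    left
    have h1 : e t * (starRingEnd ℂ) (e t) = 1 := by
      rw [Complex.mul_conj, Complex.normSq_eq_norm_sq, hnorm]; norm_num
    have h2 : (f (e t) * (starRingEnd ℂ) (e t)).re < 1 := by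
      have hle : ‖f (e t) * (starRingEnd ℂ) (e t)‖ ≤ 1 := by
        rw [norm_mul, RCLike.norm_conj, hnorm, mul_one]
        exact mem_closedBall_zero_iff.mp (hm _ (hmem t))
      have hle2 := (Complex.re_le_norm (f (e t) * (starRingEnd ℂ) (e t))).trans hle
      rcases lt_or_eq_of_le hle2 with h | h
      · exact h
      · exfalso
        have h3 : Complex.normSq (f (e t) * (starRingEnd ℂ) (e t)) ≤ 1 := by
          rw [Complex.normSq_eq_norm_sq]
          have := norm_nonneg (f (e t) * (starRingEnd ℂ) (e t))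
          nlinarith
        rw [Complex.normSq_apply, h] at h3
        have him : (f (e t) * (starRingEnd ℂ) (e t)).im = 0 := by nlinarith
        have h4 : f (e t) * (starRingEnd ℂ) (e t) = 1 := Complex.ext h him
        apply hcon (e t) (hmem t)
        have h5 : f (e t) * (starRingEnd ℂ) (e t) * e t = e t := by rw [h4, one_mul]
        rw [mul_assoc, mul_comm ((starRingEnd ℂ) (e t)), h1, mul_one] at h5
        exact h5
    rw [sub_mul, h1, Complex.sub_re, Complex.one_re]
    linarith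
  obtain ⟨g, hg⟩ : ∃ g : ℝ → ℂ, g = fun t =>
    L (e t) - Complex.log ((e t - f (e t)) * (starRingEnd ℂ) (e t)) - t * Complex.I := ⟨_, rfl⟩
  have hgc : Continuous g := by
    rw [hg]
    have h1 : Continuous fun t => L (e t) := hLc.comp_continuous hec hmem
    have h2 : Continuous fun t => (e t - f (e t)) * (starRingEnd ℂ) (e t) :=
      (hec.sub (hf.comp_continuous hec hmem)).mul (Complex.continuous_conj.comp hec)
    exact (h1.sub (h2.clog hre)).sub (by fun_prop)
  have hgexp : ∀ t, Complex.exp (g t) = 1 := by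
    intro t
    rw [hg]; simp only
    rw [Complex.exp_sub, Complex.exp_sub, hL _ (hmem t),
      Complex.exp_log (Complex.slitPlane_ne_zero (hre t))]
    have h1 : e t * (starRingEnd ℂ) (e t) = 1 := by
      rw [Complex.mul_conj, Complex.normSq_eq_norm_sq, hnorm]; norm_num
    have h2 : Complex.exp (t * Complex.I) = e t := by rw [he]
    rw [h2]
    have h3 := hv0 _ (hmem t)
    have h4 : e t ≠ 0 := by intro h; rw [h] at h1; simp at h1
    have h5 : (starRingEnd ℂ) (e t) ≠ 0 := by intro h; rw [h] at h1; simp at h1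
    field_simp
    exact h1.symm
  have hper : g (2 * Real.pi) = g 0 - 2 * Real.pi * Complex.I := by
    have h1 : e (2 * Real.pi) = e 0 := by
      rw [he]; simp
    rw [hg]; simp only [h1]; push_cast; ring
  have hh : Continuous fun t => (g t).im := Complex.continuous_im.comp hgc
  have him : (g (2 * Real.pi)).im = (g 0).im - 2 * Real.pi := by
    rw [hper]; simp
  have hivt := intermediate_value_Icc' (by positivity : (0:ℝ) ≤ 2 * Real.pi) hh.continuousOn
  have hmid : (g 0).im - Real.pi ∈ Icc (g (2 * Real.pi)).im (g 0).im := by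
    rw [him]; constructor <;> linarith [Real.pi_pos]
  obtain ⟨t, -, ht⟩ := hivt hmid
  obtain ⟨a, ha⟩ := Complex.exp_eq_one_iff.mp (hgexp t)
  obtain ⟨b, hb⟩ := Complex.exp_eq_one_iff.mp (hgexp 0)
  simp only at ht
  rw [ha, hb] at ht
  simp at ht
  have hpi := Real.pi_pos
  have h2 : ((2 * a - 2 * b + 1 : ℤ) : ℝ) = 0 := by
    have : Real.pi * ((2 * a - 2 * b + 1 : ℤ) : ℝ) = 0 := by push_cast; linarith
    exact (mul_eq_zero.mp this).resolve_left hpi.ne'
  have h3 : (2 * a - 2 * b + 1 : ℤ) = 0 := by exact_mod_cast h2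
  omega

theorem brouwer_rect {a b c d : ℝ} (hab : a ≤ b) (hcd : c ≤ d) {f : ℝ × ℝ → ℝ × ℝ}
    (hf : ContinuousOn f (Icc a b ×ˢ Icc c d))
    (hm : ∀ z ∈ Icc a b ×ˢ Icc c d, f z ∈ Icc a b ×ˢ Icc c d) :
    ∃ z ∈ Icc a b ×ˢ Icc c d, f z = z := by
  obtain ⟨ρ, hρ, hρle⟩ : ∃ ρ : ℝ, 0 < ρ ∧ ∀ z ∈ Icc a b ×ˢ Icc c d,
      ‖(z.1 : ℂ) + z.2 * Complex.I‖ ≤ ρ := by
    have hc : IsCompact (Icc a b ×ˢ Icc c d) := isCompact_Icc.prod isCompact_Icc
    have hcont : Continuous fun z : ℝ × ℝ => (z.1 : ℂ) + z.2 * Complex.I := by fun_prop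
    obtain ⟨C, hC⟩ := hc.exists_bound_of_continuousOn hcont.continuousOn
    exact ⟨max C 1, by positivity, fun z hz => (hC z hz).trans (le_max_left _ _)⟩
  obtain ⟨pr, hpr⟩ : ∃ pr : ℂ → ℝ × ℝ,
    pr = fun z => (max a (min b (ρ * z.re)), max c (min d (ρ * z.im))) := ⟨_, rfl⟩
  have hprc : Continuous pr := by rw [hpr]; fun_prop
  have hprm : ∀ z, pr z ∈ Icc a b ×ˢ Icc c d := by
    intro z; rw [hpr]
    refine ⟨⟨le_max_left _ _, max_le hab (min_le_left _ _)⟩,
      ⟨le_max_left _ _, max_le hcd (min_le_left _ _)⟩⟩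
  have hfc : Continuous fun z => f (pr z) := hf.comp_continuous hprc hprm
  obtain ⟨z, hz, hfz⟩ := brouwer_disc
    (f := fun z => ((((f (pr z)).1 : ℂ) + (f (pr z)).2 * Complex.I) / ρ))
    (by
      apply Continuous.continuousOn
      have h1 : Continuous fun z => (f (pr z)).1 := continuous_fst.comp hfc
      have h2 : Continuous fun z => (f (pr z)).2 := continuous_snd.comp hfc
      fun_prop)
    (by
      intro z hz
      rw [mem_closedBall_zero_iff, norm_div]
      have := hρle _ (hm _ (hprm z))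
      rw [Complex.norm_real, Real.norm_eq_abs, abs_of_pos hρ]
      rw [div_le_one hρ]; exact this)
  have hρ0 : (ρ : ℂ) ≠ 0 := by exact_mod_cast hρ.ne'
  have key : ((f (pr z)).1 : ℂ) + (f (pr z)).2 * Complex.I = ρ * z := by
    rw [div_eq_iff hρ0] at hfz; rw [hfz]; ring
  have h1 : (f (pr z)).1 = ρ * z.re := by
    have := congrArg Complex.re key; simpa using this
  have h2 : (f (pr z)).2 = ρ * z.im := by
    have := congrArg Complex.im key; simpa using this
  have hmem := hm _ (hprm z)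
  refine ⟨pr z, hprm z, ?_⟩
  have hfm := hmem
  rw [mem_prod, mem_Icc, mem_Icc, h1, h2] at hfm
  ext
  · rw [h1, hpr]; simp only
    rw [min_eq_right hfm.1.2, max_eq_right hfm.1.1]
  · rw [h2, hpr]; simp only
    rw [min_eq_right hfm.2.2, max_eq_right hfm.2.1]

end Pool.Agent.Giem37
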