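import Pool.Agent.Lib_helper37.Giem.Dyn
import Pool.Agent.Lib_helper37.Giem.Brouwer

/-! The main continuity argument: a family of states over a rectangle contains a state all of
whose induced lengths are nonnegative. -/

set_option autoImplicit false

namespace Pool.Agent.Giem37

open Function Set Topology Filter

theorem run_sl {s : St} {m M : Fin 4 → ℝ} (hm : ∀ α, 0 < m α) (hM : ∀ α, 0 < M α)
    (h : ∀ α, SlB (m α) (M α) (s.g α)) (n : ℕ) (α : Fin 4) :
    SlB (bd m n α) (bd M n α) ((run s n).g α) := by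
  induction n generalizing α with
  | zero => exact h α
  | succ n ih =>
    have h1 : run s (n + 1) = (run s n).step (stp n) := rfl
    rw [h1]
    simp only [bd]
    by_cases htop : (stp n).top = true
    · simp only [St.step, htop, if_true]
      by_cases hα : α = (stp n).l
      · rw [hα, update_self, update_self, update_self]
        exact (ih _).trans (ih _) (bd_pos hm _ _).le (bd_pos hM _ _).le
      · rw [update_of_ne hα, update_of_ne hα, update_of_ne hα]; exact ih α
    · simp only [St.step, htop, if_false, Bool.false_eq_true]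
      by_cases hα : α = (stp n).l
      · rw [hα, update_self, update_self, update_self]
        rw [mul_comm (bd m n _), mul_comm (bd M n _)]
        exact (ih _).trans (ih _) (bd_pos hm _ _).le (bd_pos hM _ _).le
      · rw [update_of_ne hα, update_of_ne hα, update_of_ne hα]; exact ih α

theorem cof_mem {s : St} {m M : Fin 4 → ℝ} (hm : ∀ α, 0 < m α) (hM : ∀ α, 0 < M α)
    (h : ∀ α, SlB (m α) (M α) (s.g α)) {κ : ℝ} (hκ : 0 < κ) (n : ℕ) :
    co m n ≤ cof κ (run s n) (stp n) ∧ cof κ (run s n) (stp n) ≤ co M n := by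
  unfold co cof Stp.cl
  by_cases htop : (stp n).top = true
  · simp only [htop, if_true]
    exact (run_sl hm hM h n _).sq _ (lt_of_lt_of_le hκ (le_max_right _ _))
  · simp only [htop, if_false, Bool.false_eq_true]
    exact (run_sl hm hM h n _).sq _ (lt_of_lt_of_le hκ (le_max_right _ _))

theorem continuous_symm {Y : Type} [TopologicalSpace Y] {f : Y → ℝ ≃o ℝ}
    (h : Continuous fun q : Y × ℝ => f q.1 q.2) :
    Continuous fun q : Y × ℝ => (f q.1).symm q.2 := by
  rw [continuous_iff_continuousAt]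
  rintro ⟨y0, s0⟩
  rw [ContinuousAt, tendsto_order]
  constructor
  · intro a ha
    simp only at ha
    have h1 : f y0 a < s0 := by rwa [← OrderIso.lt_symm_apply]
    have h2 : Continuous fun q : Y × ℝ => f q.1 a :=
      h.comp (continuous_fst.prodMk continuous_const)
    have h3 : ∀ᶠ q : Y × ℝ in 𝓝 (y0, s0), f q.1 a < q.2 :=
      h2.continuousAt.eventually_lt continuous_snd.continuousAt h1
    filter_upwards [h3] with q hq
    rwa [OrderIso.lt_symm_apply]
  · intro a ha
    simp only at ha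
    have h1 : s0 < f y0 a := by rwa [← OrderIso.symm_apply_lt]
    have h2 : Continuous fun q : Y × ℝ => f q.1 a :=
      h.comp (continuous_fst.prodMk continuous_const)
    have h3 : ∀ᶠ q : Y × ℝ in 𝓝 (y0, s0), q.2 < f q.1 a :=
      continuous_snd.continuousAt.eventually_lt h2.continuousAt h1
    filter_upwards [h3] with q hq
    rwa [OrderIso.symm_apply_lt]

/-- continuous families of states -/
structure CSt {Y : Type} [TopologicalSpace Y] (s : Y → St) : Prop where
  p : ∀ α, Continuous fun y => (s y).p α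
  r : ∀ α, Continuous fun y => (s y).r α
  g : ∀ α, Continuous fun q : Y × ℝ => (s q.1).g α q.2

theorem CSt.comp_g {Y : Type} [TopologicalSpace Y] {s : Y → St} (h : CSt s) (α : Fin 4)
    {f : Y → ℝ} (hf : Continuous f) : Continuous fun y => (s y).g α (f y) :=
  (h.g α).comp (continuous_id.prodMk hf)

theorem CSt.symm_g {Y : Type} [TopologicalSpace Y] {s : Y → St} (h : CSt s) (α : Fin 4)
    {f : Y → ℝ} (hf : Continuous f) : Continuous fun y => ((s y).g α).symm (f y) :=
  (continuous_symm (f := fun y => (s y).g α) (h.g α)).comp (continuous_id.prodMk hf)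

theorem CSt.step {Y : Type} [TopologicalSpace Y] {s : Y → St} (h : CSt s) (σ : Stp) :
    CSt fun y => (s y).step σ := by
  unfold St.step
  by_cases htop : σ.top = true
  · simp only [htop, if_true]
    constructor
    · exact h.p
    · intro α
      by_cases hα : α = σ.w
      · rw [hα]; simp only [update_self]
        exact h.comp_g _ (h.p _)
      · simp only [update_of_ne hα]; exact h.r α
    · intro α
      by_cases hα : α = σ.l
      · rw [hα]; simp only [update_self, OrderIso.trans_apply]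
        exact (h.g σ.w).comp (continuous_fst.prodMk (h.g σ.l))
      · simp only [update_of_ne hα]; exact h.g α
  · simp only [htop, if_false, Bool.false_eq_true]
    constructor
    · intro α
      by_cases hα : α = σ.l
      · rw [hα]; simp only [update_self]
        exact h.symm_g _ (h.p _)
      · simp only [update_of_ne hα]; exact h.p α
    · intro α
      by_cases hα : α = σ.w
      · rw [hα]; simp only [update_self]
        exact h.symm_g _ (h.p _)
      · simp only [update_of_ne hα]
        by_cases hβ : α = σ.l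
        · rw [hβ]; simp only [update_self]; exact h.r _
        · simp only [update_of_ne hβ]; exact h.r α
    · intro α
      by_cases hα : α = σ.l
      · rw [hα]; simp only [update_self, OrderIso.trans_apply]
        exact (h.g σ.l).comp (continuous_fst.prodMk (h.g σ.w))
      · simp only [update_of_ne hα]; exact h.g α

theorem CSt.run {Y : Type} [TopologicalSpace Y] {s : Y → St} (h : CSt s) (n : ℕ) :
    CSt fun y => Giem37.run (s y) n := by
  induction n with
  | zero => exact h
  | succ n ih => exact ih.step _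

theorem CSt.cof {Y : Type} [TopologicalSpace Y] {s : Y → St} (h : CSt s) {κ : ℝ} (hκ : 0 < κ)
    (σ : Stp) : Continuous fun y => Giem37.cof κ (s y) σ := by
  unfold Giem37.cof Giem37.sq
  by_cases htop : σ.top = true
  · simp only [htop, if_true]
    have h1 : Continuous fun y => max ((s y).r σ.l - (s y).p σ.l) κ :=
      ((h.r _).sub (h.p _)).max continuous_const
    exact ((h.comp_g _ ((h.p _).add h1)).sub (h.comp_g _ (h.p _))).div h1
      (fun y => (lt_of_lt_of_le hκ (le_max_right _ _)).ne')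
  · simp only [htop, if_false, Bool.false_eq_true]
    have h0 := h.symm_g σ.w (h.p σ.l)
    have h1 : Continuous fun y => max ((s y).r σ.w - ((s y).g σ.w).symm ((s y).p σ.l)) κ :=
      ((h.r _).sub h0).max continuous_const
    exact ((h.comp_g _ (h0.add h1)).sub (h.comp_g _ h0)).div h1
      (fun y => (lt_of_lt_of_le hκ (le_max_right _ _)).ne')

/-- data squeezed between two close slope vectors are close to the exact data -/
theorem near_of_slopes {P : (Fin 4 → ℝ) × (ℕ → ℝ) → Prop}
    (hP : ∀ᶠ b in 𝓝 (((fun α => sl0 α - 1), co sl0) : (Fin 4 → ℝ) × (ℕ → ℝ)), P b) :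
    ∃ ε > 0, ∀ m M : Fin 4 → ℝ, (∀ α, |m α - sl0 α| < ε) → (∀ α, |M α - sl0 α| < ε) →
      ∀ c a, (∀ α, m α - 1 ≤ c α ∧ c α ≤ M α - 1) → (∀ n, co m n ≤ a n ∧ a n ≤ co M n) →
      P (c, a) := by
  rw [nhds_prod_eq, eventually_prod_iff] at hP
  obtain ⟨P1, h1, P2, h2, h12⟩ := hP
  have c1 : Tendsto (fun p : (Fin 4 → ℝ) × (Fin 4 → ℝ) => Icc (fun α => p.1 α - 1)
      (fun α => p.2 α - 1)) (𝓝 (sl0, sl0)) (𝓝 (fun α => sl0 α - 1)).smallSets := by
    apply Tendsto.Icc (l₁ := 𝓝 (fun α => sl0 α - 1)) (l₂ := 𝓝 (fun α => sl0 α - 1))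
    · exact Continuous.tendsto (f := fun p : (Fin 4 → ℝ) × (Fin 4 → ℝ) => fun α => p.1 α - 1)
        (by fun_prop) (sl0, sl0)
    · exact Continuous.tendsto (f := fun p : (Fin 4 → ℝ) × (Fin 4 → ℝ) => fun α => p.2 α - 1)
        (by fun_prop) (sl0, sl0)
  have hco : Continuous co := continuous_pi fun n => continuous_bd n _
  have c2 : Tendsto (fun p : (Fin 4 → ℝ) × (Fin 4 → ℝ) => Icc (co p.1) (co p.2))
      (𝓝 (sl0, sl0)) (𝓝 (co sl0)).smallSets := by
    apply Tendsto.Icc (l₁ := 𝓝 (co sl0)) (l₂ := 𝓝 (co sl0))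
    · exact (hco.comp continuous_fst).tendsto (sl0, sl0)
    · exact (hco.comp continuous_snd).tendsto (sl0, sl0)
  have e1 := c1.eventually (eventually_smallSets_forall.mpr h1)
  have e2 := c2.eventually (eventually_smallSets_forall.mpr h2)
  obtain ⟨ε, hε, h⟩ := Metric.eventually_nhds_iff.mp (e1.and e2)
  refine ⟨ε, hε, fun m M hm hM c a hc ha => ?_⟩
  have hd : dist (m, M) (sl0, sl0) < ε := by
    rw [Prod.dist_eq, max_lt_iff]
    constructor
    · rw [dist_pi_lt_iff hε]; intro α; rw [Real.dist_eq]; exact hm α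
    · rw [dist_pi_lt_iff hε]; intro α; rw [Real.dist_eq]; exact hM α
  obtain ⟨h3, h4⟩ := h hd
  exact h12 (h3 c ⟨fun α => (hc α).1, fun α => (hc α).2⟩) (h4 a ⟨fun n => (ha n).1, fun n => (ha n).2⟩)

/-- lengths -/
def St.x (s : St) (α : Fin 4) : ℝ := s.r α - s.p α

/-- lengths of the images -/
noncomputable def St.y (s : St) (α : Fin 4) : ℝ := s.g α (s.r α) - s.g α (s.p α)

theorem Inv.sum_xy {s : St} (h : Inv .p0 s) : ∑ α, s.x α = ∑ α, s.y α := by
  obtain ⟨t0, t1, t2, t3, b0, b1, b2, b3, e⟩ := h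
  simp only [Ph.tO, Ph.bO, Matrix.cons_val_zero, Matrix.cons_val_one, Matrix.cons_val]
    at t0 t1 t2 t3 b0 b1 b2 b3 e
  simp only [Fin.sum_univ_four, St.x, St.y]
  linarith

theorem brouwer_sub {a b c d : ℝ} (hab : a ≤ b) (hcd : c ≤ d)
    {G : (Icc a b ×ˢ Icc c d : Set (ℝ × ℝ)) → ℝ × ℝ} (hG : Continuous G)
    (hm : ∀ z, G z ∈ Icc a b ×ˢ Icc c d) : ∃ z, G z = z.1 := by
  classical
  let f : ℝ × ℝ → ℝ × ℝ := fun z => if h : z ∈ Icc a b ×ˢ Icc c d then G ⟨z, h⟩ else z
  have hf : ∀ z : (Icc a b ×ˢ Icc c d : Set (ℝ × ℝ)), f z = G z := by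
    intro z
    simp only [f]
    rw [dif_pos z.2]
  obtain ⟨z, hz, hfz⟩ := brouwer_rect hab hcd (f := f) (by
    rw [continuousOn_iff_continuous_domRestrict]
    have : (Icc a b ×ˢ Icc c d).domRestrict f = G := by
      funext z; exact hf z
    rw [this]; exact hG) (by
    intro z hz
    rw [hf ⟨z, hz⟩]; exact hm _)
  exact ⟨⟨z, hz⟩, by rw [← hf]; exact hfz⟩

/-- initial covector of a state -/
noncomputable def St.c0 (s : St) (α : Fin 4) : ℝ := s.y α / s.x α - 1

theorem core : ∃ η > 0, η < 1 / 5 ∧ ∃ ε > 0, ∀ (s : (Icc (η / 2) (4 / 5 - η / 2) ×ˢ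
      Icc (η / 2) (1 / 5 - η / 2) : Set (ℝ × ℝ)) → St) (m M : Fin 4 → ℝ), CSt s →
    (∀ y, Inv .p0 (s y)) →
    (∀ y α, 0 < (s y).x α) → (∀ y, ∑ α, (s y).x α = 1) →
    (∀ α, |m α - sl0 α| < ε) → (∀ α, |M α - sl0 α| < ε) →
    (∀ y α, SlB (m α) (M α) ((s y).g α)) →
    (∀ y, |(s y).x 0 - y.1.1| ≤ η / 4) → (∀ y, |(s y).x 2 - y.1.2| ≤ η / 4) →
    ∃ y, ∀ n α, 0 ≤ (run (s y) n).x α := by
  obtain ⟨η, hη, n0, hloc⟩ := localise
  have hη5 : η < 1 / 5 := by
    have hb0 : (((fun α => sl0 α - 1), co sl0) : (Fin 4 → ℝ) × (ℕ → ℝ)) ∈ Box := by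
      apply mem_Box_of (m := sl0) (M := sl0)
      · intro α; fin_cases α <;> simp [ctl, sl0] <;> norm_num
      · intro α; fin_cases α <;> simp [ctl, sl0] <;> norm_num
      · exact sl0_pos
      · exact fun α => ⟨le_rfl, le_rfl⟩
      · exact fun n => ⟨le_rfl, le_rfl⟩
    obtain ⟨h1, h2⟩ := hloc.self_of_nhds hb0 n0 le_rfl
    have h3 := zh_sum hb0 n0
    rw [Fin.sum_univ_four] at h3
    have h4 := abs_lt.mp h2
    linarith [h1 2, h1 3]
  obtain ⟨ε, hε, hnear⟩ := near_of_slopes hloc
  refine ⟨η, hη, hη5, min ε (3 / 16), by positivity, ?_⟩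
  intro s m M hs hI hx hsum hm hM hsl hx0 hx2
  have hm1 : ∀ α, (2:ℝ) ^ ((ctl 0).lo α) ≤ m α := by
    intro α
    have := (abs_lt.mp ((hm α).trans_le (min_le_right _ _))).1
    fin_cases α <;> simp [ctl, sl0] at this ⊢ <;> norm_num at this ⊢ <;> linarith
  have hM1 : ∀ α, M α ≤ (2:ℝ) ^ ((ctl 0).up α) := by
    intro α
    have := (abs_lt.mp ((hM α).trans_le (min_le_right _ _))).2
    fin_cases α <;> simp [ctl, sl0] at this ⊢ <;> norm_num at this ⊢ <;> linarith
  have hm0 : ∀ α, 0 < m α := fun α => lt_of_lt_of_le (by positivity) (hm1 α)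
  have hM0 : ∀ α, 0 < M α := by
    intro α
    have := (abs_lt.mp ((hM α).trans_le (min_le_right _ _))).1
    fin_cases α <;> simp [sl0] at this ⊢ <;> linarith
  have hc0 : ∀ y α, m α - 1 ≤ (s y).c0 α ∧ (s y).c0 α ≤ M α - 1 := by
    intro y α
    have h1 := hx y α
    have h2 := hsl y α ((s y).p α) ((s y).r α) (by unfold St.x at h1; linarith)
    unfold St.c0 St.y St.x
    unfold St.x at h1
    constructor
    · have : m α ≤ ((s y).g α ((s y).r α) - (s y).g α ((s y).p α)) / ((s y).r α - (s y).p α) := by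
        rw [le_div_iff₀ h1]; exact h2.1
      linarith
    · have : ((s y).g α ((s y).r α) - (s y).g α ((s y).p α)) / ((s y).r α - (s y).p α) ≤ M α := by
        rw [div_le_iff₀ h1]; exact h2.2
      linarith
  have key : ∀ N ≥ n0, ∃ y, ∀ k ≤ N, ∀ α, 0 ≤ (run (s y) k).x α := by
    intro N hN
    obtain ⟨κ, hκ, hκz⟩ := exists_kappa N
    obtain ⟨b, hb⟩ : ∃ b : _ → (Fin 4 → ℝ) × (ℕ → ℝ),
      b = fun y => ((s y).c0, fun n => cof κ (run (s y) n) (stp n)) := ⟨_, rfl⟩
    have hbc : ∀ y n, co m n ≤ (b y).2 n ∧ (b y).2 n ≤ co M n := by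
      intro y n; rw [hb]; exact cof_mem hm0 hM0 (hsl y) hκ n
    have hbc0 : ∀ y α, m α - 1 ≤ (b y).1 α ∧ (b y).1 α ≤ M α - 1 := by
      intro y n; rw [hb]; exact hc0 y n
    have hbB : ∀ y, b y ∈ Box := fun y => mem_Box_of hm1 hM1 hM0 (hbc0 y) (hbc y)
    have hbl : ∀ y, (∀ α, η < zh N (b y) 0 α) ∧
        |zh N (b y) 0 0 + zh N (b y) 0 1 - 4 / 5| < η / 4 := fun y =>
      hnear m M (fun α => (hm α).trans_le (min_le_left _ _))
        (fun α => (hM α).trans_le (min_le_left _ _)) (b y).1 (b y).2 (hbc0 y) (hbc y) (hbB y) N hN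
    have hcx : ∀ α, Continuous fun y => (s y).x α := fun α => (hs.r α).sub (hs.p α)
    have hcy : ∀ α, Continuous fun y => (s y).y α := fun α =>
      (hs.comp_g α (hs.r α)).sub (hs.comp_g α (hs.p α))
    have hbcont : Continuous b := by
      rw [hb]
      apply Continuous.prodMk
      · apply continuous_pi
        intro α
        exact ((hcy α).div (hcx α) (fun y => (hx y α).ne')).sub continuous_const
      · apply continuous_pi
        intro n
        exact (hs.run n).cof hκ _
    have hbcont' : Continuous fun y => (⟨b y, hbB y⟩ : Box) := hbcont.subtype_mk hbB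
    have hzc : ∀ α, Continuous fun y => zh N (b y) 0 α := fun α =>
      (continuous_zh N (Nat.zero_le _) α).comp hbcont'
    obtain ⟨y, hy⟩ := brouwer_sub (a := η / 2) (b := 4 / 5 - η / 2) (c := η / 2)
      (d := 1 / 5 - η / 2) (by linarith) (by linarith)
      (G := fun y => (y.1.1 + (zh N (b y) 0 0 - (s y).x 0), y.1.2 + (zh N (b y) 0 2 - (s y).x 2)))
      (by
        apply Continuous.prodMk
        · exact (by fun_prop : Continuous fun y : (Icc (η / 2) (4 / 5 - η / 2) ×ˢ
            Icc (η / 2) (1 / 5 - η / 2) : Set (ℝ × ℝ)) => y.1.1).add ((hzc 0).sub (hcx 0))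
        · exact (by fun_prop : Continuous fun y : (Icc (η / 2) (4 / 5 - η / 2) ×ˢ
            Icc (η / 2) (1 / 5 - η / 2) : Set (ℝ × ℝ)) => y.1.2).add ((hzc 2).sub (hcx 2)))
      (by
        intro y
        obtain ⟨h1, h2⟩ := hbl y
        have h3 := zh_sum (hbB y) N
        rw [Fin.sum_univ_four] at h3
        have h4 := abs_lt.mp h2
        have h5 := abs_le.mp (hx0 y)
        have h6 := abs_le.mp (hx2 y)
        refine ⟨⟨?_, ?_⟩, ⟨?_, ?_⟩⟩ <;> simp only <;> linarith [h1 0, h1 1, h1 2, h1 3])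
    have hy0 : zh N (b y) 0 0 = (s y).x 0 := by
      have := congrArg Prod.fst hy; simp only at this; linarith
    have hy2 : zh N (b y) 0 2 = (s y).x 2 := by
      have := congrArg Prod.snd hy; simp only at this; linarith
    have e1 := zh_sum (hbB y) N
    have e2 := hsum y
    have e3 := zh_pair (hbB y) N
    have e4 : ∑ α, (b y).1 α * (s y).x α = 0 := by
      have h1 : ∀ α, (b y).1 α * (s y).x α = (s y).y α - (s y).x α := by
        intro α
        rw [hb]
        simp only [St.c0]
        have := (hx y α).ne'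
        field_simp
      simp only [h1]
      rw [Finset.sum_sub_distrib, (hI y).sum_xy, sub_self]
    rw [Fin.sum_univ_four] at e1 e2 e3 e4
    rw [← hy0, ← hy2] at e2 e4
    have hneg : (b y).1 1 < 0 := by
      have h1 := (hbc0 y 1).2
      have h2 := (abs_lt.mp ((hM 1).trans_le (min_le_right _ _))).2
      simp [sl0] at h2
      linarith
    have hpos : 0 < (b y).1 3 := by
      have h1 := (hbc0 y 3).1
      have h2 := (abs_lt.mp ((hm 3).trans_le (min_le_right _ _))).1
      simp [sl0] at h2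
      linarith
    have e5 : zh N (b y) 0 1 - (s y).x 1 = (s y).x 3 - zh N (b y) 0 3 := by linarith
    have e6 : ((b y).1 1 - (b y).1 3) * (zh N (b y) 0 1 - (s y).x 1) = 0 := by
      linear_combination e3 - e4 - (b y).1 3 * e5
    have e7 : zh N (b y) 0 1 = (s y).x 1 := by
      have := (mul_eq_zero.mp e6).resolve_left (by linarith)
      linarith
    have e8 : zh N (b y) 0 3 = (s y).x 3 := by linarith
    have hall : ∀ α, (s y).r α - (s y).p α = zh N (b y) 0 α := by
      intro α
      fin_cases α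
      · exact hy0.symm
      · exact e7.symm
      · exact hy2.symm
      · exact e8.symm
    have hsol := sol (hI y) hκ (N := N) (a := (b y).2) (z := zh N (b y))
      (fun n _ => by rw [hb]) hall (fun k hk α => hκz _ (hbB y) k hk α)
      (fun k hk => zh_step N hk)
    refine ⟨y, fun k hk α => ?_⟩
    unfold St.x
    rw [hsol k hk α]
    exact (zh_pos (hbB y) N hk α).le
  -- compactness
  have hK : CompactSpace (Icc (η / 2) (4 / 5 - η / 2) ×ˢ
      Icc (η / 2) (1 / 5 - η / 2) : Set (ℝ × ℝ)) :=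
    isCompact_iff_compactSpace.mp (isCompact_Icc.prod isCompact_Icc)
  obtain ⟨A, hA⟩ : ∃ A : ℕ → Set (Icc (η / 2) (4 / 5 - η / 2) ×ˢ
      Icc (η / 2) (1 / 5 - η / 2) : Set (ℝ × ℝ)),
      A = fun N => {y | ∀ k ≤ N + n0, ∀ α, 0 ≤ (run (s y) k).x α} := ⟨_, rfl⟩
  have hAc : ∀ N, IsClosed (A N) := by
    intro N
    rw [hA]
    simp only [Set.ofPred_forall]
    refine isClosed_iInter fun k => isClosed_iInter fun _ => isClosed_iInter fun α => ?_
    exact isClosed_le continuous_const (((hs.run k).r α).sub ((hs.run k).p α))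
  obtain ⟨y, hy⟩ := IsCompact.nonempty_iInter_of_sequence_nonempty_isCompact_isClosed A
    (fun N => by
      rw [hA]; intro y hy k hk α
      exact hy k (by omega) α)
    (fun N => by
      rw [hA]; exact key (N + n0) (by omega))
    (hAc 0).isCompact hAc
  refine ⟨y, fun n α => ?_⟩
  have h1 := mem_iInter.mp hy n
  rw [hA] at h1
  exact h1 n (by omega) α

end Pool.Agent.Giem37
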