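import Mathlib

/-! The combinatorial path: phases, counters and exponents.

Letters: `A = 0`, `B = 1`, `C = 2`, `D = 3`.  One block of the path is
`(C>D)^m, D>C, A>D, A>C, (B>A)^n, A>B, D>A, D>B`. -/

set_option autoImplicit false

namespace Pool.Agent.Giem37

open Function

/-- phases of the path -/
inductive Ph
  | p0 | p1 | p2 | p3 | p4 | p5 | p6 | p7
  deriving DecidableEq

/-- an induction step: type, winner and loser -/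
structure Stp where
  /-- `true` if the top letter wins -/
  top : Bool
  /-- winner -/
  w : Fin 4
  /-- loser -/
  l : Fin 4

/-- the step done in a phase -/
def Ph.stp : Ph → Stp
  | .p0 => ⟨false, 2, 3⟩
  | .p1 => ⟨true, 3, 2⟩
  | .p2 => ⟨false, 0, 3⟩
  | .p3 => ⟨false, 0, 2⟩
  | .p4 => ⟨true, 1, 0⟩
  | .p5 => ⟨false, 0, 1⟩
  | .p6 => ⟨true, 3, 0⟩
  | .p7 => ⟨true, 3, 1⟩

/-- top order in a phase -/
def Ph.tO : Ph → Fin 4 → Fin 4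
  | .p3 => ![0, 3, 1, 2]
  | .p4 => ![0, 2, 3, 1]
  | .p5 => ![0, 2, 3, 1]
  | _ => ![0, 1, 2, 3]

/-- bottom order in a phase -/
def Ph.bO : Ph → Fin 4 → Fin 4
  | .p0 => ![3, 1, 0, 2]
  | .p1 => ![3, 1, 0, 2]
  | .p7 => ![3, 0, 2, 1]
  | _ => ![3, 2, 1, 0]

/-- control state -/
structure Ctl where
  /-- phase -/
  ph : Ph
  /-- remaining repetitions -/
  cnt : ℕ
  /-- block index -/
  k : ℕ
  /-- size bound -/
  ex : ℕ
  /-- lower exponents -/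
  lo : Fin 4 → ℤ
  /-- upper exponents -/
  up : Fin 4 → ℤ

/-- exponent update -/
def expUp (σ : Stp) (e : Fin 4 → ℤ) : Fin 4 → ℤ := update e σ.l (e σ.l + e σ.w)

/-- next control state -/
def Ctl.next (c : Ctl) : Ctl :=
  match c.ph with
  | .p0 => ⟨if c.cnt ≤ 1 then .p1 else .p0, c.cnt - 1, c.k, 2 * c.ex + 1,
      expUp Ph.p0.stp c.lo, expUp Ph.p0.stp c.up⟩
  | .p1 => ⟨.p2, 0, c.k, 2 * c.ex + 1, expUp Ph.p1.stp c.lo, expUp Ph.p1.stp c.up⟩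
  | .p2 => ⟨.p3, 0, c.k, 2 * c.ex + 1, expUp Ph.p2.stp c.lo, expUp Ph.p2.stp c.up⟩
  | .p3 => ⟨.p4, c.ex + c.k + 11, c.k, 2 * c.ex + 1, expUp Ph.p3.stp c.lo, expUp Ph.p3.stp c.up⟩
  | .p4 => ⟨if c.cnt ≤ 1 then .p5 else .p4, c.cnt - 1, c.k, 2 * c.ex + 1,
      expUp Ph.p4.stp c.lo, expUp Ph.p4.stp c.up⟩
  | .p5 => ⟨.p6, 0, c.k, 2 * c.ex + 1, expUp Ph.p5.stp c.lo, expUp Ph.p5.stp c.up⟩
  | .p6 => ⟨.p7, 0, c.k, 2 * c.ex + 1, expUp Ph.p6.stp c.lo, expUp Ph.p6.stp c.up⟩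
  | .p7 => ⟨.p0, 2 * c.ex + 2, c.k + 1, 2 * c.ex + 1, expUp Ph.p7.stp c.lo, expUp Ph.p7.stp c.up⟩

/-- the control sequence -/
def ctl : ℕ → Ctl
  | 0 => ⟨.p0, 10, 0, 4, ![-4, -4, 1, 1], ![-1, -1, 4, 4]⟩
  | n + 1 => (ctl n).next

/-- the `n`-th step -/
def stp (n : ℕ) : Stp := (ctl n).ph.stp

theorem Ctl.next_lo (c : Ctl) : c.next.lo = expUp c.ph.stp c.lo := by
  cases hc : c.ph <;> simp [Ctl.next, hc]

theorem Ctl.next_up (c : Ctl) : c.next.up = expUp c.ph.stp c.up := by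
  cases hc : c.ph <;> simp [Ctl.next, hc]

/-- invariants of the control -/
structure CI (c : Ctl) : Prop where
  l0 : -(c.ex : ℤ) ≤ c.lo 0
  l1 : -(c.ex : ℤ) ≤ c.lo 1
  u2 : c.up 2 ≤ c.ex
  u3 : c.up 3 ≤ c.ex
  u0 : c.up 0 ≤ -1
  u1 : c.up 1 ≤ -1
  l2 : 1 ≤ c.lo 2
  l3 : 1 ≤ c.lo 3
  q0 : c.ph = .p0 → 1 ≤ c.cnt ∧ -(c.lo 0) + 2 ≤ c.lo 3 + c.cnt
  q1 : c.ph = .p1 → -(c.lo 0) + 2 ≤ c.lo 3
  q2 : c.ph = .p2 → -(c.lo 0) + 2 ≤ c.lo 3 ∧ -(c.lo 0) + 2 ≤ c.lo 2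
  q3 : c.ph = .p3 → -(c.lo 0) + 2 ≤ c.lo 2
  q4 : c.ph = .p4 → 1 ≤ c.cnt ∧ c.up 0 + c.up 3 + c.k + 11 ≤ c.cnt
  q5 : c.ph = .p5 → c.up 0 + c.up 3 + c.k + 11 ≤ 0
  q6 : c.ph = .p6 → c.up 0 + c.up 3 + c.k + 11 ≤ 0 ∧ c.up 1 + c.up 3 + c.k + 11 ≤ 0
  q7 : c.ph = .p7 → c.up 1 + c.up 3 + c.k + 11 ≤ 0

theorem CI.next {c : Ctl} (h : CI c) : CI c.next := by
  obtain ⟨l0, l1, u2, u3, u0, u1, l2, l3, q0, q1, q2, q3, q4, q5, q6, q7⟩ := h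
  obtain ⟨ph, cnt, k, ex, lo, up⟩ := c
  simp only at l0 l1 u2 u3 u0 u1 l2 l3 q0 q1 q2 q3 q4 q5 q6 q7
  cases ph
  · obtain ⟨a, b⟩ := q0 rfl
    by_cases hc : cnt ≤ 1 <;> constructor <;>
      simp [Ctl.next, hc, expUp, Ph.stp] <;> omega
  · have a := q1 rfl
    constructor <;> simp [Ctl.next, expUp, Ph.stp] <;> omega
  · have a := q2 rfl
    constructor <;> simp [Ctl.next, expUp, Ph.stp] <;> omega
  · have a := q3 rfl
    constructor <;> simp [Ctl.next, expUp, Ph.stp] <;> omega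
  · obtain ⟨a, b⟩ := q4 rfl
    by_cases hc : cnt ≤ 1 <;> constructor <;>
      simp [Ctl.next, hc, expUp, Ph.stp] <;> omega
  · have a := q5 rfl
    constructor <;> simp [Ctl.next, expUp, Ph.stp] <;> omega
  · have a := q6 rfl
    constructor <;> simp [Ctl.next, expUp, Ph.stp] <;> omega
  · have a := q7 rfl
    constructor <;> simp [Ctl.next, expUp, Ph.stp] <;> omega

theorem ctl_CI (n : ℕ) : CI (ctl n) := by
  induction n with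
  | zero => constructor <;> simp [ctl]
  | succ n ih => exact ih.next

theorem ph_next_cases (c : Ctl) : (c.ph = .p0 → c.next.ph = .p0 ∨ c.next.ph = .p1) ∧
    (c.ph = .p1 → c.next.ph = .p2) ∧ (c.ph = .p2 → c.next.ph = .p3) ∧
    (c.ph = .p3 → c.next.ph = .p4) ∧ (c.ph = .p4 → c.next.ph = .p4 ∨ c.next.ph = .p5) ∧
    (c.ph = .p5 → c.next.ph = .p6) ∧ (c.ph = .p6 → c.next.ph = .p7) ∧
    (c.ph = .p7 → c.next.ph = .p0) := by
  refine ⟨?_, ?_, ?_, ?_, ?_, ?_, ?_, ?_⟩ <;> intro h <;> simp only [Ctl.next, h]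
  · by_cases h' : c.cnt ≤ 1 <;> simp [h']
  · by_cases h' : c.cnt ≤ 1 <;> simp [h']

/-- from `p0` one reaches `p1` -/
theorem reach1 : ∀ (m n : ℕ), (ctl n).ph = .p0 → (ctl n).cnt ≤ m → ∃ n' ≥ n, (ctl n').ph = .p1 := by
  intro m
  induction m with
  | zero =>
    intro n h hc
    refine ⟨n + 1, by omega, ?_⟩
    simp only [ctl, Ctl.next, h]
    rw [if_pos (by omega)]
  | succ m ih =>
    intro n h hc
    by_cases h1 : (ctl n).cnt ≤ 1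
    · refine ⟨n + 1, by omega, ?_⟩
      simp only [ctl, Ctl.next, h]
      rw [if_pos h1]
    · obtain ⟨n', hn', h'⟩ := ih (n + 1)
        (by simp only [ctl, Ctl.next, h]; rw [if_neg h1])
        (by simp only [ctl, Ctl.next, h]; omega)
      exact ⟨n', by omega, h'⟩

/-- from `p4` one reaches `p5` -/
theorem reach5 : ∀ (m n : ℕ), (ctl n).ph = .p4 → (ctl n).cnt ≤ m → ∃ n' ≥ n, (ctl n').ph = .p5 := by
  intro m
  induction m with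
  | zero =>
    intro n h hc
    refine ⟨n + 1, by omega, ?_⟩
    simp only [ctl, Ctl.next, h]
    rw [if_pos (by omega)]
  | succ m ih =>
    intro n h hc
    by_cases h1 : (ctl n).cnt ≤ 1
    · refine ⟨n + 1, by omega, ?_⟩
      simp only [ctl, Ctl.next, h]
      rw [if_pos h1]
    · obtain ⟨n', hn', h'⟩ := ih (n + 1)
        (by simp only [ctl, Ctl.next, h]; rw [if_neg h1])
        (by simp only [ctl, Ctl.next, h]; omega)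
      exact ⟨n', by omega, h'⟩

theorem r01 {n : ℕ} (h : (ctl n).ph = .p0) : ∃ n' ≥ n, (ctl n').ph = .p1 := reach1 _ n h le_rfl
theorem r12 {n : ℕ} (h : (ctl n).ph = .p1) : ∃ n' ≥ n, (ctl n').ph = .p2 :=
  ⟨n + 1, by omega, (ph_next_cases (ctl n)).2.1 h⟩
theorem r23 {n : ℕ} (h : (ctl n).ph = .p2) : ∃ n' ≥ n, (ctl n').ph = .p3 :=
  ⟨n + 1, by omega, (ph_next_cases (ctl n)).2.2.1 h⟩
theorem r34 {n : ℕ} (h : (ctl n).ph = .p3) : ∃ n' ≥ n, (ctl n').ph = .p4 :=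
  ⟨n + 1, by omega, (ph_next_cases (ctl n)).2.2.2.1 h⟩
theorem r45 {n : ℕ} (h : (ctl n).ph = .p4) : ∃ n' ≥ n, (ctl n').ph = .p5 := reach5 _ n h le_rfl
theorem r56 {n : ℕ} (h : (ctl n).ph = .p5) : ∃ n' ≥ n, (ctl n').ph = .p6 :=
  ⟨n + 1, by omega, (ph_next_cases (ctl n)).2.2.2.2.2.1 h⟩
theorem r67 {n : ℕ} (h : (ctl n).ph = .p6) : ∃ n' ≥ n, (ctl n').ph = .p7 :=
  ⟨n + 1, by omega, (ph_next_cases (ctl n)).2.2.2.2.2.2.1 h⟩
theorem r70 {n : ℕ} (h : (ctl n).ph = .p7) : ∃ n' ≥ n + 1, (ctl n').ph = .p0 :=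
  ⟨n + 1, le_rfl, (ph_next_cases (ctl n)).2.2.2.2.2.2.2 h⟩

theorem reach0 (n : ℕ) : ∃ n' ≥ n, (ctl n').ph = .p0 := by
  have h7 : ∀ n, (ctl n).ph = .p7 → ∃ n' ≥ n, (ctl n').ph = .p0 := fun n h => by
    obtain ⟨m, hm, h'⟩ := r70 h; exact ⟨m, by omega, h'⟩
  have h6 : ∀ n, (ctl n).ph = .p6 → ∃ n' ≥ n, (ctl n').ph = .p0 := fun n h => by
    obtain ⟨m, hm, h'⟩ := r67 h; obtain ⟨q, hq, h''⟩ := h7 m h'; exact ⟨q, by omega, h''⟩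
  have h5 : ∀ n, (ctl n).ph = .p5 → ∃ n' ≥ n, (ctl n').ph = .p0 := fun n h => by
    obtain ⟨m, hm, h'⟩ := r56 h; obtain ⟨q, hq, h''⟩ := h6 m h'; exact ⟨q, by omega, h''⟩
  have h4 : ∀ n, (ctl n).ph = .p4 → ∃ n' ≥ n, (ctl n').ph = .p0 := fun n h => by
    obtain ⟨m, hm, h'⟩ := r45 h; obtain ⟨q, hq, h''⟩ := h5 m h'; exact ⟨q, by omega, h''⟩
  have h3 : ∀ n, (ctl n).ph = .p3 → ∃ n' ≥ n, (ctl n').ph = .p0 := fun n h => by
    obtain ⟨m, hm, h'⟩ := r34 h; obtain ⟨q, hq, h''⟩ := h4 m h'; exact ⟨q, by omega, h''⟩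
  have h2 : ∀ n, (ctl n).ph = .p2 → ∃ n' ≥ n, (ctl n').ph = .p0 := fun n h => by
    obtain ⟨m, hm, h'⟩ := r23 h; obtain ⟨q, hq, h''⟩ := h3 m h'; exact ⟨q, by omega, h''⟩
  have h1 : ∀ n, (ctl n).ph = .p1 → ∃ n' ≥ n, (ctl n').ph = .p0 := fun n h => by
    obtain ⟨m, hm, h'⟩ := r12 h; obtain ⟨q, hq, h''⟩ := h2 m h'; exact ⟨q, by omega, h''⟩
  cases h : (ctl n).ph
  · exact ⟨n, le_rfl, h⟩
  · exact h1 n h
  · exact h2 n h
  · exact h3 n h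
  · exact h4 n h
  · exact h5 n h
  · exact h6 n h
  · exact h7 n h

theorem reach_all (n : ℕ) (φ : Ph) : ∃ n' ≥ n, (ctl n').ph = φ := by
  obtain ⟨n0, hn0, h0⟩ := reach0 n
  obtain ⟨n1, hn1, h1⟩ := r01 h0
  obtain ⟨n2, hn2, h2⟩ := r12 h1
  obtain ⟨n3, hn3, h3⟩ := r23 h2
  obtain ⟨n4, hn4, h4⟩ := r34 h3
  obtain ⟨n5, hn5, h5⟩ := r45 h4
  obtain ⟨n6, hn6, h6⟩ := r56 h5
  obtain ⟨n7, hn7, h7⟩ := r67 h6
  cases φ
  · exact ⟨n0, by omega, h0⟩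
  · exact ⟨n1, by omega, h1⟩
  · exact ⟨n2, by omega, h2⟩
  · exact ⟨n3, by omega, h3⟩
  · exact ⟨n4, by omega, h4⟩
  · exact ⟨n5, by omega, h5⟩
  · exact ⟨n6, by omega, h6⟩
  · exact ⟨n7, by omega, h7⟩

/-- families of sets of letters propagating from winners to losers -/
def Prop1 (Z : ℕ → Set (Fin 4)) : Prop :=
  (∀ n, Z n ⊆ Z (n + 1)) ∧ ∀ n, (stp n).w ∈ Z n → (stp n).l ∈ Z (n + 1)

theorem Prop1.mono {Z : ℕ → Set (Fin 4)} (hZ : Prop1 Z) {m n : ℕ} (h : m ≤ n) : Z m ⊆ Z n :=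
  monotone_nat_of_le_succ (f := Z) hZ.1 h

/-- `β` is eventually reached from `α` -/
def Rch (α β : Fin 4) : Prop := ∀ n, ∃ N ≥ n, ∀ Z, Prop1 Z → α ∈ Z n → β ∈ Z N

theorem Rch.refl (α : Fin 4) : Rch α α := fun n => ⟨n, le_rfl, fun _ _ h => h⟩

theorem Rch.trans {α β γ : Fin 4} (h1 : Rch α β) (h2 : Rch β γ) : Rch α γ := by
  intro n
  obtain ⟨N, hN, h⟩ := h1 n
  obtain ⟨N', hN', h'⟩ := h2 N
  exact ⟨N', by omega, fun Z hZ ha => h' Z hZ (h Z hZ ha)⟩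

theorem Rch.of_ph (φ : Ph) : Rch φ.stp.w φ.stp.l := by
  intro n
  obtain ⟨n', hn', h⟩ := reach_all n φ
  refine ⟨n' + 1, by omega, fun Z hZ ha => ?_⟩
  have h1 := hZ.2 n'
  simp only [stp, h] at h1
  exact h1 (hZ.mono hn' ha)

theorem rch_all (α β : Fin 4) : Rch α β := by
  have h23 : Rch 2 3 := Rch.of_ph .p0
  have h32 : Rch 3 2 := Rch.of_ph .p1
  have h03 : Rch 0 3 := Rch.of_ph .p2
  have h10 : Rch 1 0 := Rch.of_ph .p4
  have h30 : Rch 3 0 := Rch.of_ph .p6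
  have h31 : Rch 3 1 := Rch.of_ph .p7
  have to3 : ∀ α, Rch α 3 := by
    intro α; fin_cases α
    · exact h03
    · exact h10.trans h03
    · exact h23
    · exact Rch.refl 3
  have from3 : ∀ β, Rch 3 β := by
    intro β; fin_cases β
    · exact h30
    · exact h31
    · exact h32
    · exact Rch.refl 3
  exact (to3 α).trans (from3 β)

theorem propagate (n0 : ℕ) : ∃ N ≥ n0, ∀ Z : ℕ → Set (Fin 4), Prop1 Z → (Z n0).Nonempty →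
    Z N = Set.univ := by
  choose f hf1 hf2 using fun α β => rch_all α β n0
  obtain ⟨N, hN⟩ : ∃ N, ∀ α β, f α β ≤ N :=
    ⟨∑ α, ∑ β, f α β, fun α β =>
      (Finset.single_le_sum (f := fun β => f α β) (fun _ _ => Nat.zero_le _)
        (Finset.mem_univ β)).trans
      (Finset.single_le_sum (f := fun α => ∑ β, f α β) (fun _ _ => Nat.zero_le _)
        (Finset.mem_univ α))⟩
  refine ⟨N, (hf1 0 0).trans (hN 0 0), fun Z hZ ⟨α, hα⟩ => ?_⟩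
  ext β
  simp only [Set.mem_univ, iff_true]
  exact hZ.mono (hN α β) (hf2 α β Z hZ hα)

theorem no_propagate {Z : ℕ → Set (Fin 4)} (hZ : Prop1 Z) (hne : ∀ n, Z n ≠ Set.univ) (n : ℕ) :
    Z n = ∅ := by
  obtain ⟨N, -, h⟩ := propagate n
  by_contra hc
  exact hne N (h Z hZ (Set.nonempty_iff_ne_empty.mpr hc))

end Pool.Agent.Giem37
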