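import Mathlib

/-! Definitions for the problem MP_78e4b4_an (generalized interval exchange maps).

The interval is `I = [0,1)` and the alphabet with `d` letters is `Fin d`. -/

set_option autoImplicit false

namespace Pool.Agent.Giem37

open Set Topology

/-- Combinatorial data `π = (π_t, π_b)` on the alphabet `Fin d`: `top α` and `bot α` are the
positions (counted from `0`) of the letter `α` in the top and in the bottom partition. -/
structure Comb (d : ℕ) where
  /-- positions in the top partition -/
  top : Fin d ≃ Fin d
  /-- positions in the bottom partition -/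
  bot : Fin d ≃ Fin d

/-- Irreducibility: for `0 < k < d` the first `k` letters of the top row are not
the first `k` letters of the bottom row. -/
def Comb.Irreducible {d : ℕ} (π : Comb d) : Prop :=
  ∀ k : ℕ, 0 < k → k < d → {α | (π.top α : ℕ) < k} ≠ {α | (π.bot α : ℕ) < k}

/-- A partition of `[0,1)` into the `d` subintervals `[u i, u (i+1))`, given by its points
`0 = u 0 < u 1 < ... < u d = 1`. -/
structure Part (d : ℕ) where
  /-- the partition points -/
  pt : Fin (d + 1) → ℝ
  mono : StrictMono pt
  zero : pt 0 = 0
  last : pt (Fin.last d) = 1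

/-- Topology on partitions: that of the (interior) partition points. -/
instance (d : ℕ) : TopologicalSpace (Part d) := TopologicalSpace.induced Part.pt inferInstance

/-- Orientation preserving diffeomorphisms of class `C^r` of `[0,1]` (`r ≥ 1`), extended by the
identity outside `[0,1]` so that they are honest functions on `ℝ`. -/
structure UnitDiffeo (r : ℕ) where
  /-- the function -/
  fn : ℝ → ℝ
  outside : ∀ x, x ∉ Icc (0:ℝ) 1 → fn x = x
  map_zero : fn 0 = 0
  map_one : fn 1 = 1
  contDiff : ContDiffOn ℝ r fn (Icc 0 1)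
  deriv_pos : ∀ x ∈ Icc (0:ℝ) 1, 0 < derivWithin fn (Icc 0 1) x

/-- The `C^r` topology: uniform convergence on `[0,1]` of the derivatives of order `≤ r`. -/
noncomputable instance (r : ℕ) : TopologicalSpace (UnitDiffeo r) :=
  TopologicalSpace.induced
    (fun f (j : Fin (r + 1)) =>
      (UniformFun.ofFun fun x : Icc (0:ℝ) 1 => iteratedDerivWithin j f.fn (Icc 0 1) x :
        UniformFun (Icc (0:ℝ) 1) ℝ))
    inferInstance

/-- The space `X^r(π)` of generalized interval exchange maps of class `C^r` with `d` intervals:
the top partition, the bottom partition, and for each letter the (rescaled) branch. -/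
abbrev GIEM (d r : ℕ) : Type := Part d × Part d × (Fin d → UnitDiffeo r)

variable {d r : ℕ}

/-- left endpoint of the top interval of the letter `α` -/
def tl (π : Comb d) (T : GIEM d r) (α : Fin d) : ℝ := T.1.pt (π.top α).castSucc
/-- right endpoint of the top interval of the letter `α` -/
def tr (π : Comb d) (T : GIEM d r) (α : Fin d) : ℝ := T.1.pt (π.top α).succ
/-- left endpoint of the bottom interval of the letter `α` -/
def bl (π : Comb d) (T : GIEM d r) (α : Fin d) : ℝ := T.2.1.pt (π.bot α).castSucc
/-- right endpoint of the bottom interval of the letter `α` -/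
def br (π : Comb d) (T : GIEM d r) (α : Fin d) : ℝ := T.2.1.pt (π.bot α).succ

/-- The branch of the letter `α`: it maps `[tl α, tr α]` onto `[bl α, br α]`. -/
noncomputable def branch (π : Comb d) (T : GIEM d r) (α : Fin d) (x : ℝ) : ℝ :=
  bl π T α + (br π T α - bl π T α) * (T.2.2 α).fn ((x - tl π T α) / (tr π T α - tl π T α))

/-- The generalized interval exchange map itself: on `[tl α, tr α)` it is the branch of `α`. -/
noncomputable def gmap (π : Comb d) (T : GIEM d r) (x : ℝ) : ℝ :=
  ∑ α, (Ico (tl π T α) (tr π T α)).indicator (branch π T α) x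

/-- `T` is standard: every branch is a translation. -/
def IsStandard (π : Comb d) (T : GIEM d r) : Prop :=
  ∀ α, (br π T α - bl π T α = tr π T α - tl π T α) ∧ ∀ x, (T.2.2 α).fn x = x

/-- `T` has no connections: no orbit goes from an interior endpoint of the bottom partition to
an interior endpoint of the top partition. -/
def NoConnection (π : Comb d) (T : GIEM d r) : Prop :=
  ∀ (m : ℕ) (i j : Fin (d + 1)), i ≠ 0 → i ≠ Fin.last d → j ≠ 0 → j ≠ Fin.last d →
    (gmap π T)^[m] (T.2.1.pt i) ≠ T.1.pt j

/-- `T` is semi-conjugate to `T0`: `h ∘ T = T0 ∘ h` on `I = [0,1)` for some continuous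
non-decreasing surjection `h` of `[0,1]` (mapping `I` into `I`, so that `T0 ∘ h` makes sense). -/
def SemiConj (π : Comb d) (T T0 : GIEM d r) : Prop :=
  ∃ h : ℝ → ℝ, ContinuousOn h (Icc 0 1) ∧ MonotoneOn h (Icc 0 1) ∧ h '' Icc 0 1 = Icc 0 1 ∧
    ∀ x ∈ Ico (0:ℝ) 1, h x ∈ Ico (0:ℝ) 1 ∧ h (gmap π T x) = gmap π T0 (h x)

/-- The branchwise version: on each closed top interval, `h` conjugates the (continuously
extended) branches. -/
def BranchSemiConj (π : Comb d) (T T0 : GIEM d r) : Prop :=
  ∃ h : ℝ → ℝ, ContinuousOn h (Icc 0 1) ∧ MonotoneOn h (Icc 0 1) ∧ h '' Icc 0 1 = Icc 0 1 ∧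
    ∀ α, ∀ x ∈ Icc (tl π T α) (tr π T α), h x ∈ Icc (tl π T0 α) (tr π T0 α) ∧
      h (branch π T α x) = branch π T0 α (h x)

/-- `S` is a topological submanifold of codimension `k` of `X`: every point of `S` is in the
domain of a chart of `X` with values in `E × ℝ^k`, `E` a Banach space, taking `S` to
`E × {0}`. -/
def IsTopSubmanifold (k : ℕ) {X : Type} [TopologicalSpace X] (S : Set X) : Prop :=
  ∀ T ∈ S, ∃ (E : Type) (_ : NormedAddCommGroup E) (_ : NormedSpace ℝ E) (_ : CompleteSpace E)
    (φ : OpenPartialHomeomorph X (E × EuclideanSpace ℝ (Fin k))),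
    T ∈ φ.source ∧ φ '' (φ.source ∩ S) = φ.target ∩ {p | p.2 = 0}

end Pool.Agent.Giem37
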