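import Pool.Agent.Lib_helper37.Giem.Defs

/-! Basic facts on `UnitDiffeo`. -/

set_option autoImplicit false

namespace Pool.Agent.Giem37

open Set Topology Filter

variable {r : ℕ}

theorem UnitDiffeo.continuousOn (f : UnitDiffeo r) : ContinuousOn f.fn (Icc 0 1) :=
  f.contDiff.continuousOn

theorem monotone_of_pieces {g : ℝ → ℝ} (h0 : MonotoneOn g (Iic 0)) (h1 : MonotoneOn g (Icc 0 1))
    (h2 : MonotoneOn g (Ici 1)) : Monotone g := by
  have a : MonotoneOn g (Icc 0 1 ∪ Ici 1) :=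
    h1.union_right h2 ⟨⟨zero_le_one, le_rfl⟩, fun x hx => hx.2⟩ ⟨self_mem_Ici, fun x hx => hx⟩
  have e : Icc (0:ℝ) 1 ∪ Ici 1 = Ici 0 := Icc_union_Ici_eq_Ici zero_le_one
  rw [e] at a
  have b : MonotoneOn g (Iic 0 ∪ Ici 0) :=
    h0.union_right a ⟨self_mem_Iic, fun x hx => hx⟩ ⟨self_mem_Ici, fun x hx => hx⟩
  rw [Iic_union_Ici] at b
  exact monotoneOn_univ.mp b

theorem UnitDiffeo.differentiableOn (f : UnitDiffeo r) (hr : 1 ≤ r) :
    DifferentiableOn ℝ f.fn (Icc 0 1) :=
  f.contDiff.differentiableOn (by exact_mod_cast (by omega : r ≠ 0))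

theorem UnitDiffeo.hasDerivAt (f : UnitDiffeo r) (hr : 1 ≤ r) {x : ℝ} (hx : x ∈ Ioo (0:ℝ) 1) :
    HasDerivAt f.fn (derivWithin f.fn (Icc 0 1) x) x := by
  have h1 := (f.differentiableOn hr x ⟨hx.1.le, hx.2.le⟩).hasDerivWithinAt
  exact h1.hasDerivAt (Icc_mem_nhds hx.1 hx.2)

theorem UnitDiffeo.eq_outside (f : UnitDiffeo r) {x : ℝ} (hx : x ≤ 0 ∨ 1 ≤ x) : f.fn x = x := by
  by_cases h : x ∈ Icc (0:ℝ) 1
  · rcases hx with hx | hx
    · have : x = 0 := le_antisymm hx h.1
      rw [this]; exact f.map_zero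
    · have : x = 1 := le_antisymm h.2 hx
      rw [this]; exact f.map_one
  · exact f.outside x h

theorem UnitDiffeo.lower (f : UnitDiffeo r) (hr : 1 ≤ r) {c : ℝ} (hc1 : c ≤ 1)
    (hc : ∀ x ∈ Icc (0:ℝ) 1, c ≤ derivWithin f.fn (Icc 0 1) x) {x y : ℝ} (hxy : x ≤ y) :
    c * (y - x) ≤ f.fn y - f.fn x := by
  have hm : Monotone (fun x => f.fn x - c * x) := by
    apply monotone_of_pieces
    · intro a ha b hb hab
      simp only
      rw [f.eq_outside (Or.inl ha), f.eq_outside (Or.inl hb)]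
      nlinarith
    · apply monotoneOn_of_deriv_nonneg (convex_Icc 0 1)
      · exact f.continuousOn.sub (by fun_prop)
      · rw [interior_Icc]
        intro x hx
        exact ((f.hasDerivAt hr hx).sub ((hasDerivAt_id x).const_mul c)).differentiableAt.differentiableWithinAt
      · rw [interior_Icc]
        intro x hx
        have hd : HasDerivAt (fun x => f.fn x - c * x) (derivWithin f.fn (Icc 0 1) x - c * 1) x :=
          (f.hasDerivAt hr hx).sub ((hasDerivAt_id' x).const_mul c)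
        rw [hd.deriv]
        have := hc x ⟨hx.1.le, hx.2.le⟩
        linarith
    · intro a ha b hb hab
      simp only
      rw [f.eq_outside (Or.inr ha), f.eq_outside (Or.inr hb)]
      nlinarith
  have := hm hxy
  simp only at this
  linarith

theorem UnitDiffeo.upper (f : UnitDiffeo r) (hr : 1 ≤ r) {c : ℝ} (hc1 : 1 ≤ c)
    (hc : ∀ x ∈ Icc (0:ℝ) 1, derivWithin f.fn (Icc 0 1) x ≤ c) {x y : ℝ} (hxy : x ≤ y) :
    f.fn y - f.fn x ≤ c * (y - x) := by
  have hm : Monotone (fun x => c * x - f.fn x) := by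
    apply monotone_of_pieces
    · intro a ha b hb hab
      simp only
      rw [f.eq_outside (Or.inl ha), f.eq_outside (Or.inl hb)]
      nlinarith
    · apply monotoneOn_of_deriv_nonneg (convex_Icc 0 1)
      · exact ContinuousOn.sub (by fun_prop) f.continuousOn
      · rw [interior_Icc]
        intro x hx
        exact (((hasDerivAt_id x).const_mul c).sub (f.hasDerivAt hr hx)).differentiableAt.differentiableWithinAt
      · rw [interior_Icc]
        intro x hx
        have hd : HasDerivAt (fun x => c * x - f.fn x) (c * 1 - derivWithin f.fn (Icc 0 1) x) x :=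
          ((hasDerivAt_id' x).const_mul c).sub (f.hasDerivAt hr hx)
        rw [hd.deriv]
        have := hc x ⟨hx.1.le, hx.2.le⟩
        linarith
    · intro a ha b hb hab
      simp only
      rw [f.eq_outside (Or.inr ha), f.eq_outside (Or.inr hb)]
      nlinarith
  have := hm hxy
  simp only at this
  linarith

theorem UnitDiffeo.strictMono (f : UnitDiffeo r) (hr : 1 ≤ r) : StrictMono f.fn := by
  have h1 : StrictMonoOn f.fn (Icc 0 1) := by
    apply strictMonoOn_of_deriv_pos (convex_Icc 0 1) f.continuousOn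
    rw [interior_Icc]
    intro x hx
    rw [(f.hasDerivAt hr hx).deriv]
    exact f.deriv_pos x ⟨hx.1.le, hx.2.le⟩
  have ha : StrictMonoOn f.fn (Icc 0 1 ∪ Ici 1) := by
    apply h1.union _ (c := 1) ⟨⟨zero_le_one, le_rfl⟩, fun x hx => hx.2⟩ ⟨self_mem_Ici, fun x hx => hx⟩
    intro a ha b hb hab
    rw [f.eq_outside (Or.inr ha), f.eq_outside (Or.inr hb)]; exact hab
  rw [Icc_union_Ici_eq_Ici zero_le_one] at ha
  have hb : StrictMonoOn f.fn (Iic 0 ∪ Ici 0) := by
    apply StrictMonoOn.union _ ha (c := 0) ⟨self_mem_Iic, fun x hx => hx⟩ ⟨self_mem_Ici, fun x hx => hx⟩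
    intro a ha b hb hab
    rw [f.eq_outside (Or.inl ha), f.eq_outside (Or.inl hb)]; exact hab
  rw [Iic_union_Ici] at hb
  exact strictMonoOn_univ.mp hb

theorem UnitDiffeo.continuous (f : UnitDiffeo r) : Continuous f.fn := by
  have h1 : ContinuousOn f.fn (Iic 0) :=
    continuousOn_id.congr (fun x hx => f.eq_outside (Or.inl hx))
  have h2 : ContinuousOn f.fn (Ici 1) :=
    continuousOn_id.congr (fun x hx => f.eq_outside (Or.inr hx))
  have h3 := (h1.union_of_isClosed f.continuousOn isClosed_Iic isClosed_Icc).union_of_isClosed h2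
    (isClosed_Iic.union isClosed_Icc) isClosed_Ici
  have h4 : (Iic (0:ℝ) ∪ Icc 0 1) ∪ Ici 1 = univ := by
    rw [Iic_union_Icc_eq_Iic zero_le_one, Iic_union_Ici]
  rw [h4] at h3
  exact continuousOn_univ.mp h3

theorem UnitDiffeo.surjective (f : UnitDiffeo r) : Function.Surjective f.fn := by
  apply f.continuous.surjective
  · apply tendsto_atTop_mono' atTop _ tendsto_id
    filter_upwards [eventually_ge_atTop 1] with x hx
    rw [f.eq_outside (Or.inr hx)]; exact le_rfl
  · apply tendsto_atBot_mono' atBot _ tendsto_id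
    filter_upwards [eventually_le_atBot 0] with x hx
    rw [f.eq_outside (Or.inl hx)]; exact le_rfl

theorem UnitDiffeo.eventually_deriv_near (j : Fin (r + 1)) (f0 : UnitDiffeo r) {ε : ℝ}
    (hε : 0 < ε) : ∀ᶠ f : UnitDiffeo r in 𝓝 f0, ∀ x : Icc (0:ℝ) 1,
      dist (iteratedDerivWithin j f0.fn (Icc 0 1) x) (iteratedDerivWithin j f.fn (Icc 0 1) x) < ε := by
  have h1 : Continuous (fun f : UnitDiffeo r => fun (j : Fin (r + 1)) =>
      (UniformFun.ofFun fun x : Icc (0:ℝ) 1 => iteratedDerivWithin j f.fn (Icc 0 1) x :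
        UniformFun (Icc (0:ℝ) 1) ℝ)) := continuous_induced_dom
  have h2 := (continuous_apply j).comp h1
  have h3 := (UniformFun.tendsto_iff_tendstoUniformly.mp (h2.tendsto f0))
  rw [Metric.tendstoUniformly_iff] at h3
  exact h3 ε hε

theorem UnitDiffeo.eventually_near (f0 : UnitDiffeo r) {ε : ℝ} (hε : 0 < ε) :
    ∀ᶠ f : UnitDiffeo r in 𝓝 f0, ∀ x : ℝ, |f.fn x - f0.fn x| < ε := by
  filter_upwards [UnitDiffeo.eventually_deriv_near 0 f0 hε] with f hf x
  by_cases h : x ∈ Icc (0:ℝ) 1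
  · have := hf ⟨x, h⟩
    simp only [Fin.val_zero, iteratedDerivWithin_zero] at this
    rw [dist_comm, Real.dist_eq] at this
    exact this
  · rw [f.outside x h, f0.outside x h, sub_self, abs_zero]; exact hε

theorem UnitDiffeo.eventually_derivWithin_near (hr : 1 ≤ r) (f0 : UnitDiffeo r) {ε : ℝ}
    (hε : 0 < ε) : ∀ᶠ f : UnitDiffeo r in 𝓝 f0, ∀ x ∈ Icc (0:ℝ) 1,
      |derivWithin f.fn (Icc 0 1) x - derivWithin f0.fn (Icc 0 1) x| < ε := by
  filter_upwards [UnitDiffeo.eventually_deriv_near ⟨1, by omega⟩ f0 hε] with f hf x hx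
  have := hf ⟨x, hx⟩
  simp only [iteratedDerivWithin_one] at this
  rw [dist_comm, Real.dist_eq] at this
  exact this

theorem UnitDiffeo.continuous_eval : Continuous fun p : UnitDiffeo r × ℝ => p.1.fn p.2 := by
  rw [continuous_iff_continuousAt]
  rintro ⟨f0, x0⟩
  rw [ContinuousAt, Metric.tendsto_nhds]
  intro ε hε
  have h1 : ∀ᶠ p : UnitDiffeo r × ℝ in 𝓝 (f0, x0), ∀ x : ℝ, |p.1.fn x - f0.fn x| < ε / 2 :=
    (continuous_fst.tendsto (f0, x0)).eventually (UnitDiffeo.eventually_near f0 (half_pos hε))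
  have h2 : ∀ᶠ p : UnitDiffeo r × ℝ in 𝓝 (f0, x0), |f0.fn p.2 - f0.fn x0| < ε / 2 := by
    have h3 : Tendsto (fun p : UnitDiffeo r × ℝ => f0.fn p.2) (𝓝 (f0, x0)) (𝓝 (f0.fn x0)) :=
      (f0.continuous.comp continuous_snd).tendsto (f0, x0)
    have := Metric.tendsto_nhds.mp h3 (ε / 2) (half_pos hε)
    simpa [Real.dist_eq] using this
  filter_upwards [h1, h2] with p hp1 hp2
  rw [Real.dist_eq]
  calc |p.1.fn p.2 - f0.fn x0| = |(p.1.fn p.2 - f0.fn p.2) + (f0.fn p.2 - f0.fn x0)| := by ring_nf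
    _ ≤ |p.1.fn p.2 - f0.fn p.2| + |f0.fn p.2 - f0.fn x0| := abs_add_le _ _
    _ < ε := by linarith [hp1 p.2]

/-- the identity as a diffeomorphism -/
def UnitDiffeo.id (r : ℕ) : UnitDiffeo r where
  fn := fun x => x
  outside := fun _ _ => rfl
  map_zero := rfl
  map_one := rfl
  contDiff := contDiffOn_id
  deriv_pos := by
    intro x hx
    have : derivWithin (fun x : ℝ => x) (Icc 0 1) x = 1 :=
      derivWithin_id' x _ (uniqueDiffOn_Icc_zero_one x hx)
    rw [this]; exact one_pos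

theorem UnitDiffeo.derivWithin_id {x : ℝ} (hx : x ∈ Icc (0:ℝ) 1) :
    derivWithin (UnitDiffeo.id r).fn (Icc 0 1) x = 1 :=
  derivWithin_id' x _ (uniqueDiffOn_Icc_zero_one x hx)

end Pool.Agent.Giem37
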