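import Pool.Agent.Lib_helper37.Giem.Lin2

/-! The induction on states made of intervals and branch homeomorphisms. -/

set_option autoImplicit false

namespace Pool.Agent.Giem37

open Function Set Topology Filter

/-- a state: left and right endpoints of the top intervals and the branches -/
structure St where
  /-- left endpoints -/
  p : Fin 4 → ℝ
  /-- right endpoints -/
  r : Fin 4 → ℝ
  /-- branches -/
  g : Fin 4 → (ℝ ≃o ℝ)

/-- one induction step -/
noncomputable def St.step (σ : Stp) (s : St) : St :=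
  if σ.top then
    ⟨s.p, update s.r σ.w (s.g σ.l (s.p σ.l)), update s.g σ.l ((s.g σ.l).trans (s.g σ.w))⟩
  else
    ⟨update s.p σ.l ((s.g σ.w).symm (s.p σ.l)),
     update (update s.r σ.l (s.r σ.w)) σ.w ((s.g σ.w).symm (s.p σ.l)),
     update s.g σ.l ((s.g σ.w).trans (s.g σ.l))⟩

/-- the sequence of states -/
noncomputable def run (s : St) : ℕ → St
  | 0 => s
  | n + 1 => (run s n).step (stp n)

/-- the chain invariant: top intervals and bottom intervals are consecutive, start at `0`,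
and end at the same point -/
structure Inv (φ : Ph) (s : St) : Prop where
  t0 : s.p (φ.tO 0) = 0
  t1 : s.r (φ.tO 0) = s.p (φ.tO 1)
  t2 : s.r (φ.tO 1) = s.p (φ.tO 2)
  t3 : s.r (φ.tO 2) = s.p (φ.tO 3)
  b0 : s.g (φ.bO 0) (s.p (φ.bO 0)) = 0
  b1 : s.g (φ.bO 0) (s.r (φ.bO 0)) = s.g (φ.bO 1) (s.p (φ.bO 1))
  b2 : s.g (φ.bO 1) (s.r (φ.bO 1)) = s.g (φ.bO 2) (s.p (φ.bO 2))
  b3 : s.g (φ.bO 2) (s.r (φ.bO 2)) = s.g (φ.bO 3) (s.p (φ.bO 3))
  e : s.r (φ.tO 3) = s.g (φ.bO 3) (s.r (φ.bO 3))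

theorem Inv.next {c : Ctl} {s : St} (h : Inv c.ph s) : Inv c.next.ph (s.step c.ph.stp) := by
  obtain ⟨ph, cnt, k, ex, lo, up⟩ := c
  simp only at h
  have key : ∀ φ', (∀ i, φ'.tO i = (Ctl.next ⟨ph, cnt, k, ex, lo, up⟩).ph.tO i) →
      (∀ i, φ'.bO i = (Ctl.next ⟨ph, cnt, k, ex, lo, up⟩).ph.bO i) →
      Inv φ' (s.step ph.stp) → Inv (Ctl.next ⟨ph, cnt, k, ex, lo, up⟩).ph (s.step ph.stp) := by
    intro φ' h1 h2 h3
    obtain ⟨t0, t1, t2, t3, b0, b1, b2, b3, e⟩ := h3
    simp only [h1, h2] at t0 t1 t2 t3 b0 b1 b2 b3 e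
    exact ⟨t0, t1, t2, t3, b0, b1, b2, b3, e⟩
  cases ph
  · apply key .p0
    · intro i; by_cases hc : cnt ≤ 1 <;> simp [Ctl.next, hc, Ph.tO]
    · intro i; by_cases hc : cnt ≤ 1 <;> simp [Ctl.next, hc, Ph.bO]
    · clear key
      obtain ⟨t0, t1, t2, t3, b0, b1, b2, b3, e⟩ := h
      simp only [Ph.tO, Ph.bO, Matrix.cons_val_zero, Matrix.cons_val_one, Matrix.cons_val] at t0 t1 t2 t3 b0 b1 b2 b3 e
      constructor <;> simp [Ph.tO, Ph.bO, Ph.stp, St.step] <;> 
        first | assumption | (rw [← e]; assumption)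
  · apply key .p2
    · intro i; simp [Ctl.next, Ph.tO]
    · intro i; simp [Ctl.next, Ph.bO]
    · clear key
      obtain ⟨t0, t1, t2, t3, b0, b1, b2, b3, e⟩ := h
      simp only [Ph.tO, Ph.bO, Matrix.cons_val_zero, Matrix.cons_val_one, Matrix.cons_val] at t0 t1 t2 t3 b0 b1 b2 b3 e
      constructor <;> simp [Ph.tO, Ph.bO, Ph.stp, St.step] <;> 
        first | assumption | (rw [← e]; assumption) | exact b3.symm
  · apply key .p3
    · intro i; simp [Ctl.next, Ph.tO]
    · intro i; simp [Ctl.next, Ph.bO]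
    · clear key
      obtain ⟨t0, t1, t2, t3, b0, b1, b2, b3, e⟩ := h
      simp only [Ph.tO, Ph.bO, Matrix.cons_val_zero, Matrix.cons_val_one, Matrix.cons_val] at t0 t1 t2 t3 b0 b1 b2 b3 e
      constructor <;> simp [Ph.tO, Ph.bO, Ph.stp, St.step] <;> 
        first | assumption | (rw [← e]; assumption)
  · apply key .p4
    · intro i; simp [Ctl.next, Ph.tO]
    · intro i; simp [Ctl.next, Ph.bO]
    · clear key
      obtain ⟨t0, t1, t2, t3, b0, b1, b2, b3, e⟩ := h
      simp only [Ph.tO, Ph.bO, Matrix.cons_val_zero, Matrix.cons_val_one, Matrix.cons_val] at t0 t1 t2 t3 b0 b1 b2 b3 e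
      constructor <;> simp [Ph.tO, Ph.bO, Ph.stp, St.step] <;> 
        first | assumption | (rw [← e]; assumption)
  · apply key .p4
    · intro i; by_cases hc : cnt ≤ 1 <;> simp [Ctl.next, hc, Ph.tO]
    · intro i; by_cases hc : cnt ≤ 1 <;> simp [Ctl.next, hc, Ph.bO]
    · clear key
      obtain ⟨t0, t1, t2, t3, b0, b1, b2, b3, e⟩ := h
      simp only [Ph.tO, Ph.bO, Matrix.cons_val_zero, Matrix.cons_val_one, Matrix.cons_val] at t0 t1 t2 t3 b0 b1 b2 b3 e
      constructor <;> simp [Ph.tO, Ph.bO, Ph.stp, St.step] <;> 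
        first | assumption | (rw [← e]; assumption) | exact b3.symm | (rw [← e]; exact b3.symm)
  · apply key .p6
    · intro i; simp [Ctl.next, Ph.tO]
    · intro i; simp [Ctl.next, Ph.bO]
    · clear key
      obtain ⟨t0, t1, t2, t3, b0, b1, b2, b3, e⟩ := h
      simp only [Ph.tO, Ph.bO, Matrix.cons_val_zero, Matrix.cons_val_one, Matrix.cons_val] at t0 t1 t2 t3 b0 b1 b2 b3 e
      constructor <;> simp [Ph.tO, Ph.bO, Ph.stp, St.step] <;> 
        first | assumption | (rw [← e]; assumption)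
  · apply key .p7
    · intro i; simp [Ctl.next, Ph.tO]
    · intro i; simp [Ctl.next, Ph.bO]
    · clear key
      obtain ⟨t0, t1, t2, t3, b0, b1, b2, b3, e⟩ := h
      simp only [Ph.tO, Ph.bO, Matrix.cons_val_zero, Matrix.cons_val_one, Matrix.cons_val] at t0 t1 t2 t3 b0 b1 b2 b3 e
      constructor <;> simp [Ph.tO, Ph.bO, Ph.stp, St.step] <;> 
        first | assumption | (rw [← e]; assumption) | exact b3.symm
  · apply key .p0
    · intro i; simp [Ctl.next, Ph.tO]
    · intro i; simp [Ctl.next, Ph.bO]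
    · clear key
      obtain ⟨t0, t1, t2, t3, b0, b1, b2, b3, e⟩ := h
      simp only [Ph.tO, Ph.bO, Matrix.cons_val_zero, Matrix.cons_val_one, Matrix.cons_val] at t0 t1 t2 t3 b0 b1 b2 b3 e
      constructor <;> simp [Ph.tO, Ph.bO, Ph.stp, St.step] <;> 
        first | assumption | (rw [← e]; assumption) | exact b3.symm

theorem run_inv {s : St} (h : Inv .p0 s) (n : ℕ) : Inv (ctl n).ph (run s n) := by
  induction n with
  | zero => exact h
  | succ n ih => exact ih.next

theorem Inv.end_top {φ : Ph} {s : St} (h : Inv φ s) (ht : φ.stp.top = true) :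
    s.r φ.stp.w = s.g φ.stp.l (s.r φ.stp.l) := by
  have := h.e
  cases φ <;> simp [Ph.stp, Ph.tO, Ph.bO] at ht this ⊢ <;> exact this

theorem Inv.end_bot {φ : Ph} {s : St} (h : Inv φ s) (ht : φ.stp.top = false) :
    s.r φ.stp.l = s.g φ.stp.w (s.r φ.stp.w) := by
  have := h.e
  cases φ <;> simp [Ph.stp, Ph.tO, Ph.bO] at ht this ⊢ <;> exact this

/-- bounds on difference quotients -/
def SlB (m M : ℝ) (g : ℝ ≃o ℝ) : Prop :=
  ∀ u v, u ≤ v → m * (v - u) ≤ g v - g u ∧ g v - g u ≤ M * (v - u)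

theorem SlB.trans {m1 M1 m2 M2 : ℝ} {g1 g2 : ℝ ≃o ℝ} (h1 : SlB m1 M1 g1) (h2 : SlB m2 M2 g2)
    (hm : 0 ≤ m2) (hM : 0 ≤ M2) : SlB (m1 * m2) (M1 * M2) (g1.trans g2) := by
  intro u v huv
  have h3 : g1 u ≤ g1 v := g1.monotone huv
  obtain ⟨a, b⟩ := h1 u v huv
  obtain ⟨c, d⟩ := h2 _ _ h3
  simp only [OrderIso.trans_apply]
  constructor
  · calc m1 * m2 * (v - u) = m2 * (m1 * (v - u)) := by ring
      _ ≤ m2 * (g1 v - g1 u) := by gcongr
      _ ≤ _ := c
  · calc g2 (g1 v) - g2 (g1 u) ≤ M2 * (g1 v - g1 u) := d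
      _ ≤ M2 * (M1 * (v - u)) := by gcongr
      _ = _ := by ring

/-- difference quotient -/
noncomputable def sq (g : ℝ ≃o ℝ) (u h : ℝ) : ℝ := (g (u + h) - g u) / h

theorem SlB.sq {m M : ℝ} {g : ℝ ≃o ℝ} (hg : SlB m M g) (u : ℝ) {h : ℝ} (hh : 0 < h) :
    m ≤ sq g u h ∧ sq g u h ≤ M := by
  obtain ⟨a, b⟩ := hg u (u + h) (by linarith)
  rw [add_sub_cancel_left] at a b
  unfold Giem37.sq
  constructor
  · rw [le_div_iff₀ hh]; exact a
  · rw [div_le_iff₀ hh]; exact b

/-- the coefficient of a step -/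
noncomputable def cof (κ : ℝ) (s : St) (σ : Stp) : ℝ :=
  if σ.top then sq (s.g σ.l) (s.p σ.l) (max (s.r σ.l - s.p σ.l) κ)
  else sq (s.g σ.w) ((s.g σ.w).symm (s.p σ.l)) (max (s.r σ.w - (s.g σ.w).symm (s.p σ.l)) κ)

theorem sol {s : St} (hI : Inv .p0 s) {κ : ℝ} (hκ : 0 < κ) {N : ℕ} {a : ℕ → ℝ}
    {z : ℕ → Fin 4 → ℝ} (ha : ∀ n < N, a n = cof κ (run s n) (stp n))
    (h0 : ∀ α, s.r α - s.p α = z 0 α) (hz : ∀ m ≤ N, ∀ α, κ < z m α)
    (hstep : ∀ m < N, z m = zs (stp m) (a m) (z (m + 1))) :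
    ∀ m ≤ N, ∀ α, (run s m).r α - (run s m).p α = z m α := by
  intro m
  induction m with
  | zero => intro _; exact h0
  | succ m ih =>
    intro hm α
    have ih := ih (by omega)
    have hI' := run_inv hI m
    have hst := hstep m (by omega)
    have ham := ha m (by omega)
    have hz' := hz (m + 1) hm
    have hzm := hz m (by omega)
    have hwl : (stp m).w ≠ (stp m).l := zs_w_ne_l _
    obtain ⟨t, ht⟩ : ∃ t, t = run s m := ⟨_, rfl⟩
    obtain ⟨σ, hσ⟩ : ∃ σ, σ = stp m := ⟨_, rfl⟩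
    have hrun : run s (m + 1) = t.step σ := by rw [ht, hσ]; rfl
    rw [hrun]
    rw [← ht] at ih ham
    rw [← hσ] at hst ham hwl
    by_cases htop : σ.top = true
    · have hend : t.r σ.w = t.g σ.l (t.r σ.l) := by
        rw [ht, hσ]; rw [hσ] at htop; exact hI'.end_top htop
      simp only [St.step, htop, if_true]
      simp only [cof, htop, if_true] at ham
      simp only [zs, htop, if_true] at hst
      have hl : z m σ.l = z (m + 1) σ.l := by
        rw [hst, update_of_ne hwl.symm]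
      have hw : z m σ.w = z (m + 1) σ.w + a m * z (m + 1) σ.l := by
        rw [hst, update_self]
      have hxl := ih σ.l
      have hxw := ih σ.w
      have hmax : max (t.r σ.l - t.p σ.l) κ = t.r σ.l - t.p σ.l :=
        max_eq_left (by rw [hxl]; exact (hzm σ.l).le)
      have hpos : 0 < t.r σ.l - t.p σ.l := by rw [hxl]; exact hκ.trans (hzm σ.l)
      rw [hmax] at ham
      have ha' : a m * (t.r σ.l - t.p σ.l) = t.g σ.l (t.r σ.l) - t.g σ.l (t.p σ.l) := by
        rw [ham, sq, add_sub_cancel, div_mul_cancel₀ _ hpos.ne']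
      by_cases hα : α = σ.w
      · rw [hα, update_self]
        rw [hxl, hl] at ha'
        linarith
      · rw [update_of_ne hα, ih α, hst, update_of_ne hα]
    · have htop' : σ.top = false := by simpa using htop
      have hend : t.r σ.l = t.g σ.w (t.r σ.w) := by
        rw [ht, hσ]; rw [hσ] at htop'; exact hI'.end_bot htop'
      simp only [St.step, htop', Bool.false_eq_true, if_false]
      simp only [cof, htop', Bool.false_eq_true, if_false] at ham
      simp only [zs, htop', Bool.false_eq_true, if_false] at hst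
      have hl : z m σ.l = a m * z (m + 1) σ.l := by
        rw [hst, update_self]
      have hw : z m σ.w = z (m + 1) σ.w + z (m + 1) σ.l := by
        rw [hst, update_of_ne hwl, update_self]
      obtain ⟨τ, hτ⟩ : ∃ τ, τ = (t.g σ.w).symm (t.p σ.l) := ⟨_, rfl⟩
      rw [← hτ] at ham ⊢
      have hgτ : t.g σ.w τ = t.p σ.l := by rw [hτ, OrderIso.apply_symm_apply]
      have hxl := ih σ.l
      have hxw := ih σ.w
      have hdiff : t.g σ.w (t.r σ.w) - t.g σ.w τ = z m σ.l := by rw [← hend, hgτ, hxl]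
      have hzlpos : 0 < z m σ.l := hκ.trans (hzm σ.l)
      have hz'l : 0 < z (m + 1) σ.l := hκ.trans (hz' σ.l)
      have hapos : 0 < a m := by
        rw [hl] at hzlpos
        exact pos_of_mul_pos_left hzlpos hz'l.le
      have hX : t.r σ.w - τ = z (m + 1) σ.l := by
        rcases le_or_gt κ (t.r σ.w - τ) with hc | hc
        · rw [max_eq_left hc] at ham
          have hpos : 0 < t.r σ.w - τ := lt_of_lt_of_le hκ hc
          have h1 : a m * (t.r σ.w - τ) = z m σ.l := by
            rw [ham, sq, add_sub_cancel, div_mul_cancel₀ _ hpos.ne', hdiff]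
          rw [hl] at h1
          exact mul_left_cancel₀ hapos.ne' h1
        · exfalso
          rw [max_eq_right hc.le] at ham
          have h1 : a m * κ = t.g σ.w (τ + κ) - t.g σ.w τ := by
            rw [ham, sq, div_mul_cancel₀ _ hκ.ne']
          have h2 : t.g σ.w (t.r σ.w) < t.g σ.w (τ + κ) :=
            (t.g σ.w).strictMono (by linarith)
          have h3 : a m * z (m + 1) σ.l < a m * κ := by
            rw [h1, ← hl, ← hdiff]; linarith
          have h4 := lt_of_mul_lt_mul_left h3 hapos.le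
          linarith [hz' σ.l]
      by_cases hα : α = σ.w
      · rw [hα, update_self, update_of_ne hwl]
        linarith
      · rw [update_of_ne hα]
        by_cases hβ : α = σ.l
        · rw [hβ, update_self, update_self]; exact hX
        · rw [update_of_ne hβ, update_of_ne hβ, ih α, hst, update_of_ne hβ, update_of_ne hα]

end Pool.Agent.Giem37
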