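import Mathlib

/-! General position: a map of a compact planar set can be pushed off a closed set which is
locally contained in a flat set of codimension at least three. -/

set_option autoImplicit false

namespace Pool.Agent.Giem37

open Metric Set Topology Filter

/-- continuous maps from `K` to `ℝ^k` can be approximated by nowhere vanishing ones -/
def Appr (k : ℕ) (K : Type) [TopologicalSpace K] : Prop :=
  ∀ (g : C(K, EuclideanSpace ℝ (Fin k))) (δ : ℝ), 0 < δ →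
    ∃ g' : C(K, EuclideanSpace ℝ (Fin k)), (∀ x, ‖g' x - g x‖ < δ) ∧ ∀ x, g' x ≠ 0

theorem smooth_approx {K : Set (ℝ × ℝ)} (hK : IsCompact K) (g : C(K, ℝ)) {δ : ℝ} (hδ : 0 < δ) :
    ∃ F : ℝ × ℝ → ℝ, ContDiff ℝ 1 F ∧ ∀ x : K, |F x - g x| < δ := by
  have : CompactSpace K := isCompact_iff_compactSpace.mp hK
  let A : Subalgebra ℝ C(K, ℝ) :=
    { carrier := {f | ∃ F : ℝ × ℝ → ℝ, ContDiff ℝ 1 F ∧ ∀ x : K, f x = F x}
      mul_mem' := by
        rintro f f' ⟨F, hF, h⟩ ⟨F', hF', h'⟩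
        exact ⟨fun x => F x * F' x, hF.mul hF', fun x => by simp [h, h']⟩
      add_mem' := by
        rintro f f' ⟨F, hF, h⟩ ⟨F', hF', h'⟩
        exact ⟨fun x => F x + F' x, hF.add hF', fun x => by simp [h, h']⟩
      algebraMap_mem' := by
        intro r
        exact ⟨fun _ => r, contDiff_const, fun x => by simp⟩ }
  have hA : A.SeparatesPoints := by
    intro x y hxy
    have : (x : ℝ × ℝ) ≠ y := fun h => hxy (Subtype.ext h)
    rw [Ne, Prod.ext_iff, not_and_or] at this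
    rcases this with h | h
    · exact ⟨fun z : K => (z : ℝ × ℝ).1, ⟨⟨fun z : K => (z : ℝ × ℝ).1, by fun_prop⟩,
        ⟨Prod.fst, contDiff_fst, fun x => rfl⟩, rfl⟩, h⟩
    · exact ⟨fun z : K => (z : ℝ × ℝ).2, ⟨⟨fun z : K => (z : ℝ × ℝ).2, by fun_prop⟩,
        ⟨Prod.snd, contDiff_snd, fun x => rfl⟩, rfl⟩, h⟩
  obtain ⟨⟨f, F, hF, hfF⟩, hf⟩ :=
    ContinuousMap.exists_mem_subalgebra_near_continuousMap_of_separatesPoints A hA g δ hδ
  refine ⟨F, hF, fun x => ?_⟩
  have := (f - g).norm_coe_le_norm x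
  rw [← hfF x]
  calc |f x - g x| = ‖(f - g) x‖ := by simp [Real.norm_eq_abs]
    _ ≤ ‖f - g‖ := this
    _ < δ := hf

theorem appr_planar {K : Set (ℝ × ℝ)} (hK : IsCompact K) {k : ℕ} (hk : 3 ≤ k) :
    Appr k K := by
  intro g δ hδ
  have hc : ∀ i, ∃ F : ℝ × ℝ → ℝ, ContDiff ℝ 1 F ∧ ∀ x : K, |F x - g x i| < δ / (2 * k) := by
    intro i
    exact smooth_approx hK ⟨fun x => g x i, by fun_prop⟩ (by positivity)
  choose F hF hFg using hc
  let G : ℝ × ℝ → EuclideanSpace ℝ (Fin k) := fun z => WithLp.toLp 2 (fun i => F i z)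
  have hG : ContDiff ℝ 1 G := by
    rw [contDiff_euclidean]
    exact fun i => hF i
  have hd : Dense (range G)ᶜ := by
    apply hG.dense_compl_range_of_finrank_lt_finrank
    rw [finrank_euclideanSpace_fin, Module.finrank_prod]
    simp; omega
  obtain ⟨v, hv, hvd⟩ := hd.exists_dist_lt 0 (half_pos hδ)
  rw [dist_zero_left] at hvd
  have hGc : Continuous G := hG.continuous
  refine ⟨⟨fun x => G x - v, by fun_prop⟩, fun x => ?_, fun x h => ?_⟩
  · have h1 : ‖G x - g x‖ ≤ δ / 2 := by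
      have h2 : ‖G x - g x‖ ≤ ∑ i, |F i x - g x i| := by
        rw [EuclideanSpace.norm_eq]
        have h3 : ∀ i, ‖(G x - g x) i‖ = |F i x - g x i| := fun i => rfl
        simp only [h3]
        have h4 : ∑ i, |F i x - g x i| ^ 2 ≤ (∑ i, |F i x - g x i|) ^ 2 :=
          Finset.sum_sq_le_sq_sum_of_nonneg (fun i _ => abs_nonneg _)
        calc Real.sqrt (∑ i, |F i x - g x i| ^ 2) ≤ Real.sqrt ((∑ i, |F i x - g x i|) ^ 2) :=
              Real.sqrt_le_sqrt h4
          _ = ∑ i, |F i x - g x i| := Real.sqrt_sq (Finset.sum_nonneg (fun i _ => abs_nonneg _))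
      refine h2.trans ?_
      calc ∑ i, |F i x - g x i| ≤ ∑ _i : Fin k, δ / (2 * k) :=
            Finset.sum_le_sum (fun i _ => (hFg i x).le)
        _ = δ / 2 := by
            rw [Finset.sum_const, Finset.card_univ, Fintype.card_fin, nsmul_eq_mul]
            have : (k:ℝ) ≠ 0 := by positivity
            field_simp
    calc ‖(G x - v) - g x‖ = ‖(G x - g x) - v‖ := by congr 1; abel
      _ ≤ ‖G x - g x‖ + ‖v‖ := norm_sub_le _ _
      _ < δ := by linarith
  · exact hv ⟨x, sub_eq_zero.mp h⟩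

theorem one_chart {K : Type} [MetricSpace K] [CompactSpace K] {k : ℕ} (hK : Appr k K)
    {X : Type} [TopologicalSpace X] {E : Type} [NormedAddCommGroup E] [NormedSpace ℝ E]
    (φ : OpenPartialHomeomorph X (E × EuclideanSpace ℝ (Fin k)))
    (F : C(K, X)) {K1 N C : Set K} (hK1 : IsClosed K1) (hN : IsOpen N) (hC : IsClosed C)
    (hCN : C ⊆ N) (hNK : N ⊆ K1) (hF1 : ∀ x ∈ K1, F x ∈ φ.source)
    {O : Set (K × X)} (hO : IsOpen O) (hFO : ∀ x, (x, F x) ∈ O) :
    ∃ F' : C(K, X), (∀ x, (x, F' x) ∈ O) ∧ ∀ x ∈ C, F' x ∈ φ.source ∧ (φ (F' x)).2 ≠ 0 := by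
  classical
  have hK1c : CompactSpace K1 := isCompact_iff_compactSpace.mp hK1.isCompact
  -- the chart expression on `K1`
  have hu : Continuous fun x : K1 => φ (F x) := by
    have h1 : Continuous fun x : K1 => F x := F.continuous.comp continuous_subtype_val
    exact φ.continuousOn.comp_continuous h1 (fun x => hF1 x x.2)
  obtain ⟨g, hg⟩ := ContinuousMap.exists_restrict_eq hK1
    (⟨fun x : K1 => (φ (F x)).2, continuous_snd.comp hu⟩ : C(K1, EuclideanSpace ℝ (Fin k)))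
  have hg' : ∀ x ∈ K1, g x = (φ (F x)).2 := by
    intro x hx
    have := DFunLike.congr_fun hg ⟨x, hx⟩
    simpa using this
  -- smallness
  obtain ⟨Θ, hΘ⟩ : ∃ Θ : EuclideanSpace ℝ (Fin k) × K1 → E × EuclideanSpace ℝ (Fin k),
    Θ = fun p => ((φ (F p.2)).1, (φ (F p.2)).2 + p.1) := ⟨_, rfl⟩
  have hΘc : Continuous Θ := by
    rw [hΘ]
    have h1 : Continuous fun p : EuclideanSpace ℝ (Fin k) × K1 => φ (F p.2) :=
      hu.comp continuous_snd
    exact (continuous_fst.comp h1).prodMk ((continuous_snd.comp h1).add continuous_fst)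
  have hsmall : ∀ᶠ v in 𝓝 (0 : EuclideanSpace ℝ (Fin k)), ∀ x ∈ (univ : Set K1),
      Θ (v, x) ∈ φ.target ∧ ((x : K), φ.symm (Θ (v, x))) ∈ O := by
    apply IsCompact.eventually_forall_of_forall_eventually isCompact_univ
    intro x _
    have h0 : Θ (0, x) = φ (F x) := by rw [hΘ]; simp
    have ht : Θ (0, x) ∈ φ.target := by rw [h0]; exact φ.map_source (hF1 x x.2)
    have h1 : ∀ᶠ z in 𝓝 ((0 : EuclideanSpace ℝ (Fin k)), x), Θ z ∈ φ.target :=
      hΘc.continuousAt.eventually (φ.open_target.mem_nhds ht)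
    have h2 : ContinuousAt (fun z => φ.symm (Θ z)) ((0 : EuclideanSpace ℝ (Fin k)), x) :=
      ContinuousAt.comp (φ.continuousOn_symm.continuousAt (φ.open_target.mem_nhds ht))
        hΘc.continuousAt
    have h3 : ContinuousAt (fun z : EuclideanSpace ℝ (Fin k) × K1 =>
        ((z.2 : K), φ.symm (Θ z))) ((0 : EuclideanSpace ℝ (Fin k)), x) :=
      (continuous_subtype_val.comp continuous_snd).continuousAt.prodMk h2
    have h4 : ((x : K), φ.symm (Θ (0, x))) ∈ O := by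
      rw [h0, φ.left_inv (hF1 x x.2)]; exact hFO x
    have h5 := h3.eventually (hO.mem_nhds h4)
    filter_upwards [h1, h5] with z hz1 hz2 using ⟨hz1, hz2⟩
  obtain ⟨δ, hδ, hball⟩ := Metric.eventually_nhds_iff.mp hsmall
  obtain ⟨g', hg'1, hg'2⟩ := hK g δ hδ
  obtain ⟨χ, hχ0, hχ1, hχ⟩ := exists_continuous_zero_one_of_isClosed
    (isClosed_compl_iff.mpr hN) hC (disjoint_left.mpr (fun x hx hx' => hx (hCN hx')))
  obtain ⟨w, hw⟩ : ∃ w : K → EuclideanSpace ℝ (Fin k), w = fun x => χ x • (g' x - g x) :=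
    ⟨_, rfl⟩
  have hwc : Continuous w := by rw [hw]; fun_prop
  have hwn : ∀ x, ‖w x‖ < δ := by
    intro x
    rw [hw]; simp only
    rw [norm_smul, Real.norm_eq_abs, abs_of_nonneg (hχ x).1]
    calc χ x * ‖g' x - g x‖ ≤ 1 * ‖g' x - g x‖ := by
          gcongr; exact (hχ x).2
      _ < δ := by rw [one_mul]; exact hg'1 x
  have hgood : ∀ x (hx : x ∈ K1), Θ (w x, ⟨x, hx⟩) ∈ φ.target ∧
      (x, φ.symm (Θ (w x, ⟨x, hx⟩))) ∈ O := by
    intro x hx
    exact hball (by rw [dist_zero_right]; exact hwn x) ⟨x, hx⟩ (mem_univ _)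
  obtain ⟨f, hf⟩ : ∃ f : K → X, f = fun x =>
    if h : x ∈ K1 then φ.symm (Θ (w x, ⟨x, h⟩)) else F x := ⟨_, rfl⟩
  have hfout : ∀ x ∈ Nᶜ, f x = F x := by
    intro x hx
    rw [hf]; simp only
    by_cases h : x ∈ K1
    · rw [dif_pos h]
      have h1 : w x = 0 := by
        rw [hw]; simp only
        rw [hχ0 hx]; simp
      have h2 : Θ (w x, ⟨x, h⟩) = φ (F x) := by rw [h1, hΘ]; simp
      rw [h2, φ.left_inv (hF1 x h)]
    · rw [dif_neg h]
  have hfin : ∀ x (h : x ∈ K1), f x = φ.symm (Θ (w x, ⟨x, h⟩)) := by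
    intro x h; rw [hf]; simp only; rw [dif_pos h]
  have hfc : Continuous f := by
    have hcov : K1 ∪ Nᶜ = univ := by
      ext x; simp only [mem_union, mem_compl_iff, mem_univ, iff_true]
      by_cases h : x ∈ N
      · exact Or.inl (hNK h)
      · exact Or.inr h
    rw [← continuousOn_univ, ← hcov]
    apply ContinuousOn.union_of_isClosed _ _ hK1 (isClosed_compl_iff.mpr hN)
    · rw [continuousOn_iff_continuous_domRestrict]
      have h1 : K1.domRestrict f = fun x : K1 => φ.symm (Θ (w x, x)) := by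
        ext x; exact hfin x x.2
      rw [h1]
      have h2 : Continuous fun x : K1 => Θ (w x, x) :=
        hΘc.comp ((hwc.comp continuous_subtype_val).prodMk continuous_id)
      exact φ.continuousOn_symm.comp_continuous h2 (fun x => (hgood x x.2).1)
    · exact F.continuous.continuousOn.congr hfout
  refine ⟨⟨f, hfc⟩, fun x => ?_, fun x hx => ?_⟩
  · change (x, f x) ∈ O
    by_cases h : x ∈ K1
    · rw [hfin x h]; exact (hgood x h).2
    · rw [hfout x (fun h' => h (hNK h'))]; exact hFO x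
  · change f x ∈ φ.source ∧ (φ (f x)).2 ≠ 0
    have h := hNK (hCN hx)
    rw [hfin x h]
    refine ⟨φ.map_target (hgood x h).1, ?_⟩
    rw [φ.right_inv (hgood x h).1, hΘ]
    simp only
    rw [hw]; simp only
    rw [hχ1 hx, Pi.one_apply, one_smul, hg' x h]
    simpa using hg'2 x

/-- local flatness of `P` (inside a set of codimension `k`) -/
def LocFlat (k : ℕ) {X : Type} [TopologicalSpace X] (P : Set X) : Prop :=
  ∀ T ∈ P, ∃ (E : Type) (_ : NormedAddCommGroup E) (_ : NormedSpace ℝ E)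
    (φ : OpenPartialHomeomorph X (E × EuclideanSpace ℝ (Fin k))),
    T ∈ φ.source ∧ ∀ T' ∈ P, T' ∈ φ.source → (φ T').2 = 0

theorem avoid {K : Type} [MetricSpace K] [CompactSpace K] {k : ℕ} (hK : Appr k K)
    {X : Type} [TopologicalSpace X] {P : Set X} (hP : IsClosed P) (hPf : LocFlat k P)
    (F : C(K, X)) {O : Set (K × X)} (hO : IsOpen O) (hFO : ∀ x, (x, F x) ∈ O) :
    ∃ F' : C(K, X), (∀ x, (x, F' x) ∈ O) ∧ ∀ x, F' x ∉ P := by
  classical
  -- local data
  have hloc : ∀ x : K, ∃ (C N K1 : Set K), IsClosed C ∧ IsOpen N ∧ IsClosed K1 ∧ C ⊆ N ∧ N ⊆ K1 ∧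
      C ∈ 𝓝 x ∧ ((∀ y ∈ K1, F y ∉ P) ∨
      ∃ (E : Type) (_ : NormedAddCommGroup E) (_ : NormedSpace ℝ E)
        (φ : OpenPartialHomeomorph X (E × EuclideanSpace ℝ (Fin k))),
        (∀ y ∈ K1, F y ∈ φ.source) ∧ ∀ T' ∈ P, T' ∈ φ.source → (φ T').2 = 0) := by
    intro x
    have key : ∀ V : Set X, IsOpen V → F x ∈ V → ∃ (C N K1 : Set K), IsClosed C ∧ IsOpen N ∧
        IsClosed K1 ∧ C ⊆ N ∧ N ⊆ K1 ∧ C ∈ 𝓝 x ∧ ∀ y ∈ K1, F y ∈ V := by
      intro V hV hx
      obtain ⟨ε, hε, hb⟩ := Metric.isOpen_iff.mp (hV.preimage F.continuous) x hx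
      refine ⟨closedBall x (ε/4), ball x (ε/3), closedBall x (ε/2), isClosed_closedBall,
        isOpen_ball, isClosed_closedBall, closedBall_subset_ball (by linarith),
        ball_subset_closedBall.trans (closedBall_subset_closedBall (by linarith)),
        closedBall_mem_nhds x (by linarith), fun y hy => ?_⟩
      exact hb (closedBall_subset_ball (by linarith) hy)
    by_cases hx : F x ∈ P
    · obtain ⟨E, i1, i2, φ, h1, h2⟩ := hPf _ hx
      obtain ⟨C, N, K1, a1, a2, a3, a4, a5, a6, a7⟩ := key φ.source φ.open_source h1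
      exact ⟨C, N, K1, a1, a2, a3, a4, a5, a6, Or.inr ⟨E, i1, i2, φ, a7, h2⟩⟩
    · obtain ⟨C, N, K1, a1, a2, a3, a4, a5, a6, a7⟩ := key Pᶜ hP.isOpen_compl hx
      exact ⟨C, N, K1, a1, a2, a3, a4, a5, a6, Or.inl a7⟩
  choose C N K1 hC hN hK1 hCN hNK hCx hcase using hloc
  -- finite cover
  obtain ⟨s, hs⟩ : ∃ s : Finset K, (⋃ x ∈ s, C x) = univ := by
    obtain ⟨s, -, hs⟩ := isCompact_univ.elim_nhds_subcover C (fun x _ => hCx x)
    exact ⟨s, eq_univ_of_univ_subset hs⟩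
  -- the open sets keeping `F'` in the right region near `x`
  have hopen : ∀ (A : Set K) (V : Set X), IsClosed A → IsOpen V →
      IsOpen {p : K × X | p.1 ∈ A → p.2 ∈ V} := by
    intro A V hA hV
    have : {p : K × X | p.1 ∈ A → p.2 ∈ V} = (Prod.fst ⁻¹' Aᶜ) ∪ (Prod.snd ⁻¹' V) := by
      ext p; simp only [mem_ofPred_eq, mem_union, mem_preimage, mem_compl_iff]; tauto
    rw [this]
    exact (hA.isOpen_compl.preimage continuous_fst).union (hV.preimage continuous_snd)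
  have main : ∀ (t : Finset K) (O : Set (K × X)), IsOpen O → (∀ x, (x, F x) ∈ O) →
      ∃ F' : C(K, X), (∀ x, (x, F' x) ∈ O) ∧ ∀ x ∈ t, ∀ y ∈ C x, F' y ∉ P := by
    intro t
    induction t using Finset.induction_on with
    | empty => intro O hO hFO; exact ⟨F, hFO, by simp⟩
    | insert a t ha ih =>
      intro O hO hFO
      rcases hcase a with h | ⟨E, i1, i2, φ, h1, h2⟩
      · obtain ⟨F1, hF1, hF1'⟩ := ih (O ∩ {p | p.1 ∈ K1 a → p.2 ∈ Pᶜ})
          (hO.inter (hopen _ _ (hK1 a) hP.isOpen_compl)) (fun x => ⟨hFO x, fun hx => h x hx⟩)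
        refine ⟨F1, fun x => (hF1 x).1, fun x hx y hy => ?_⟩
        rcases Finset.mem_insert.mp hx with rfl | hx
        · exact (hF1 y).2 (hNK _ (hCN _ hy))
        · exact hF1' x hx y hy
      · obtain ⟨F1, hF1, hF1'⟩ := ih (O ∩ {p | p.1 ∈ K1 a → p.2 ∈ φ.source})
          (hO.inter (hopen _ _ (hK1 a) φ.open_source)) (fun x => ⟨hFO x, fun hx => h1 x hx⟩)
        have hA : IsClosed (⋃ x ∈ t, C x) := isClosed_biUnion_finset (fun x _ => hC x)
        obtain ⟨F2, hF2, hF2'⟩ := one_chart hK φ F1 (hK1 a) (hN a) (hC a) (hCN a) (hNK a)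
          (fun x hx => (hF1 x).2 hx)
          (O := O ∩ {p | p.1 ∈ (⋃ x ∈ t, C x) → p.2 ∈ Pᶜ})
          (hO.inter (hopen _ _ hA hP.isOpen_compl))
          (fun x => ⟨(hF1 x).1, fun hx => by
            obtain ⟨z, hz, hxz⟩ := mem_iUnion₂.mp hx
            exact hF1' z hz x hxz⟩)
        refine ⟨F2, fun x => (hF2 x).1, fun x hx y hy => ?_⟩
        rcases Finset.mem_insert.mp hx with rfl | hx
        · intro hyP
          exact (hF2' y hy).2 (h2 _ hyP (hF2' y hy).1)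
        · exact (hF2 y).2 (mem_iUnion₂.mpr ⟨x, hx, hy⟩)
  obtain ⟨F', hF', hF''⟩ := main s O hO hFO
  refine ⟨F', hF', fun y => ?_⟩
  have hy : y ∈ ⋃ x ∈ s, C x := by rw [hs]; exact mem_univ y
  obtain ⟨x, hx, hyx⟩ := mem_iUnion₂.mp hy
  exact hF'' x hx y hyx

end Pool.Agent.Giem37
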