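import Pool.Agent.Lib_helper37.Giem.Core
import Pool.Agent.Lib_helper37.Giem.Diffeo
import Pool.Agent.Lib_helper37.Giem.GenPos

/-! The state of a generalized interval exchange map, and the two-parameter family of affine
interval exchange maps. -/

set_option autoImplicit false

namespace Pool.Agent.Giem37

open Function Set Topology Filter

/-- The combinatorial data: top row `A B C D`, bottom row `D B A C`. -/
def pi0 : Comb 4 where
  top := Equiv.refl _
  bot :=
    { toFun := ![2, 1, 3, 0]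
      invFun := ![3, 1, 0, 2]
      left_inv := by intro x; fin_cases x <;> rfl
      right_inv := by intro x; fin_cases x <;> rfl }

theorem pi0_irreducible : pi0.Irreducible := by
  intro k hk hk4 h
  have h1 : (3 : Fin 4) ∈ {α | (pi0.top α : ℕ) < k} := by
    rw [h]
    show (pi0.bot 3 : ℕ) < k
    have : (pi0.bot 3 : ℕ) = 0 := rfl
    omega
  have h2 : (pi0.top 3 : ℕ) < k := h1
  have : (pi0.top 3 : ℕ) = 3 := rfl
  omega

variable {r : ℕ}

theorem tl_lt_tr (T : GIEM 4 r) (α : Fin 4) : tl pi0 T α < tr pi0 T α :=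
  T.1.mono (Fin.castSucc_lt_succ)

theorem bl_lt_br (T : GIEM 4 r) (α : Fin 4) : bl pi0 T α < br pi0 T α :=
  T.2.1.mono (Fin.castSucc_lt_succ)

theorem branch_strictMono (hr : 1 ≤ r) (T : GIEM 4 r) (α : Fin 4) :
    StrictMono (branch pi0 T α) := by
  intro x y hxy
  unfold branch
  have h1 := tl_lt_tr T α
  have h2 := bl_lt_br T α
  have h3 : (x - tl pi0 T α) / (tr pi0 T α - tl pi0 T α) <
      (y - tl pi0 T α) / (tr pi0 T α - tl pi0 T α) := by
    apply div_lt_div_of_pos_right _ (by linarith)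
    linarith
  have h4 := (T.2.2 α).strictMono hr h3
  have h5 : 0 < br pi0 T α - bl pi0 T α := by linarith
  nlinarith

theorem branch_surjective (T : GIEM 4 r) (α : Fin 4) :
    Surjective (branch pi0 T α) := by
  intro y
  have h1 := tl_lt_tr T α
  have h2 := bl_lt_br T α
  obtain ⟨z, hz⟩ := (T.2.2 α).surjective ((y - bl pi0 T α) / (br pi0 T α - bl pi0 T α))
  refine ⟨tl pi0 T α + (tr pi0 T α - tl pi0 T α) * z, ?_⟩
  unfold branch
  have h3 : tr pi0 T α - tl pi0 T α ≠ 0 := by linarith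
  have h4 : br pi0 T α - bl pi0 T α ≠ 0 := by linarith
  have h5 : (tl pi0 T α + (tr pi0 T α - tl pi0 T α) * z - tl pi0 T α) /
      (tr pi0 T α - tl pi0 T α) = z := by
    field_simp; ring
  rw [h5, hz]
  field_simp; ring

/-- the branches as order isomorphisms of the line -/
noncomputable def bIso (hr : 1 ≤ r) (T : GIEM 4 r) (α : Fin 4) : ℝ ≃o ℝ :=
  (branch_strictMono hr T α).orderIsoOfSurjective _ (branch_surjective T α)

theorem bIso_apply (hr : 1 ≤ r) (T : GIEM 4 r) (α : Fin 4) (x : ℝ) :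
    bIso hr T α x = branch pi0 T α x := rfl

theorem branch_tl (T : GIEM 4 r) (α : Fin 4) : branch pi0 T α (tl pi0 T α) = bl pi0 T α := by
  unfold branch
  rw [sub_self, zero_div, (T.2.2 α).map_zero]; ring

theorem branch_tr (T : GIEM 4 r) (α : Fin 4) : branch pi0 T α (tr pi0 T α) = br pi0 T α := by
  unfold branch
  have h1 := tl_lt_tr T α
  rw [div_self (by linarith), (T.2.2 α).map_one]; ring

/-- the initial state -/
noncomputable def st0 (hr : 1 ≤ r) (T : GIEM 4 r) : St := ⟨tl pi0 T, tr pi0 T, bIso hr T⟩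

theorem st0_inv (hr : 1 ≤ r) (T : GIEM 4 r) : Inv .p0 (st0 hr T) := by
  constructor
  · exact T.1.zero
  · rfl
  · rfl
  · rfl
  · show branch pi0 T 3 (tl pi0 T 3) = 0
    rw [branch_tl]; exact T.2.1.zero
  · show branch pi0 T 3 (tr pi0 T 3) = branch pi0 T 1 (tl pi0 T 1)
    rw [branch_tl, branch_tr]; rfl
  · show branch pi0 T 1 (tr pi0 T 1) = branch pi0 T 0 (tl pi0 T 0)
    rw [branch_tl, branch_tr]; rfl
  · show branch pi0 T 0 (tr pi0 T 0) = branch pi0 T 2 (tl pi0 T 2)
    rw [branch_tl, branch_tr]; rfl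
  · show tr pi0 T 3 = branch pi0 T 2 (tr pi0 T 2)
    rw [branch_tr]
    have h1 : tr pi0 T 3 = 1 := T.1.last
    have h2 : br pi0 T 2 = 1 := T.2.1.last
    rw [h1, h2]

theorem st0_x_pos (hr : 1 ≤ r) (T : GIEM 4 r) (α : Fin 4) : 0 < (st0 hr T).x α := by
  unfold St.x
  have := tl_lt_tr T α
  show 0 < tr pi0 T α - tl pi0 T α
  linarith

theorem st0_end (hr : 1 ≤ r) (T : GIEM 4 r) : (st0 hr T).r 3 = 1 := T.1.last

theorem st0_sum (hr : 1 ≤ r) (T : GIEM 4 r) : ∑ α, (st0 hr T).x α = 1 := by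
  have h := st0_inv hr T
  obtain ⟨t0, t1, t2, t3, -⟩ := h
  simp only [Ph.tO, Matrix.cons_val_zero, Matrix.cons_val_one, Matrix.cons_val] at t0 t1 t2 t3
  have := st0_end hr T
  simp only [Fin.sum_univ_four, St.x]
  linarith

theorem continuous_pt {d : ℕ} (i : Fin (d + 1)) : Continuous fun P : Part d => P.pt i :=
  (continuous_apply i).comp continuous_induced_dom

theorem continuous_tl (α : Fin 4) : Continuous fun T : GIEM 4 r => tl pi0 T α :=
  (continuous_pt _).comp continuous_fst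
theorem continuous_tr (α : Fin 4) : Continuous fun T : GIEM 4 r => tr pi0 T α :=
  (continuous_pt _).comp continuous_fst
theorem continuous_bl (α : Fin 4) : Continuous fun T : GIEM 4 r => bl pi0 T α :=
  (continuous_pt _).comp (continuous_fst.comp continuous_snd)
theorem continuous_br (α : Fin 4) : Continuous fun T : GIEM 4 r => br pi0 T α :=
  (continuous_pt _).comp (continuous_fst.comp continuous_snd)

theorem continuous_branch (α : Fin 4) :
    Continuous fun q : GIEM 4 r × ℝ => branch pi0 q.1 α q.2 := by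
  unfold branch
  have h1 : Continuous fun q : GIEM 4 r × ℝ => tl pi0 q.1 α := (continuous_tl α).comp continuous_fst
  have h2 : Continuous fun q : GIEM 4 r × ℝ => tr pi0 q.1 α := (continuous_tr α).comp continuous_fst
  have h3 : Continuous fun q : GIEM 4 r × ℝ => bl pi0 q.1 α := (continuous_bl α).comp continuous_fst
  have h4 : Continuous fun q : GIEM 4 r × ℝ => br pi0 q.1 α := (continuous_br α).comp continuous_fst
  have h5 : Continuous fun q : GIEM 4 r × ℝ => q.1.2.2 α :=
    (continuous_apply α).comp (continuous_snd.comp (continuous_snd.comp continuous_fst))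
  have h6 : Continuous fun q : GIEM 4 r × ℝ =>
      (q.2 - tl pi0 q.1 α) / (tr pi0 q.1 α - tl pi0 q.1 α) :=
    (continuous_snd.sub h1).div (h2.sub h1) (fun q => by have := tl_lt_tr q.1 α; linarith)
  exact h3.add ((h4.sub h3).mul (UnitDiffeo.continuous_eval.comp (h5.prodMk h6)))

theorem st0_CSt (hr : 1 ≤ r) : CSt (st0 hr : GIEM 4 r → St) :=
  ⟨continuous_tl, continuous_tr, continuous_branch⟩

theorem CSt.comp {Y Z : Type} [TopologicalSpace Y] [TopologicalSpace Z] {s : Y → St} (h : CSt s)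
    {f : Z → Y} (hf : Continuous f) : CSt fun z => s (f z) :=
  ⟨fun α => (h.p α).comp hf, fun α => (h.r α).comp hf,
    fun α => (h.g α).comp ((hf.comp continuous_fst).prodMk continuous_snd)⟩

/-- the ratio of the lengths of the bottom and top intervals -/
noncomputable def ratio (T : GIEM 4 r) (α : Fin 4) : ℝ :=
  (br pi0 T α - bl pi0 T α) / (tr pi0 T α - tl pi0 T α)

theorem branch_SlB (hr : 1 ≤ r) (T : GIEM 4 r) (α : Fin 4) {c C : ℝ} (hc1 : c ≤ 1) (hC1 : 1 ≤ C)
    (hc : ∀ x ∈ Icc (0:ℝ) 1, c ≤ derivWithin (T.2.2 α).fn (Icc 0 1) x)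
    (hC : ∀ x ∈ Icc (0:ℝ) 1, derivWithin (T.2.2 α).fn (Icc 0 1) x ≤ C) :
    SlB (ratio T α * c) (ratio T α * C) (bIso hr T α) := by
  intro u v huv
  rw [bIso_apply, bIso_apply]
  unfold branch ratio
  have h1 := tl_lt_tr T α
  have h2 := bl_lt_br T α
  have h3 : 0 < tr pi0 T α - tl pi0 T α := by linarith
  have h4 : 0 < br pi0 T α - bl pi0 T α := by linarith
  have h5 : (u - tl pi0 T α) / (tr pi0 T α - tl pi0 T α) ≤
      (v - tl pi0 T α) / (tr pi0 T α - tl pi0 T α) := by
    apply div_le_div_of_nonneg_right _ h3.le; linarith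
  have h6 := (T.2.2 α).lower hr hc1 hc h5
  have h7 := (T.2.2 α).upper hr hC1 hC h5
  have h8 : (v - tl pi0 T α) / (tr pi0 T α - tl pi0 T α) -
      (u - tl pi0 T α) / (tr pi0 T α - tl pi0 T α) = (v - u) / (tr pi0 T α - tl pi0 T α) := by
    field_simp; ring
  rw [h8] at h6 h7
  constructor
  · calc (br pi0 T α - bl pi0 T α) / (tr pi0 T α - tl pi0 T α) * c * (v - u)
        = (br pi0 T α - bl pi0 T α) * (c * ((v - u) / (tr pi0 T α - tl pi0 T α))) := by ring
      _ ≤ (br pi0 T α - bl pi0 T α) * ((T.2.2 α).fn ((v - tl pi0 T α) /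
        (tr pi0 T α - tl pi0 T α)) - (T.2.2 α).fn ((u - tl pi0 T α) /
        (tr pi0 T α - tl pi0 T α))) := by gcongr
      _ = _ := by ring
  · calc _ = (br pi0 T α - bl pi0 T α) * ((T.2.2 α).fn ((v - tl pi0 T α) /
        (tr pi0 T α - tl pi0 T α)) - (T.2.2 α).fn ((u - tl pi0 T α) /
        (tr pi0 T α - tl pi0 T α))) := by ring
      _ ≤ (br pi0 T α - bl pi0 T α) * (C * ((v - u) / (tr pi0 T α - tl pi0 T α))) := by gcongr
      _ = _ := by ring

/-- the maps with controlled slopes whose path of inductions is the prescribed one, in the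
weak sense that no induced interval has negative length -/
def PP (hr : 1 ≤ r) : Set (GIEM 4 r) :=
  {T | (∀ α, SlB ((2:ℝ) ^ ((ctl 0).lo α)) ((2:ℝ) ^ ((ctl 0).up α)) ((st0 hr T).g α)) ∧
    ∀ n α, 0 ≤ (run (st0 hr T) n).x α}

theorem isClosed_PP (hr : 1 ≤ r) : IsClosed (PP hr) := by
  have hC := st0_CSt hr
  have h1 : PP hr = (⋂ (α : Fin 4), ⋂ (u : ℝ), ⋂ (v : ℝ), ⋂ (_ : u ≤ v),
      {T | (2:ℝ) ^ ((ctl 0).lo α) * (v - u) ≤ (st0 hr T).g α v - (st0 hr T).g α u} ∩
      {T | (st0 hr T).g α v - (st0 hr T).g α u ≤ (2:ℝ) ^ ((ctl 0).up α) * (v - u)}) ∩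
      (⋂ (n : ℕ), ⋂ (α : Fin 4), {T | 0 ≤ (run (st0 hr T) n).x α}) := by
    ext T
    simp only [PP, SlB, mem_inter_iff, mem_iInter, Set.mem_ofPred_eq]
  rw [h1]
  apply IsClosed.inter
  · refine isClosed_iInter fun α => isClosed_iInter fun u => isClosed_iInter fun v =>
      isClosed_iInter fun _ => IsClosed.inter ?_ ?_
    · exact isClosed_le continuous_const
        ((hC.comp_g α continuous_const).sub (hC.comp_g α continuous_const))
    · exact isClosed_le ((hC.comp_g α continuous_const).sub (hC.comp_g α continuous_const))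
        continuous_const
  · refine isClosed_iInter fun n => isClosed_iInter fun α => ?_
    exact isClosed_le continuous_const (((hC.run n).r α).sub ((hC.run n).p α))

/-- the partition with given interior points -/
def mkPart (a b c : ℝ) (h1 : 0 < a) (h2 : a < b) (h3 : b < c) (h4 : c < 1) : Part 4 where
  pt := ![0, a, b, c, 1]
  mono := by
    rw [Fin.strictMono_iff_lt_succ]
    intro i
    fin_cases i <;> simp <;> assumption
  zero := rfl
  last := rfl

/-- the family of affine interval exchange maps with slopes `1/4, 1/4, 4, 4` -/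
noncomputable def fam (r : ℕ) (p q : ℝ) (hp : 0 < p ∧ p < 4 / 5) (hq : 0 < q ∧ q < 1 / 5) :
    GIEM 4 r :=
  (mkPart p (4 / 5) (4 / 5 + q) hp.1 hp.2 (by linarith) (by linarith),
   mkPart (4 / 5 - 4 * q) (1 - 4 * q - p / 4) (1 - 4 * q) (by linarith) (by linarith)
    (by linarith) (by linarith), fun _ => UnitDiffeo.id r)

theorem ratio_fam {p q : ℝ} (hp : 0 < p ∧ p < 4 / 5) (hq : 0 < q ∧ q < 1 / 5) (α : Fin 4) :
    ratio (fam r p q hp hq) α = sl0 α := by
  obtain ⟨hp1, hp2⟩ := hp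
  obtain ⟨hq1, hq2⟩ := hq
  fin_cases α
  · show (1 - 4 * q - (1 - 4 * q - p / 4)) / (p - 0) = 1 / 4
    have : p ≠ 0 := hp1.ne'
    field_simp; ring
  · show ((1 - 4 * q - p / 4) - (4 / 5 - 4 * q)) / (4 / 5 - p) = 1 / 4
    have : 4 / 5 - p ≠ 0 := by linarith
    rw [div_eq_iff this]; ring
  · show (1 - (1 - 4 * q)) / (4 / 5 + q - 4 / 5) = 4
    have : 4 / 5 + q - 4 / 5 ≠ 0 := by linarith
    rw [div_eq_iff this]; ring
  · show ((4 / 5 - 4 * q) - 0) / (1 - (4 / 5 + q)) = 4
    have : 1 - (4 / 5 + q) ≠ 0 := by linarith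
    rw [div_eq_iff this]; ring

theorem not_locFlat (hr : 1 ≤ r) {k : ℕ} (hk : 3 ≤ k) : ¬ LocFlat k (PP (r := r) hr) := by
  intro hflat
  obtain ⟨η, hη, hη5, ε, hε, hcore⟩ := core
  let R : Set (ℝ × ℝ) := Icc (η / 2) (4 / 5 - η / 2) ×ˢ Icc (η / 2) (1 / 5 - η / 2)
  have hRc : IsCompact R := isCompact_Icc.prod isCompact_Icc
  have : CompactSpace R := isCompact_iff_compactSpace.mp hRc
  have h1 : ∀ y : R, 0 < y.1.1 ∧ y.1.1 < 4 / 5 := fun y => by
    have h1 := y.2.1.1; have h2 := y.2.1.2; constructor <;> linarith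
  have h2 : ∀ y : R, 0 < y.1.2 ∧ y.1.2 < 1 / 5 := fun y => by
    have h1 := y.2.2.1; have h2 := y.2.2.2; constructor <;> linarith
  have hpart : ∀ {f : R → Part 4}, (∀ i, Continuous fun y => (f y).pt i) → Continuous f := by
    intro f hf
    rw [continuous_induced_rng]
    exact continuous_pi hf
  let F : C(R, GIEM 4 r) := ⟨fun y => fam r y.1.1 y.1.2 (h1 y) (h2 y), by
    apply Continuous.prodMk
    · apply hpart
      intro i
      fin_cases i <;> simp only [mkPart, Fin.zero_eta, Fin.mk_one, Fin.reduceFinMk,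
        Matrix.cons_val_zero, Matrix.cons_val_one, Matrix.cons_val] <;> fun_prop
    · apply Continuous.prodMk
      · apply hpart
        intro i
        fin_cases i <;> simp only [mkPart, Fin.zero_eta, Fin.mk_one, Fin.reduceFinMk,
          Matrix.cons_val_zero, Matrix.cons_val_one, Matrix.cons_val] <;> fun_prop
      · exact continuous_const⟩
  obtain ⟨δ, hδ, hδ1, hδε⟩ : ∃ δ > 0, δ ≤ 1 / 64 ∧ 12 * δ < ε :=
    ⟨min (1 / 64) (ε / 24), by positivity, min_le_left _ _,
      by linarith [min_le_right (1 / 64) (ε / 24)]⟩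
  let G : Set (R × GIEM 4 r) := {q | (∀ α, |ratio q.2 α - sl0 α| < δ) ∧
    (∀ α, ∀ x ∈ Icc (0:ℝ) 1, |derivWithin (q.2.2.2 α).fn (Icc 0 1) x - 1| < δ) ∧
    |(st0 hr q.2).x 0 - q.1.1.1| < η / 4 ∧ |(st0 hr q.2).x 2 - q.1.1.2| < η / 4}
  have hG : ∀ y, G ∈ 𝓝 (y, F y) := by
    intro y
    have hx : ∀ α, Continuous fun q : R × GIEM 4 r => (st0 hr q.2).x α := fun α =>
      ((continuous_tr α).comp continuous_snd).sub ((continuous_tl α).comp continuous_snd)
    have hrat : ∀ α, Continuous fun q : R × GIEM 4 r => ratio q.2 α := fun α =>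
      (((continuous_br α).comp continuous_snd).sub ((continuous_bl α).comp continuous_snd)).div
        (hx α) (fun q => (st0_x_pos hr q.2 α).ne')
    have e1 : ∀ᶠ q : R × GIEM 4 r in 𝓝 (y, F y), ∀ α, |ratio q.2 α - sl0 α| < δ := by
      rw [eventually_all]
      intro α
      have hc : Continuous fun q : R × GIEM 4 r => |ratio q.2 α - sl0 α| :=
        ((hrat α).sub continuous_const).abs
      apply hc.continuousAt.eventually_lt_const
      show |ratio (fam r y.1.1 y.1.2 (h1 y) (h2 y)) α - sl0 α| < δ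
      rw [ratio_fam, sub_self, abs_zero]; exact hδ
    have e2 : ∀ᶠ q : R × GIEM 4 r in 𝓝 (y, F y), ∀ α, ∀ x ∈ Icc (0:ℝ) 1,
        |derivWithin (q.2.2.2 α).fn (Icc 0 1) x - 1| < δ := by
      rw [eventually_all]
      intro α
      have hc : Continuous fun q : R × GIEM 4 r => q.2.2.2 α :=
        (continuous_apply α).comp (continuous_snd.comp (continuous_snd.comp continuous_snd))
      have h3 : Tendsto (fun q : R × GIEM 4 r => q.2.2.2 α) (𝓝 (y, F y))
          (𝓝 (UnitDiffeo.id r)) := hc.tendsto (y, F y)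
      filter_upwards [h3.eventually (UnitDiffeo.eventually_derivWithin_near hr
        (UnitDiffeo.id r) hδ)] with q hq x hx
      have := hq x hx
      rwa [UnitDiffeo.derivWithin_id hx] at this
    have e3 : ∀ᶠ q : R × GIEM 4 r in 𝓝 (y, F y), |(st0 hr q.2).x 0 - q.1.1.1| < η / 4 := by
      have hc : Continuous fun q : R × GIEM 4 r => |(st0 hr q.2).x 0 - q.1.1.1| :=
        ((hx 0).sub (by fun_prop)).abs
      apply hc.continuousAt.eventually_lt_const
      show |y.1.1 - 0 - y.1.1| < η / 4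
      rw [sub_zero, sub_self, abs_zero]; positivity
    have e4 : ∀ᶠ q : R × GIEM 4 r in 𝓝 (y, F y), |(st0 hr q.2).x 2 - q.1.1.2| < η / 4 := by
      have hc : Continuous fun q : R × GIEM 4 r => |(st0 hr q.2).x 2 - q.1.1.2| :=
        ((hx 2).sub (by fun_prop)).abs
      apply hc.continuousAt.eventually_lt_const
      show |4 / 5 + y.1.2 - 4 / 5 - y.1.2| < η / 4
      rw [add_sub_cancel_left, sub_self, abs_zero]; positivity
    filter_upwards [e1, e2, e3, e4] with q q1 q2 q3 q4
    exact ⟨q1, q2, q3, q4⟩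
  obtain ⟨F', hF', hF'P⟩ := avoid (appr_planar hRc hk) (isClosed_PP hr) hflat F
    (isOpen_interior (s := G)) (fun y => mem_interior_iff_mem_nhds.mpr (hG y))
  have hF'G : ∀ y, (y, F' y) ∈ G := fun y => interior_subset (hF' y)
  have hsl0 : ∀ α, sl0 α ≤ 4 := by intro α; fin_cases α <;> simp [sl0] <;> norm_num
  have hsl : ∀ y α, SlB (sl0 α - 6 * δ) (sl0 α + 6 * δ) ((st0 hr (F' y)).g α) := by
    intro y α
    obtain ⟨g1, g2, -, -⟩ := hF'G y
    have g1 := abs_lt.mp (g1 α)
    have g3 := branch_SlB hr (F' y) α (c := 1 - δ) (C := 1 + δ) (by linarith) (by linarith)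
      (fun x hx => by have := (abs_lt.mp (g2 α x hx)).1; simp only at this; linarith)
      (fun x hx => by have := (abs_lt.mp (g2 α x hx)).2; simp only at this; linarith)
    simp only at g1
    have p0 := sl0_pos α
    have p4 := hsl0 α
    intro u v huv
    obtain ⟨k1, k2⟩ := g3 u v huv
    have hd : 0 ≤ v - u := by linarith
    have j1 : sl0 α - 6 * δ ≤ ratio (F' y) α * (1 - δ) := by nlinarith
    have j2 : ratio (F' y) α * (1 + δ) ≤ sl0 α + 6 * δ := by nlinarith
    exact ⟨(mul_le_mul_of_nonneg_right j1 hd).trans k1,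
      k2.trans (mul_le_mul_of_nonneg_right j2 hd)⟩
  obtain ⟨y, hy⟩ := hcore (fun y => st0 hr (F' y)) (fun α => sl0 α - 6 * δ)
    (fun α => sl0 α + 6 * δ) ((st0_CSt hr).comp F'.continuous) (fun y => st0_inv hr _)
    (fun y => st0_x_pos hr _) (fun y => st0_sum hr _)
    (fun α => by rw [sub_sub_cancel_left, abs_neg, abs_of_pos (by linarith)]; linarith)
    (fun α => by rw [add_sub_cancel_left, abs_of_pos (by linarith)]; linarith)
    hsl (fun y => (hF'G y).2.2.1.le) (fun y => (hF'G y).2.2.2.le)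
  apply hF'P y
  refine ⟨fun α u v huv => ?_, hy⟩
  obtain ⟨k1, k2⟩ := hsl y α u v huv
  have hd : 0 ≤ v - u := by linarith
  have j1 : (2:ℝ) ^ ((ctl 0).lo α) ≤ sl0 α - 6 * δ := by
    fin_cases α <;> simp [ctl, sl0] <;> norm_num <;> linarith
  have j2 : sl0 α + 6 * δ ≤ (2:ℝ) ^ ((ctl 0).up α) := by
    fin_cases α <;> simp [ctl, sl0] <;> norm_num <;> linarith
  exact ⟨(mul_le_mul_of_nonneg_right j1 hd).trans k1,
    k2.trans (mul_le_mul_of_nonneg_right j2 hd)⟩

end Pool.Agent.Giem37
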