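import Pool.Agent.Lib_helper37.Giem.Ret

/-! The orbit of `0` accumulates at every top endpoint from the left. -/

set_option autoImplicit false

namespace Pool.Agent.Giem37

open Function Set Topology Filter

theorem cc_le_one {s : St} (h : Good s) (m : ℕ) : cc s m ≤ 1 := by
  induction m with
  | zero => exact (cc_zero h).le
  | succ m ih =>
    cases htop : (stp m).top
    · rw [cc_bot h htop]
      have b1 := h.pos m (stp m).l
      have b2 := (h.ord m).r_le (stp m).l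
      unfold cc at ih; linarith
    · rw [cc_top h htop]
      have b1 := ((run s m).g (stp m).l).strictMono (h.pos m (stp m).l)
      have b2 := (h.ord m).gr_le (stp m).l
      unfold cc at ih; linarith

/-- a gap on the left of the right endpoint of the interval of the letter `g` -/
structure GS (s : St) (n : ℕ) (g : Fin 4) (J K : ℝ) (u : ℝ) : Prop where
  pu : (run s n).p g ≤ u
  ur : u < (run s n).r g
  no : ∀ m, ¬ (u < s.mp^[m] 0 ∧ s.mp^[m] 0 < (run s n).r g)
  hJ : J = (run s n).r g - u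
  hK : K = (run s n).g g ((run s n).r g) - (run s n).g g u

/-- how the gap lengths change -/
structure Rel (σ : Stp) (g g' : Fin 4) (J J' K K' : ℝ) : Prop where
  hg : g' = if g = σ.w then σ.l else g
  other : g ≠ σ.w → g ≠ σ.l → J' = J ∧ K' = K
  tl : σ.top = true → g = σ.l → J' = J
  tl2 : σ.top = true → g = σ.l → σ.w = 2 ∨ σ.w = 3 → 2 * K ≤ K'
  tw : σ.top = true → g = σ.w → K' = K
  tw2 : σ.top = true → g = σ.w → σ.l = 0 ∨ σ.l = 1 → 2 * J ≤ J'
  bw : σ.top = false → g = σ.w → J' = J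
  bw2 : σ.top = false → g = σ.w → σ.l = 2 ∨ σ.l = 3 → 2 * K ≤ K'
  bl : σ.top = false → g = σ.l → K' = K
  bl2 : σ.top = false → g = σ.l → σ.w = 0 ∨ σ.w = 1 → 2 * J ≤ J'

/-- slope hypotheses at all stages -/
structure Slp (s : St) : Prop where
  contr : ∀ n g, g = 0 ∨ g = 1 → ∀ u v, u ≤ v →
    2 * ((run s n).g g v - (run s n).g g u) ≤ v - u
  exp : ∀ n g, g = 2 ∨ g = 3 → ∀ u v, u ≤ v →
    2 * (v - u) ≤ (run s n).g g v - (run s n).g g u

theorem GS.step {s : St} (h : Good s) (hs : Slp s) {n : ℕ} {g : Fin 4} {J K u : ℝ}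
    (hG : GS s n g J K u) : ∃ g' J' K' u', GS s (n + 1) g' J' K' u' ∧
      Rel (stp n) g g' J J' K K' := by
  obtain ⟨pu, ur, no, hJ, hK⟩ := hG
  have hne := stp_ne n
  cases htop : (stp n).top
  · obtain ⟨τ, hS⟩ := botStep h.inv htop
    by_cases hw : g = (stp n).w
    · subst hw
      -- the interval of the loser is visited, hence `τ ≤ u`
      obtain ⟨m, hm1, hm2⟩ := h.orb (n + 1) (stp n).l
      rw [hS.pl] at hm1
      rw [hS.rl] at hm2
      have hτu : τ ≤ u := by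
        by_contra hc
        exact no m ⟨by linarith, hm2⟩
      refine ⟨(stp n).l, J, (run s n).g (stp n).l ((run s n).g (stp n).w ((run s n).r (stp n).w))
        - (run s n).g (stp n).l ((run s n).g (stp n).w u), u, ⟨?_, ?_, ?_, ?_, ?_⟩, ?_⟩
      · rw [hS.pl]; exact hτu
      · rw [hS.rl]; exact ur
      · rw [hS.rl]; exact no
      · rw [hS.rl]; exact hJ
      · rw [hS.rl, hS.gl, hS.gl]
      · constructor <;> simp [htop, hne]
        intro hl
        rw [hK]
        exact hs.exp n _ hl _ _ (((run s n).g _).monotone ur.le)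
    · by_cases hl : g = (stp n).l
      · subst hl
        obtain ⟨u', hu'⟩ : ∃ u', (run s n).g (stp n).w u' = u := ((run s n).g _).surjective u
        have h1 : τ ≤ u' := by
          rw [← ((run s n).g (stp n).w).le_iff_le, hS.gτ, hu']; exact pu
        have h2 : u' < (run s n).r (stp n).w := by
          rw [← ((run s n).g (stp n).w).lt_iff_lt, ← hS.e, hu']; exact ur
        have hpw : (run s n).p (stp n).w ≤ τ := by
          have := h.pos (n + 1) (stp n).w
          rw [hS.rw, hS.p _ (stp_ne n)] at this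
          exact this.le
        refine ⟨(stp n).l, (run s n).r (stp n).w - u', K, u', ⟨?_, ?_, ?_, ?_, ?_⟩, ?_⟩
        · rw [hS.pl]; exact h1
        · rw [hS.rl]; exact h2
        · rw [hS.rl]
          rintro m ⟨hm1, hm2⟩
          have h4 := ((h.fol n _ _ (by linarith) hm2).iter h.chain).1
          apply no ((wd n (stp n).w).length + m)
          rw [iterate_add_apply, h4]
          constructor
          · rw [← hu']; exact ((run s n).g _).strictMono hm1
          · rw [hS.e]; exact ((run s n).g _).strictMono hm2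
        · rw [hS.rl]
        · rw [hS.rl, hS.gl, hS.gl, hu', ← hS.e]; exact hK
        · constructor <;> simp [htop, hne.symm]
          intro hw'
          have := hs.contr n _ hw' _ _ h2.le
          rw [hJ]
          rw [hu', ← hS.e] at this
          exact this
      · refine ⟨g, J, K, u, ⟨?_, ?_, ?_, ?_, ?_⟩, ?_⟩
        · rw [hS.p _ hl]; exact pu
        · rw [hS.r _ hw hl]; exact ur
        · rw [hS.r _ hw hl]; exact no
        · rw [hS.r _ hw hl]; exact hJ
        · rw [hS.r _ hw hl, hS.g _ hl]; exact hK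
        · constructor <;> simp [htop, hw, hl]
  · have hS := topStep h.inv htop
    by_cases hw : g = (stp n).w
    · subst hw
      obtain ⟨m, hm1, hm2⟩ := h.orb (n + 1) (stp n).l
      rw [hS.p] at hm1
      rw [hS.r _ hne.symm] at hm2
      have h4 := ((h.fol n _ _ hm1 hm2).iter h.chain).1
      have hgu : (run s n).g (stp n).l ((run s n).p (stp n).l) ≤ u := by
        by_contra hc
        rw [not_le] at hc
        apply no ((wd n (stp n).l).length + m)
        rw [iterate_add_apply, h4]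
        constructor
        · exact hc.trans_le (((run s n).g _).monotone hm1)
        · rw [hS.e]; exact ((run s n).g _).strictMono hm2
      obtain ⟨u', hu'⟩ : ∃ u', (run s n).g (stp n).l u' = u := ((run s n).g _).surjective u
      have h1 : (run s n).p (stp n).l ≤ u' := by
        rw [← ((run s n).g (stp n).l).le_iff_le, hu']; exact hgu
      have h2 : u' < (run s n).r (stp n).l := by
        rw [← ((run s n).g (stp n).l).lt_iff_lt, ← hS.e, hu']; exact ur
      refine ⟨(stp n).l, (run s n).r (stp n).l - u', K, u', ⟨?_, ?_, ?_, ?_, ?_⟩, ?_⟩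
      · rw [hS.p]; exact h1
      · rw [hS.r _ hne.symm]; exact h2
      · rw [hS.r _ hne.symm]
        rintro m ⟨hm1, hm2⟩
        have h4 := ((h.fol n _ _ (by linarith) hm2).iter h.chain).1
        apply no ((wd n (stp n).l).length + m)
        rw [iterate_add_apply, h4]
        constructor
        · rw [← hu']; exact ((run s n).g _).strictMono hm1
        · rw [hS.e]; exact ((run s n).g _).strictMono hm2
      · rw [hS.r _ hne.symm]
      · rw [hS.r _ hne.symm, hS.gl, hS.gl, hu', ← hS.e]; exact hK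
      · constructor <;> simp [htop, hne]
        intro hl'
        have := hs.contr n _ hl' _ _ h2.le
        rw [hJ]
        rw [hu', ← hS.e] at this
        exact this
    · by_cases hl : g = (stp n).l
      · subst hl
        refine ⟨(stp n).l, J, (run s n).g (stp n).w ((run s n).g (stp n).l
          ((run s n).r (stp n).l)) - (run s n).g (stp n).w ((run s n).g (stp n).l u), u,
          ⟨?_, ?_, ?_, ?_, ?_⟩, ?_⟩
        · rw [hS.p]; exact pu
        · rw [hS.r _ hw]; exact ur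
        · rw [hS.r _ hw]; exact no
        · rw [hS.r _ hw]; exact hJ
        · rw [hS.r _ hw, hS.gl, hS.gl]
        · constructor <;> simp [htop, hne.symm]
          intro hw'
          rw [hK]
          exact hs.exp n _ hw' _ _ (((run s n).g _).monotone ur.le)
      · refine ⟨g, J, K, u, ⟨?_, ?_, ?_, ?_, ?_⟩, ?_⟩
        · rw [hS.p]; exact pu
        · rw [hS.r _ hw]; exact ur
        · rw [hS.r _ hw]; exact no
        · rw [hS.r _ hw]; exact hJ
        · rw [hS.r _ hw, hS.g _ hl]; exact hK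
        · constructor <;> simp [htop, hw, hl]

/-- growth of `J` when the gap starts at the letters `A`, `B` -/
def M1 (c : Ctl) (g : Fin 4) (J J0 : ℝ) : Prop :=
  match c.ph with
  | .p0 => (g = 0 ∨ g = 1) ∧ 2 ^ c.k * J0 ≤ J
  | .p1 => (g = 0 ∨ g = 1) ∧ 2 ^ c.k * J0 ≤ J
  | .p2 => (g = 0 ∨ g = 1) ∧ 2 ^ c.k * J0 ≤ J
  | .p3 => (g = 1 ∨ g = 3) ∧ 2 ^ c.k * J0 ≤ J
  | .p4 => (g = 0 ∧ 2 ^ (c.k + 1) * J0 ≤ J) ∨ ((g = 1 ∨ g = 3) ∧ 2 ^ c.k * J0 ≤ J)
  | .p5 => (g = 0 ∧ 2 ^ (c.k + 1) * J0 ≤ J) ∨ (g = 3 ∧ 2 ^ c.k * J0 ≤ J)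
  | .p6 => (g = 1 ∧ 2 ^ (c.k + 1) * J0 ≤ J) ∨ (g = 3 ∧ 2 ^ c.k * J0 ≤ J)
  | .p7 => (g = 0 ∨ g = 1) ∧ 2 ^ (c.k + 1) * J0 ≤ J

/-- growth of `K` when the gap starts at the letters `C`, `D` -/
def M2 (c : Ctl) (g : Fin 4) (K K0 : ℝ) : Prop :=
  match c.ph with
  | .p0 => (g = 2 ∧ 2 ^ c.k * K0 ≤ K) ∨ (g = 3 ∧ 2 ^ (c.k + 1) * K0 ≤ K)
  | .p1 => g = 3 ∧ 2 ^ (c.k + 1) * K0 ≤ K
  | _ => g = 2 ∧ 2 ^ (c.k + 1) * K0 ≤ K

theorem M1.next {c : Ctl} {g g' : Fin 4} {J J' K K' J0 : ℝ} (h : M1 c g J J0)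
    (hr : Rel c.ph.stp g g' J J' K K') : M1 c.next g' J' J0 := by
  obtain ⟨ph, cnt, k, ex, lo, up⟩ := c
  obtain ⟨hg, ho, htl, -, -, htw2, hbw, -, -, -⟩ := hr
  have key : ∀ x y : ℝ, 2 ^ k * J0 ≤ x → 2 * x ≤ y → 2 ^ (k + 1) * J0 ≤ y := by
    intro x y h1 h2
    rw [pow_succ]; linarith
  cases ph
  · obtain ⟨h1 | h1, h2⟩ := h <;> subst h1 <;>
      simp [Ph.stp] at hg ho htl htw2 hbw <;> obtain ⟨ho, -⟩ := ho <;> subst ho hg <;>
      by_cases hc : cnt ≤ 1 <;> simp [M1, Ctl.next, hc, h2]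
  · obtain ⟨h1 | h1, h2⟩ := h <;> subst h1 <;>
      simp [Ph.stp] at hg ho htl htw2 hbw <;> obtain ⟨ho, -⟩ := ho <;> subst ho hg <;>
      simp [M1, Ctl.next, h2]
  · obtain ⟨h1 | h1, h2⟩ := h <;> subst h1 <;>
      simp [Ph.stp] at hg ho htl htw2 hbw
    · subst hg hbw; simp [M1, Ctl.next, h2]
    · obtain ⟨ho, -⟩ := ho; subst hg ho; simp [M1, Ctl.next, h2]
  · obtain ⟨h1 | h1, h2⟩ := h <;> subst h1 <;>
      simp [Ph.stp] at hg ho htl htw2 hbw <;> obtain ⟨ho, -⟩ := ho <;> subst ho hg <;>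
      simp [M1, Ctl.next, h2]
  · rcases h with ⟨h1, h2⟩ | ⟨h1 | h1, h2⟩ <;> subst h1 <;>
      simp [Ph.stp] at hg ho htl htw2 hbw
    · subst hg htl; by_cases hc : cnt ≤ 1 <;> simp [M1, Ctl.next, hc, h2]
    · have := key _ _ h2 htw2
      subst hg; by_cases hc : cnt ≤ 1 <;> simp [M1, Ctl.next, hc, this]
    · obtain ⟨ho, -⟩ := ho; subst hg ho
      by_cases hc : cnt ≤ 1 <;> simp [M1, Ctl.next, hc, h2]
  · rcases h with ⟨h1, h2⟩ | ⟨h1, h2⟩ <;> subst h1 <;>
      simp [Ph.stp] at hg ho htl htw2 hbw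
    · subst hg hbw; simp [M1, Ctl.next, h2]
    · obtain ⟨ho, -⟩ := ho; subst hg ho; simp [M1, Ctl.next, h2]
  · rcases h with ⟨h1, h2⟩ | ⟨h1, h2⟩ <;> subst h1 <;>
      simp [Ph.stp] at hg ho htl htw2 hbw
    · obtain ⟨ho, -⟩ := ho; subst hg ho; simp [M1, Ctl.next, h2]
    · have := key _ _ h2 htw2
      subst hg; simp [M1, Ctl.next, this]
  · obtain ⟨h1 | h1, h2⟩ := h <;> subst h1 <;>
      simp [Ph.stp] at hg ho htl htw2 hbw
    · obtain ⟨ho, -⟩ := ho; subst hg ho; simp [M1, Ctl.next, h2]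
    · subst hg htl; simp [M1, Ctl.next, h2]

theorem M2.next {c : Ctl} {g g' : Fin 4} {J J' K K' K0 : ℝ} (h : M2 c g K K0)
    (hr : Rel c.ph.stp g g' J J' K K') : M2 c.next g' K' K0 := by
  obtain ⟨ph, cnt, k, ex, lo, up⟩ := c
  obtain ⟨hg, ho, -, -, htw, -, -, hbw2, hbl, -⟩ := hr
  have key : ∀ x y : ℝ, 2 ^ k * K0 ≤ x → 2 * x ≤ y → 2 ^ (k + 1) * K0 ≤ y := by
    intro x y h1 h2
    rw [pow_succ]; linarith
  cases ph
  · rcases h with ⟨h1, h2⟩ | ⟨h1, h2⟩ <;> subst h1 <;>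
      simp [Ph.stp] at hg ho htw hbw2 hbl
    · have := key _ _ h2 hbw2
      subst hg; by_cases hc : cnt ≤ 1 <;> simp [M2, Ctl.next, hc, this]
    · subst hg hbl; by_cases hc : cnt ≤ 1 <;> simp [M2, Ctl.next, hc, h2]
  · obtain ⟨h1, h2⟩ := h
    subst h1
    simp [Ph.stp] at hg ho htw hbw2 hbl
    subst hg htw; simp [M2, Ctl.next, h2]
  · obtain ⟨h1, h2⟩ := h
    subst h1
    simp [Ph.stp] at hg ho htw hbw2 hbl
    obtain ⟨-, ho⟩ := ho; subst hg ho; simp [M2, Ctl.next, h2]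
  · obtain ⟨h1, h2⟩ := h
    subst h1
    simp [Ph.stp] at hg ho htw hbw2 hbl
    subst hg hbl; simp [M2, Ctl.next, h2]
  · obtain ⟨h1, h2⟩ := h
    subst h1
    simp [Ph.stp] at hg ho htw hbw2 hbl
    obtain ⟨-, ho⟩ := ho; subst hg ho
    by_cases hc : cnt ≤ 1 <;> simp [M2, Ctl.next, hc, h2]
  · obtain ⟨h1, h2⟩ := h
    subst h1
    simp [Ph.stp] at hg ho htw hbw2 hbl
    obtain ⟨-, ho⟩ := ho; subst hg ho; simp [M2, Ctl.next, h2]
  · obtain ⟨h1, h2⟩ := h
    subst h1
    simp [Ph.stp] at hg ho htw hbw2 hbl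
    obtain ⟨-, ho⟩ := ho; subst hg ho; simp [M2, Ctl.next, h2]
  · obtain ⟨h1, h2⟩ := h
    subst h1
    simp [Ph.stp] at hg ho htw hbw2 hbl
    obtain ⟨-, ho⟩ := ho; subst hg ho; simp [M2, Ctl.next, h2]

theorem k_mono (n : ℕ) : (ctl n).k ≤ (ctl (n + 1)).k := by
  show (ctl n).k ≤ (ctl n).next.k
  cases h : (ctl n).ph <;> simp [Ctl.next, h]

theorem k_unbounded (K : ℕ) : ∃ n, K ≤ (ctl n).k := by
  induction K with
  | zero => exact ⟨0, Nat.zero_le _⟩
  | succ K ih =>
    obtain ⟨n, hn⟩ := ih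
    obtain ⟨m, hm, hph⟩ := reach_all n .p7
    have h1 : (ctl n).k ≤ (ctl m).k := monotone_nat_of_le_succ (f := fun k => (ctl k).k) k_mono hm
    refine ⟨m + 1, ?_⟩
    show K + 1 ≤ (ctl m).next.k
    simp only [Ctl.next, hph]
    omega

theorem M1.bound {c : Ctl} {g : Fin 4} {J J0 : ℝ} (h0 : 0 < J0) (h : M1 c g J J0) :
    2 ^ c.k * J0 ≤ J := by
  have key : 2 ^ (c.k + 1) * J0 ≤ J → 2 ^ c.k * J0 ≤ J := by
    intro h1
    rw [pow_succ] at h1
    have : 0 < 2 ^ c.k * J0 := by positivity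
    linarith
  unfold M1 at h
  cases hc : c.ph <;> simp only [hc] at h
  · exact h.2
  · exact h.2
  · exact h.2
  · exact h.2
  · exact h.elim (fun h => key h.2) (fun h => h.2)
  · exact h.elim (fun h => key h.2) (fun h => h.2)
  · exact h.elim (fun h => key h.2) (fun h => h.2)
  · exact key h.2

theorem M2.bound {c : Ctl} {g : Fin 4} {J J0 : ℝ} (h0 : 0 < J0) (h : M2 c g J J0) :
    2 ^ c.k * J0 ≤ J := by
  have key : 2 ^ (c.k + 1) * J0 ≤ J → 2 ^ c.k * J0 ≤ J := by
    intro h1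
    rw [pow_succ] at h1
    have : 0 < 2 ^ c.k * J0 := by positivity
    linarith
  unfold M2 at h
  cases hc : c.ph <;> simp only [hc] at h
  · exact h.elim (fun h => h.2) (fun h => key h.2)
  all_goals exact key h.2

theorem GS.J_le {s : St} (h : Good s) {n : ℕ} {g : Fin 4} {J K u : ℝ}
    (hG : GS s n g J K u) : J ≤ 1 ∧ K ≤ 1 := by
  have h1 := (h.ord n).p_nonneg g
  have h2 := (h.ord n).r_le g
  have h3 := (h.ord n).gr_le g
  have h4 := (h.ord n).q_nonneg g
  have h5 := cc_le_one h n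
  unfold cc at h5
  have h6 := ((run s n).g g).monotone hG.pu
  have h7 := hG.pu
  constructor
  · rw [hG.hJ]; linarith
  · rw [hG.hK]; linarith

theorem no_gap {s : St} (h : Good s) (hs : Slp s) {α : Fin 4} {u : ℝ} (hu : u < s.r α) :
    ∃ m, u < s.mp^[m] 0 ∧ s.mp^[m] 0 < s.r α := by
  by_contra hno
  have hp := h.pos 0 α
  change s.p α < s.r α at hp
  obtain ⟨v, hv⟩ : ∃ v, v = max u (s.p α) := ⟨_, rfl⟩
  have hvr : v < s.r α := by rw [hv]; exact max_lt hu hp
  have hG : GS s 0 α (s.r α - v) (s.g α (s.r α) - s.g α v) v :=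
    ⟨by rw [hv]; exact le_max_right _ _, hvr, fun m hm => hno ⟨m, by
      have : u ≤ v := by rw [hv]; exact le_max_left _ _
      linarith [hm.1], hm.2⟩, rfl, rfl⟩
  have hJ0 : 0 < s.r α - v := by linarith
  have hK0 : 0 < s.g α (s.r α) - s.g α v := by
    have := (s.g α).strictMono hvr; linarith
  have hcase : (α = 0 ∨ α = 1) ∨ (α = 2 ∨ α = 3) := by fin_cases α <;> simp
  have hbig : ∀ c : ℝ, 0 < c → ∃ n, 1 < 2 ^ (ctl n).k * c := by
    intro c hc
    obtain ⟨k, hk⟩ := pow_unbounded_of_one_lt (1 / c) (one_lt_two)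
    obtain ⟨n, hn⟩ := k_unbounded k
    refine ⟨n, ?_⟩
    rw [div_lt_iff₀ hc] at hk
    have : (2:ℝ) ^ k ≤ 2 ^ (ctl n).k := pow_le_pow_right₀ (by norm_num) hn
    calc (1:ℝ) < 2 ^ k * c := hk
      _ ≤ _ := by gcongr
  rcases hcase with hα | hα
  · have key : ∀ n, ∃ g J K u, GS s n g J K u ∧ M1 (ctl n) g J (s.r α - v) := by
      intro n
      induction n with
      | zero => exact ⟨α, _, _, _, hG, hα, by simp [ctl]⟩
      | succ n ih =>
        obtain ⟨g, J, K, u, h1, h2⟩ := ih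
        obtain ⟨g', J', K', u', h3, h4⟩ := h1.step h hs
        exact ⟨g', J', K', u', h3, h2.next h4⟩
    obtain ⟨n, hn⟩ := hbig _ hJ0
    obtain ⟨g, J, K, u, h1, h2⟩ := key n
    have := (h1.J_le h).1
    have := h2.bound hJ0
    linarith
  · have hK1 : 0 < (s.g α (s.r α) - s.g α v) / 2 := by positivity
    have key : ∀ n, ∃ g J K u, GS s n g J K u ∧
        M2 (ctl n) g K ((s.g α (s.r α) - s.g α v) / 2) := by
      intro n
      induction n with
      | zero =>
        refine ⟨α, _, _, _, hG, ?_⟩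
        rcases hα with hα | hα
        · left; refine ⟨hα, ?_⟩; simp [ctl]; linarith
        · right; refine ⟨hα, ?_⟩; simp [ctl]; linarith
      | succ n ih =>
        obtain ⟨g, J, K, u, h1, h2⟩ := ih
        obtain ⟨g', J', K', u', h3, h4⟩ := h1.step h hs
        exact ⟨g', J', K', u', h3, h2.next h4⟩
    obtain ⟨n, hn⟩ := hbig _ hK1
    obtain ⟨g, J, K, u, h1, h2⟩ := key n
    have := (h1.J_le h).2
    have := h2.bound hK1
    linarith

end Pool.Agent.Giem37
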