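import Pool.Agent.Lib_helper37.Giem.Sign

/-! Linear algebra along the path: backward steps on vectors. -/

set_option autoImplicit false

namespace Pool.Agent.Giem37

open Function Set Topology

/-- backward step on vectors -/
def zs (σ : Stp) (a : ℝ) (z : Fin 4 → ℝ) : Fin 4 → ℝ :=
  if σ.top then update z σ.w (z σ.w + a * z σ.l)
  else update (update z σ.w (z σ.w + z σ.l)) σ.l (a * z σ.l)

theorem pairing (φ : Ph) (a : ℝ) (c z : Fin 4 → ℝ) :
    ∑ α, c α * zs φ.stp a z α = ∑ α, cf φ.stp a c α * z α := by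
  cases φ <;> simp [Fin.sum_univ_four, zs, cf, Ph.stp] <;> ring

theorem zs_w_ne_l (φ : Ph) : φ.stp.w ≠ φ.stp.l := by
  cases φ <;> simp [Ph.stp]

/-- covectors along the path -/
def cN (c0 : Fin 4 → ℝ) (a : ℕ → ℝ) : ℕ → Fin 4 → ℝ
  | 0 => c0
  | n + 1 => cf (stp n) (a n) (cN c0 a n)

/-- auxiliary backward recursion -/
def bk (a : ℕ → ℝ) (N : ℕ) (z : Fin 4 → ℝ) : ℕ → Fin 4 → ℝ
  | 0 => z
  | j + 1 => zs (stp (N - 1 - j)) (a (N - 1 - j)) (bk a N z j)

/-- the vector at stage `m ≤ N` if it is `z` at stage `N` -/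
def Zv (a : ℕ → ℝ) (N : ℕ) (z : Fin 4 → ℝ) (m : ℕ) : Fin 4 → ℝ := bk a N z (N - m)

theorem Zv_self (a : ℕ → ℝ) (N : ℕ) (z : Fin 4 → ℝ) : Zv a N z N = z := by
  simp [Zv, bk]

theorem Zv_step (a : ℕ → ℝ) {N m : ℕ} (h : m < N) (z : Fin 4 → ℝ) :
    Zv a N z m = zs (stp m) (a m) (Zv a N z (m + 1)) := by
  obtain ⟨j, hj⟩ : ∃ j, N - m = j + 1 := ⟨N - m - 1, by omega⟩
  have h1 : N - (m + 1) = j := by omega
  have h2 : N - 1 - j = m := by omega
  simp only [Zv, hj, h1, bk, h2]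

/-- descending induction from `N` -/
theorem desc {N : ℕ} {P : ℕ → Prop} (h0 : P N) (hs : ∀ m < N, P (m + 1) → P m) :
    ∀ m ≤ N, P m := by
  intro m hm
  obtain ⟨j, hj⟩ : ∃ j, m + j = N := ⟨N - m, by omega⟩
  induction j generalizing m with
  | zero => have : m = N := by omega
            rw [this]; exact h0
  | succ j ih => exact hs m (by omega) (ih (m + 1) (by omega) (by omega))

theorem Zv_comp (a : ℕ → ℝ) {N n : ℕ} (h : n ≤ N) (z : Fin 4 → ℝ) :
    ∀ m ≤ n, Zv a N z m = Zv a n (Zv a N z n) m := by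
  apply desc
  · rw [Zv_self]
  · intro m hm ih
    rw [Zv_step a (by omega : m < N), ih, Zv_step a hm]

theorem Zv_pair (c0 : Fin 4 → ℝ) (a : ℕ → ℝ) (N : ℕ) (z : Fin 4 → ℝ) :
    ∀ m ≤ N, ∑ α, cN c0 a m α * Zv a N z m α = ∑ α, cN c0 a N α * z α := by
  apply desc
  · rw [Zv_self]
  · intro m hm ih
    rw [Zv_step a hm, stp, pairing, ← ih]
    rfl

theorem zs_nonneg (φ : Ph) {a : ℝ} (ha : 0 < a) {z : Fin 4 → ℝ} (hz : ∀ α, 0 ≤ z α) (α : Fin 4) :
    0 ≤ zs φ.stp a z α := by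
  have h0 := hz 0; have h1 := hz 1; have h2 := hz 2; have h3 := hz 3
  cases φ <;> fin_cases α <;> simp [zs, Ph.stp] <;> positivity

theorem zs_pos (φ : Ph) {a : ℝ} (ha : 0 < a) {z : Fin 4 → ℝ} (hz : ∀ α, 0 < z α) (α : Fin 4) :
    0 < zs φ.stp a z α := by
  have h0 := hz 0; have h1 := hz 1; have h2 := hz 2; have h3 := hz 3
  cases φ <;> fin_cases α <;> simp [zs, Ph.stp] <;> positivity

theorem Zv_nonneg {a : ℕ → ℝ} (ha : ∀ n, 0 < a n) (N : ℕ) {z : Fin 4 → ℝ} (hz : ∀ α, 0 ≤ z α) :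
    ∀ m ≤ N, ∀ α, 0 ≤ Zv a N z m α := by
  apply desc
  · rw [Zv_self]; exact hz
  · intro m hm ih
    rw [Zv_step a hm]
    exact zs_nonneg _ (ha m) ih

theorem Zv_pos {a : ℕ → ℝ} (ha : ∀ n, 0 < a n) (N : ℕ) {z : Fin 4 → ℝ} (hz : ∀ α, 0 < z α) :
    ∀ m ≤ N, ∀ α, 0 < Zv a N z m α := by
  apply desc
  · rw [Zv_self]; exact hz
  · intro m hm ih
    rw [Zv_step a hm]
    exact zs_pos _ (ha m) ih

theorem zs_zero_mono (φ : Ph) {a : ℝ} (ha : 0 < a) {z : Fin 4 → ℝ} (hz : ∀ α, 0 ≤ z α) (α : Fin 4)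
    (h : zs φ.stp a z α = 0) : z α = 0 := by
  have h0 := hz 0; have h1 := hz 1; have h2 := hz 2; have h3 := hz 3
  have hm : ∀ x, 0 ≤ x → 0 ≤ a * x := fun x hx => by positivity
  have e0 := hm _ h0; have e1 := hm _ h1; have e2 := hm _ h2; have e3 := hm _ h3
  cases φ <;> fin_cases α <;> simp [zs, Ph.stp, ha.ne'] at h ⊢ <;> first | exact h | linarith

theorem zs_zero_win (φ : Ph) {a : ℝ} (ha : 0 < a) {z : Fin 4 → ℝ} (hz : ∀ α, 0 ≤ z α)
    (h : zs φ.stp a z φ.stp.w = 0) : z φ.stp.l = 0 := by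
  have h0 := hz 0; have h1 := hz 1; have h2 := hz 2; have h3 := hz 3
  have hm : ∀ x, 0 ≤ x → 0 ≤ a * x := fun x hx => by positivity
  have e0 := hm _ h0; have e1 := hm _ h1; have e2 := hm _ h2; have e3 := hm _ h3
  have key : ∀ x y : ℝ, 0 ≤ x → 0 ≤ a * y → x + a * y = 0 → y = 0 := by
    intro x y hx hy h
    have : a * y = 0 := by linarith
    exact (mul_eq_zero.mp this).resolve_left ha.ne'
  cases φ <;> simp [zs, Ph.stp] at h ⊢ <;> first | linarith | exact key _ _ (by assumption) (by assumption) h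

/-- positivity of long products -/
theorem exists_pos_block : ∃ N : ℕ, ∀ (a : ℕ → ℝ), (∀ n, 0 < a n) → ∀ z : Fin 4 → ℝ,
    (∀ α, 0 ≤ z α) → z ≠ 0 → ∀ α, 0 < Zv a N z 0 α := by
  obtain ⟨N, -, hN⟩ := propagate 0
  refine ⟨N, fun a ha z hz hz0 α => ?_⟩
  by_contra hc
  have hnn := Zv_nonneg ha N hz
  let Z : ℕ → Set (Fin 4) := fun n => if n ≤ N then {β | Zv a N z n β = 0} else univ
  have hZ : Prop1 Z := by
    constructor
    · intro n β hβ
      simp only [Z] at hβ ⊢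
      by_cases h1 : n + 1 ≤ N
      · rw [if_pos (by omega)] at hβ
        rw [if_pos h1]
        have hβ' : Zv a N z n β = 0 := hβ
        rw [Zv_step a (by omega : n < N)] at hβ'
        exact zs_zero_mono _ (ha n) (hnn (n + 1) h1) β hβ'
      · rw [if_neg h1]; trivial
    · intro n hβ
      simp only [Z] at hβ ⊢
      by_cases h1 : n + 1 ≤ N
      · rw [if_pos (by omega)] at hβ
        rw [if_pos h1]
        have hβ' : Zv a N z n (stp n).w = 0 := hβ
        rw [Zv_step a (by omega : n < N)] at hβ'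
        exact zs_zero_win _ (ha n) (hnn (n + 1) h1) hβ'
      · rw [if_neg h1]; trivial
  have h0 : (Z 0).Nonempty := by
    refine ⟨α, ?_⟩
    simp only [Z]
    rw [if_pos (Nat.zero_le _)]
    exact le_antisymm (not_lt.mp hc) (hnn 0 (Nat.zero_le _) α)
  have h1 := hN Z hZ h0
  apply hz0
  funext β
  have h2 : β ∈ Z N := by rw [h1]; trivial
  simp only [Z] at h2
  rw [if_pos le_rfl] at h2
  have h3 : Zv a N z N β = 0 := h2
  rw [Zv_self] at h3
  exact h3

theorem continuous_zs {Y : Type} [TopologicalSpace Y] (σ : Stp) {a : Y → ℝ} {z : Y → Fin 4 → ℝ}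
    (ha : Continuous a) (hz : Continuous z) : Continuous fun y => zs σ (a y) (z y) := by
  unfold zs
  have h := continuous_pi_iff.mp hz
  by_cases hσ : σ.top
  · simp only [hσ, if_true]
    exact hz.update _ ((h _).add (ha.mul (h _)))
  · simp only [hσ, if_false, Bool.false_eq_true]
    exact (hz.update _ ((h _).add (h _))).update _ (ha.mul (h _))

theorem continuous_cf {Y : Type} [TopologicalSpace Y] (σ : Stp) {a : Y → ℝ} {c : Y → Fin 4 → ℝ}
    (ha : Continuous a) (hc : Continuous c) : Continuous fun y => cf σ (a y) (c y) := by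
  unfold cf
  have h := continuous_pi_iff.mp hc
  by_cases hσ : σ.top
  · simp only [hσ, if_true]
    exact hc.update _ ((h _).add (ha.mul (h _)))
  · simp only [hσ, if_false, Bool.false_eq_true]
    exact hc.update _ ((h _).add (ha.mul (h _)))

theorem continuous_Zv {Y : Type} [TopologicalSpace Y] {a : Y → ℕ → ℝ} {z : Y → Fin 4 → ℝ}
    (ha : Continuous a) (hz : Continuous z) (N : ℕ) :
    ∀ m ≤ N, Continuous fun y => Zv (a y) N (z y) m := by
  apply desc
  · simp only [Zv_self]; exact hz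
  · intro m hm ih
    simp only [Zv_step _ hm]
    exact continuous_zs _ ((continuous_pi_iff.mp ha) m) ih

theorem continuous_cN {Y : Type} [TopologicalSpace Y] {c : Y → Fin 4 → ℝ} {a : Y → ℕ → ℝ}
    (hc : Continuous c) (ha : Continuous a) (n : ℕ) : Continuous fun y => cN (c y) (a y) n := by
  induction n with
  | zero => exact hc
  | succ n ih => exact continuous_cf _ ((continuous_pi_iff.mp ha) n) ih

/-- the compact set of admissible data (initial covector, coefficients) -/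
def Box : Set ((Fin 4 → ℝ) × (ℕ → ℝ)) :=
  (Set.pi univ fun α => Icc ((2:ℝ) ^ ((ctl 0).lo α) - 1) ((2:ℝ) ^ ((ctl 0).up α) - 1)) ×ˢ
  (Set.pi univ fun n => Icc ((2:ℝ) ^ ((ctl n).lo (stp n).cl)) ((2:ℝ) ^ ((ctl n).up (stp n).cl)))

theorem isCompact_Box : IsCompact Box :=
  (isCompact_univ_pi fun _ => isCompact_Icc).prod (isCompact_univ_pi fun _ => isCompact_Icc)

theorem Box_coef {b : (Fin 4 → ℝ) × (ℕ → ℝ)} (hb : b ∈ Box) (n : ℕ) :
    (2:ℝ) ^ ((ctl n).lo (stp n).cl) ≤ b.2 n ∧ b.2 n ≤ (2:ℝ) ^ ((ctl n).up (stp n).cl) :=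
  hb.2 n (mem_univ _)

theorem Box_pos {b : (Fin 4 → ℝ) × (ℕ → ℝ)} (hb : b ∈ Box) (n : ℕ) : 0 < b.2 n :=
  lt_of_lt_of_le (by positivity) (Box_coef hb n).1

theorem Box_JC {b : (Fin 4 → ℝ) × (ℕ → ℝ)} (hb : b ∈ Box) (n : ℕ) :
    JC (ctl n) (cN b.1 b.2 n) := by
  induction n with
  | zero =>
    have h0 := hb.1 0 (mem_univ _)
    have h1 := hb.1 1 (mem_univ _)
    have h2 := hb.1 2 (mem_univ _)
    have h3 := hb.1 3 (mem_univ _)
    simp only [ctl, Matrix.cons_val_zero, Matrix.cons_val_one, Matrix.cons_val] at h0 h1 h2 h3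
    have e1 : (2:ℝ) ^ (-4:ℤ) = 1 / 16 := by norm_num
    have e2 : (2:ℝ) ^ (-1:ℤ) = 1 / 2 := by norm_num
    have e3 : (2:ℝ) ^ (1:ℤ) = 2 := by norm_num
    have e4 : (2:ℝ) ^ (4:ℤ) = 16 := by norm_num
    rw [e1, e2] at h0 h1
    rw [e3, e4] at h2 h3
    obtain ⟨a0, b0⟩ := h0
    obtain ⟨a1, b1⟩ := h1
    obtain ⟨a2, b2⟩ := h2
    obtain ⟨a3, b3⟩ := h3
    constructor <;> simp [ctl, cN] <;> norm_num <;> linarith
  | succ n ih => exact JC.next (ctl_CI n) ih (Box_coef hb n).1 (Box_coef hb n).2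

/-- the final vector, positive and orthogonal to the covector -/
noncomputable def zfin (c : Fin 4 → ℝ) : Fin 4 → ℝ :=
  ![1, 1 + max (∑ α, c α) 0 / (-c 1), 1 + max (-∑ α, c α) 0 / c 2, 1]

theorem zfin_pos {t : Ctl} {c : Fin 4 → ℝ} (h : JC t c) (α : Fin 4) : 0 < zfin c α := by
  have h1 : 0 < -c 1 := by
    have := h.s1
    have h3 : (0:ℝ) < ((2:ℝ) ^ (t.k + 3))⁻¹ := by positivity
    linarith
  have h2 : 0 < c 2 := by linarith [h.n2]
  have e1 : 0 ≤ max (∑ α, c α) 0 / (-c 1) := div_nonneg (le_max_right _ _) h1.le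
  have e2 : 0 ≤ max (-∑ α, c α) 0 / c 2 := div_nonneg (le_max_right _ _) h2.le
  fin_cases α
  · simp [zfin]
  · simp only [zfin, Fin.mk_one, Matrix.cons_val_one, Matrix.cons_val_zero]; linarith
  · simp only [zfin, Fin.reduceFinMk, Matrix.cons_val]; linarith
  · simp [zfin]

theorem zfin_pair {t : Ctl} {c : Fin 4 → ℝ} (h : JC t c) : ∑ α, c α * zfin c α = 0 := by
  have h1 : c 1 ≠ 0 := by
    have := h.s1
    have h3 : (0:ℝ) < ((2:ℝ) ^ (t.k + 3))⁻¹ := by positivity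
    intro h0; rw [h0] at this; linarith
  have h2 : c 2 ≠ 0 := by have := h.n2; intro h0; rw [h0] at this; linarith
  obtain ⟨S, hS⟩ : ∃ S, S = ∑ α, c α := ⟨_, rfl⟩
  have e : c 0 + c 1 + c 2 + c 3 = S := by rw [hS, Fin.sum_univ_four]
  have h3 : max S 0 - max (-S) 0 = S := by
    rcases le_total 0 S with h | h
    · rw [max_eq_left h, max_eq_right (by linarith)]; ring
    · rw [max_eq_right h, max_eq_left (by linarith)]; ring
  simp only [zfin, ← hS, Fin.sum_univ_four, Matrix.cons_val_zero, Matrix.cons_val_one,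
    Matrix.cons_val]
  have e1 : c 1 * (1 + max S 0 / (-c 1)) = c 1 - max S 0 := by
    field_simp; ring
  have e2 : c 2 * (1 + max (-S) 0 / c 2) = c 2 + max (-S) 0 := by
    field_simp
  rw [e1, e2]; linarith

end Pool.Agent.Giem37
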