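import Pool.Agent.Lib_helper37.Giem.Lin

/-! Normalised vectors, uniform lower bounds and localisation. -/

set_option autoImplicit false

namespace Pool.Agent.Giem37

open Function Set Topology Filter

/-- normalised solution vector at stage `m` when one starts at stage `N` -/
noncomputable def zh (N : ℕ) (b : (Fin 4 → ℝ) × (ℕ → ℝ)) (m : ℕ) : Fin 4 → ℝ := fun α =>
  Zv b.2 N (zfin (cN b.1 b.2 N)) m α / ∑ β, Zv b.2 N (zfin (cN b.1 b.2 N)) 0 β

theorem zs_div (σ : Stp) (a s : ℝ) (z : Fin 4 → ℝ) :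
    zs σ a (fun α => z α / s) = fun α => zs σ a z α / s := by
  funext α
  unfold zs
  by_cases hσ : σ.top
  · simp only [hσ, if_true, update_apply]
    split_ifs
    · ring
    · rfl
  · simp only [hσ, if_false, Bool.false_eq_true, update_apply]
    split_ifs
    · ring
    · ring
    · rfl

variable {b : (Fin 4 → ℝ) × (ℕ → ℝ)}

theorem zraw_pos (hb : b ∈ Box) (N : ℕ) : ∀ m ≤ N, ∀ α, 0 < Zv b.2 N (zfin (cN b.1 b.2 N)) m α :=
  Zv_pos (Box_pos hb) N (zfin_pos (Box_JC hb N))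

theorem zsum_pos (hb : b ∈ Box) (N : ℕ) : 0 < ∑ β, Zv b.2 N (zfin (cN b.1 b.2 N)) 0 β :=
  Finset.sum_pos (fun α _ => zraw_pos hb N 0 (Nat.zero_le _) α) ⟨0, Finset.mem_univ 0⟩

theorem zh_pos (hb : b ∈ Box) (N : ℕ) {m : ℕ} (hm : m ≤ N) (α : Fin 4) : 0 < zh N b m α :=
  div_pos (zraw_pos hb N m hm α) (zsum_pos hb N)

theorem zh_sum (hb : b ∈ Box) (N : ℕ) : ∑ α, zh N b 0 α = 1 := by
  simp only [zh]
  rw [← Finset.sum_div, div_self (zsum_pos hb N).ne']

theorem zh_pair (hb : b ∈ Box) (N : ℕ) : ∑ α, b.1 α * zh N b 0 α = 0 := by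
  have h1 := Zv_pair b.1 b.2 N (zfin (cN b.1 b.2 N)) 0 (Nat.zero_le _)
  rw [zfin_pair (Box_JC hb N)] at h1
  simp only [zh]
  have h2 : ∀ α, b.1 α * (Zv b.2 N (zfin (cN b.1 b.2 N)) 0 α /
      ∑ β, Zv b.2 N (zfin (cN b.1 b.2 N)) 0 β) =
      (cN b.1 b.2 0 α * Zv b.2 N (zfin (cN b.1 b.2 N)) 0 α) /
      ∑ β, Zv b.2 N (zfin (cN b.1 b.2 N)) 0 β := by
    intro α; simp only [cN]; ring
  simp only [h2]
  rw [← Finset.sum_div, h1, zero_div]

theorem zh_step (N : ℕ) {m : ℕ} (hm : m < N) :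
    zh N b m = zs (stp m) (b.2 m) (zh N b (m + 1)) := by
  have h : zh N b (m + 1) = fun α => Zv b.2 N (zfin (cN b.1 b.2 N)) (m + 1) α /
      ∑ β, Zv b.2 N (zfin (cN b.1 b.2 N)) 0 β := rfl
  rw [h, zs_div, ← Zv_step b.2 hm]
  rfl

theorem continuous_zh (N : ℕ) {m : ℕ} (hm : m ≤ N) (α : Fin 4) :
    Continuous fun b : Box => zh N b.1 m α := by
  have h1 : Continuous fun b : Box => cN b.1.1 b.1.2 N :=
    continuous_cN (by fun_prop) (by fun_prop) N
  have h2 : Continuous fun b : Box => zfin (cN b.1.1 b.1.2 N) := by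
    have hc := continuous_pi_iff.mp h1
    have hS : Continuous fun b : Box => ∑ α, cN b.1.1 b.1.2 N α := continuous_finsetSum _ (fun i _ => hc i)
    apply continuous_pi
    intro α
    fin_cases α
    · simp only [zfin, Fin.zero_eta, Matrix.cons_val_zero]; exact continuous_const
    · simp only [zfin, Fin.mk_one, Matrix.cons_val_one, Matrix.cons_val_zero]
      refine continuous_const.add ((hS.max continuous_const).div (hc 1).neg (fun b => ?_))
      have := (Box_JC b.2 N).s1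
      have h3 : (0:ℝ) < ((2:ℝ) ^ ((ctl N).k + 3))⁻¹ := by positivity
      intro h0; linarith
    · simp only [zfin, Fin.reduceFinMk, Matrix.cons_val]
      refine continuous_const.add ((hS.neg.max continuous_const).div (hc 2) (fun b => ?_))
      have := (Box_JC b.2 N).n2
      intro h0; linarith
    · simp only [zfin, Fin.reduceFinMk, Matrix.cons_val]; exact continuous_const
  have h3 : ∀ m ≤ N, Continuous fun b : Box => Zv b.1.2 N (zfin (cN b.1.1 b.1.2 N)) m :=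
    continuous_Zv (by fun_prop) h2 N
  have h4 : ∀ m ≤ N, ∀ α, Continuous fun b : Box => Zv b.1.2 N (zfin (cN b.1.1 b.1.2 N)) m α :=
    fun m hm α => (continuous_pi_iff.mp (h3 m hm)) α
  unfold zh
  exact (h4 m hm α).div (continuous_finsetSum _ (fun i _ => h4 0 (Nat.zero_le _) i))
    (fun b => (zsum_pos b.2 N).ne')

theorem exists_kappa (N : ℕ) : ∃ κ > 0, ∀ b ∈ Box, ∀ m ≤ N, ∀ α, κ < zh N b m α := by
  have hK : CompactSpace Box := isCompact_iff_compactSpace.mp isCompact_Box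
  have h1 : ∀ (p : Fin (N + 1) × Fin 4), ∃ κ > 0, ∀ b ∈ Box, κ < zh N b p.1 p.2 := by
    intro p
    by_cases hne : Nonempty Box
    · obtain ⟨b0, -, hb0⟩ := isCompact_univ.exists_isMinOn (univ_nonempty (α := Box))
        (continuous_zh N (Nat.lt_succ_iff.mp p.1.2) p.2).continuousOn
      have h0 := zh_pos b0.2 N (Nat.lt_succ_iff.mp p.1.2) p.2
      refine ⟨zh N b0 p.1 p.2 / 2, half_pos h0, fun b hb => ?_⟩
      have h1 : zh N b0 p.1 p.2 ≤ zh N b p.1 p.2 := hb0 (mem_univ (⟨b, hb⟩ : Box))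
      linarith
    · exact ⟨1, one_pos, fun b hb => (hne ⟨⟨b, hb⟩⟩).elim⟩
  choose f hf1 hf2 using h1
  obtain ⟨p0, -, hp0⟩ := Finset.exists_min_image (Finset.univ : Finset (Fin (N + 1) × Fin 4)) f
    ⟨(0, 0), Finset.mem_univ _⟩
  refine ⟨f p0, hf1 p0, fun b hb m hm α => ?_⟩
  exact lt_of_le_of_lt (hp0 (⟨m, by omega⟩, α) (Finset.mem_univ _))
    (hf2 (⟨m, by omega⟩, α) b hb)

/-- multiplicative slopes along the path -/
def bd (v : Fin 4 → ℝ) : ℕ → Fin 4 → ℝ
  | 0 => v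
  | n + 1 => update (bd v n) (stp n).l (bd v n (stp n).l * bd v n (stp n).w)

/-- the resulting coefficients -/
def co (v : Fin 4 → ℝ) (n : ℕ) : ℝ := bd v n (stp n).cl

theorem bd_pos {v : Fin 4 → ℝ} (hv : ∀ α, 0 < v α) (n : ℕ) (α : Fin 4) : 0 < bd v n α := by
  induction n generalizing α with
  | zero => exact hv α
  | succ n ih =>
    simp only [bd, update_apply]
    split_ifs
    · exact mul_pos (ih _) (ih _)
    · exact ih _

theorem bd_mono {v v' : Fin 4 → ℝ} (hv : ∀ α, 0 < v α) (h : ∀ α, v α ≤ v' α) (n : ℕ) (α : Fin 4) :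
    bd v n α ≤ bd v' n α := by
  induction n generalizing α with
  | zero => exact h α
  | succ n ih =>
    simp only [bd, update_apply]
    split_ifs
    · exact mul_le_mul (ih _) (ih _) (bd_pos hv n _).le ((bd_pos hv n _).le.trans (ih _))
    · exact ih _

theorem bd_lo (n : ℕ) (α : Fin 4) : bd (fun α => (2:ℝ) ^ ((ctl 0).lo α)) n α =
    (2:ℝ) ^ ((ctl n).lo α) := by
  induction n generalizing α with
  | zero => rfl
  | succ n ih =>
    have h1 : (ctl (n + 1)).lo = expUp (stp n) (ctl n).lo := Ctl.next_lo (ctl n)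
    rw [h1]
    simp only [bd, expUp, update_apply, ih]
    split_ifs
    · rw [zpow_add₀ (by norm_num)]
    · rfl

theorem bd_up (n : ℕ) (α : Fin 4) : bd (fun α => (2:ℝ) ^ ((ctl 0).up α)) n α =
    (2:ℝ) ^ ((ctl n).up α) := by
  induction n generalizing α with
  | zero => rfl
  | succ n ih =>
    have h1 : (ctl (n + 1)).up = expUp (stp n) (ctl n).up := Ctl.next_up (ctl n)
    rw [h1]
    simp only [bd, expUp, update_apply, ih]
    split_ifs
    · rw [zpow_add₀ (by norm_num)]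
    · rfl

/-- slopes within the weak bounds give coefficients in the box -/
theorem mem_Box_of {c a : _} {m M : Fin 4 → ℝ}
    (hm : ∀ α, (2:ℝ) ^ ((ctl 0).lo α) ≤ m α) (hM : ∀ α, M α ≤ (2:ℝ) ^ ((ctl 0).up α))
    (hM0 : ∀ α, 0 < M α)
    (hc : ∀ α, m α - 1 ≤ c α ∧ c α ≤ M α - 1) (ha : ∀ n, co m n ≤ a n ∧ a n ≤ co M n) :
    ((c, a) : (Fin 4 → ℝ) × (ℕ → ℝ)) ∈ Box := by
  constructor
  · intro α _
    exact ⟨by linarith [hm α, (hc α).1], by linarith [hM α, (hc α).2]⟩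
  · intro n _
    constructor
    · rw [← bd_lo]
      exact (bd_mono (fun α => by positivity) hm n _).trans (ha n).1
    · rw [← bd_up]
      exact (ha n).2.trans (bd_mono hM0 hM n _)

theorem continuous_bd (n : ℕ) (α : Fin 4) : Continuous fun v : Fin 4 → ℝ => bd v n α := by
  induction n generalizing α with
  | zero => exact continuous_apply α
  | succ n ih =>
    simp only [bd, update_apply]
    split_ifs
    · exact (ih _).mul (ih _)
    · exact ih _

/-- the exact slopes -/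
noncomputable def sl0 : Fin 4 → ℝ := ![1 / 4, 1 / 4, 4, 4]

theorem sl0_pos (α : Fin 4) : 0 < sl0 α := by
  fin_cases α <;> simp [sl0]

/-- localisation of the normalised vectors for data close to the exact ones -/
theorem localise : ∃ η > 0, ∃ n : ℕ, ∀ᶠ b in 𝓝 (((fun α => sl0 α - 1), co sl0) :
    (Fin 4 → ℝ) × (ℕ → ℝ)), b ∈ Box → ∀ N ≥ n, (∀ α, η < zh N b 0 α) ∧
      |zh N b 0 0 + zh N b 0 1 - 4 / 5| < η / 4 := by
  obtain ⟨n, hn⟩ := exists_pos_block
  obtain ⟨b0, hb0⟩ : ∃ b0 : (Fin 4 → ℝ) × (ℕ → ℝ), b0 = ((fun α => sl0 α - 1), co sl0) :=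
    ⟨_, rfl⟩
  have hpos0 : ∀ k, 0 < b0.2 k := by rw [hb0]; exact fun k => bd_pos sl0_pos k _
  have hSc : IsCompact (stdSimplex ℝ (Fin 4)) := isCompact_stdSimplex ℝ (Fin 4)
  have hne : ∀ z ∈ stdSimplex ℝ (Fin 4), z ≠ 0 := by
    intro z hz h0
    have := hz.2
    rw [h0] at this; simp at this
  -- normalised
  let nv : ((Fin 4 → ℝ) × (ℕ → ℝ)) → (Fin 4 → ℝ) → Fin 4 → ℝ := fun b z α =>
    Zv b.2 n z 0 α / ∑ β, Zv b.2 n z 0 β
  have hvpos : ∀ z ∈ stdSimplex ℝ (Fin 4), ∀ α, 0 < Zv b0.2 n z 0 α :=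
    fun z hz => hn b0.2 hpos0 z hz.1 (hne z hz)
  have hsumpos : ∀ z ∈ stdSimplex ℝ (Fin 4), 0 < ∑ β, Zv b0.2 n z 0 β := fun z hz =>
    Finset.sum_pos (fun α _ => hvpos z hz α) ⟨0, Finset.mem_univ 0⟩
  have hcZ : ∀ α, Continuous fun p : ((Fin 4 → ℝ) × (ℕ → ℝ)) × (Fin 4 → ℝ) =>
      Zv p.1.2 n p.2 0 α := fun α =>
    (continuous_pi_iff.mp (continuous_Zv (by fun_prop) (by fun_prop) n 0 (Nat.zero_le _))) α
  have hcS : Continuous fun p : ((Fin 4 → ℝ) × (ℕ → ℝ)) × (Fin 4 → ℝ) =>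
      ∑ β, Zv p.1.2 n p.2 0 β := continuous_finsetSum _ (fun i _ => hcZ i)
  have hcn : ∀ z ∈ stdSimplex ℝ (Fin 4), ∀ α, ContinuousAt
      (fun p : ((Fin 4 → ℝ) × (ℕ → ℝ)) × (Fin 4 → ℝ) => nv p.1 p.2 α) (b0, z) := by
    intro z hz α
    exact (hcZ α).continuousAt.div hcS.continuousAt (hsumpos z hz).ne'
  -- lower bound for the exact data
  obtain ⟨η, hη, hηle⟩ : ∃ η > 0, ∀ z ∈ stdSimplex ℝ (Fin 4), ∀ α, η < nv b0 z α := by
    have h1 : ∀ α : Fin 4, ∃ η > 0, ∀ z ∈ stdSimplex ℝ (Fin 4), η < nv b0 z α := by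
      intro α
      obtain ⟨z0, hz0, hmin⟩ := hSc.exists_isMinOn ⟨_, single_mem_stdSimplex ℝ (0 : Fin 4)⟩
        (f := fun z => nv b0 z α) (fun z hz =>
          ((hcn z hz α).comp (f := fun z => (b0, z)) (by fun_prop)).continuousWithinAt)
      have h2 : 0 < nv b0 z0 α := div_pos (hvpos z0 hz0 α) (hsumpos z0 hz0)
      refine ⟨nv b0 z0 α / 2, half_pos h2, fun z hz => ?_⟩
      have : nv b0 z0 α ≤ nv b0 z α := hmin hz
      linarith
    choose f hf1 hf2 using h1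
    obtain ⟨α0, -, h0⟩ := Finset.exists_min_image (Finset.univ : Finset (Fin 4)) f
      ⟨0, Finset.mem_univ _⟩
    exact ⟨f α0, hf1 α0, fun z hz α => lt_of_le_of_lt (h0 α (Finset.mem_univ _)) (hf2 α z hz)⟩
  have hev : ∀ᶠ b in 𝓝 b0, ∀ z ∈ stdSimplex ℝ (Fin 4), (∑ α, b.1 α * Zv b.2 n z 0 α ≠ 0) ∨
      ((∀ α, η < nv b z α) ∧ |nv b z 0 + nv b z 1 - 4 / 5| < η / 4) := by
    apply hSc.eventually_forall_of_forall_eventually
    intro z hz
    by_cases h0 : ∑ α, b0.1 α * Zv b0.2 n z 0 α = 0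
    · have e1 : ∀ α, ∀ᶠ p : ((Fin 4 → ℝ) × (ℕ → ℝ)) × (Fin 4 → ℝ) in 𝓝 (b0, z),
          η < nv p.1 p.2 α := fun α => (hcn z hz α).eventually_const_lt (hηle z hz α)
      have e2 : nv b0 z 0 + nv b0 z 1 - 4 / 5 = 0 := by
        have hs := (hsumpos z hz).ne'
        have h1 : ∑ α, nv b0 z α = 1 := by
          simp only [nv]; rw [← Finset.sum_div, div_self hs]
        have h2 : ∑ α, b0.1 α * nv b0 z α = 0 := by
          have : ∀ α, b0.1 α * nv b0 z α = (b0.1 α * Zv b0.2 n z 0 α) /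
            ∑ β, Zv b0.2 n z 0 β := fun α => by simp only [nv]; ring
          simp only [this]
          rw [← Finset.sum_div, h0, zero_div]
        rw [Fin.sum_univ_four] at h1 h2
        have f0 : b0.1 0 = -3 / 4 := by rw [hb0]; simp [sl0]; norm_num
        have f1 : b0.1 1 = -3 / 4 := by rw [hb0]; simp [sl0]; norm_num
        have f2 : b0.1 2 = 3 := by rw [hb0]; simp [sl0]; norm_num
        have f3 : b0.1 3 = 3 := by rw [hb0]; simp [sl0]; norm_num
        rw [f0, f1, f2, f3] at h2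
        linarith
      have e3 : ∀ᶠ p : ((Fin 4 → ℝ) × (ℕ → ℝ)) × (Fin 4 → ℝ) in 𝓝 (b0, z),
          |nv p.1 p.2 0 + nv p.1 p.2 1 - 4 / 5| < η / 4 := by
        have hc : ContinuousAt (fun p : ((Fin 4 → ℝ) × (ℕ → ℝ)) × (Fin 4 → ℝ) =>
            |nv p.1 p.2 0 + nv p.1 p.2 1 - 4 / 5|) (b0, z) :=
          (((hcn z hz 0).add (hcn z hz 1)).sub continuousAt_const).abs
        apply hc.eventually_lt_const
        simp only
        rw [e2, abs_zero]; positivity
      filter_upwards [eventually_all.mpr e1, e3] with p h1 h2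
      exact Or.inr ⟨h1, h2⟩
    · have hc : Continuous fun p : ((Fin 4 → ℝ) × (ℕ → ℝ)) × (Fin 4 → ℝ) =>
          ∑ α, p.1.1 α * Zv p.1.2 n p.2 0 α :=
        continuous_finsetSum _ (fun i _ => Continuous.mul (by fun_prop) (hcZ i))
      filter_upwards [hc.continuousAt.eventually_ne h0] with p hp
      exact Or.inl hp
  refine ⟨η, hη, n, ?_⟩
  rw [← hb0]
  filter_upwards [hev] with b hb hbB N hN
  -- the vector at stage n
  obtain ⟨z, hz⟩ : ∃ z, z = Zv b.2 N (zfin (cN b.1 b.2 N)) n := ⟨_, rfl⟩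
  have hzpos : ∀ α, 0 < z α := by rw [hz]; exact zraw_pos hbB N n hN
  have hs : 0 < ∑ β, z β := Finset.sum_pos (fun α _ => hzpos α) ⟨0, Finset.mem_univ 0⟩
  have hmem : (fun α => z α / ∑ β, z β) ∈ stdSimplex ℝ (Fin 4) :=
    ⟨fun α => (div_pos (hzpos α) hs).le, by rw [← Finset.sum_div, div_self hs.ne']⟩
  have hdiv : ∀ m ≤ n, Zv b.2 n (fun α => z α / ∑ β, z β) m =
      fun α => Zv b.2 n z m α / ∑ β, z β := by
    apply desc
    · rw [Zv_self, Zv_self]
    · intro m hm ih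
      rw [Zv_step b.2 hm, ih, zs_div, ← Zv_step b.2 hm]
  have hzh : ∀ α, zh N b 0 α = nv b (fun α => z α / ∑ β, z β) α := by
    intro α
    simp only [zh, nv]
    rw [Zv_comp b.2 hN _ 0 (Nat.zero_le _), ← hz, hdiv 0 (Nat.zero_le _)]
    simp only
    rw [← Finset.sum_div]
    field_simp
  rcases hb _ hmem with h | h
  · exfalso
    apply h
    have h1 := zh_pair hbB N
    rw [hdiv 0 (Nat.zero_le _)]
    have h2 := Zv_pair b.1 b.2 N (zfin (cN b.1 b.2 N)) 0 (Nat.zero_le _)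
    rw [zfin_pair (Box_JC hbB N), Zv_comp b.2 hN _ 0 (Nat.zero_le _), ← hz] at h2
    simp only [cN] at h2
    have h3 : ∀ α, b.1 α * (Zv b.2 n z 0 α / ∑ β, z β) = (b.1 α * Zv b.2 n z 0 α) / ∑ β, z β :=
      fun α => by ring
    simp only [h3]
    rw [← Finset.sum_div, h2, zero_div]
  · simp only [hzh]
    exact h

end Pool.Agent.Giem37
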