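import Pool.Agent.Lib_helper37.Giem.Semi

/-! The standard map and the conclusion. -/

set_option autoImplicit false

namespace Pool.Agent.Giem37

open Function Set Topology Filter

variable {r : ℕ}

/-- a standard map with given lengths -/
def mkStd (r : ℕ) (v : Fin 4 → ℝ) (hv : ∀ α, 0 < v α) (hs : v 0 + v 1 + v 2 + v 3 = 1) :
    GIEM 4 r :=
  (mkPart (v 0) (v 0 + v 1) (v 0 + v 1 + v 2) (hv 0) (by linarith [hv 1]) (by linarith [hv 2])
    (by linarith [hv 3]),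
   mkPart (v 3) (v 3 + v 1) (v 3 + v 1 + v 0) (hv 3) (by linarith [hv 1]) (by linarith [hv 0])
    (by linarith [hv 2]), fun _ => UnitDiffeo.id r)

theorem mkStd_std {v : Fin 4 → ℝ} (hv : ∀ α, 0 < v α) (hs : v 0 + v 1 + v 2 + v 3 = 1) :
    IsStandard pi0 (mkStd r v hv hs) := by
  intro α
  refine ⟨?_, fun _ => rfl⟩
  fin_cases α
  · show (v 3 + v 1 + v 0) - (v 3 + v 1) = v 0 - 0
    ring
  · show (v 3 + v 1) - v 3 = (v 0 + v 1) - v 0
    ring
  · show 1 - (v 3 + v 1 + v 0) = (v 0 + v 1 + v 2) - (v 0 + v 1)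
    linarith
  · show v 3 - 0 = 1 - (v 0 + v 1 + v 2)
    linarith

theorem std_tra (hr : 1 ≤ r) {T : GIEM 4 r} (hT : IsStandard pi0 T) : Tra (st0 hr T) := by
  intro α
  obtain ⟨h1, h2⟩ := hT α
  refine ⟨bl pi0 T α - tl pi0 T α, fun x => ?_⟩
  show branch pi0 T α x = _
  unfold branch
  rw [h2, h1]
  have := tl_lt_tr T α
  have h3 : tr pi0 T α - tl pi0 T α ≠ 0 := by linarith
  field_simp
  ring

theorem std_good (hr : 1 ≤ r) {v : Fin 4 → ℝ} (hv : ∀ α, 0 < v α)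
    (hs : v 0 + v 1 + v 2 + v 3 = 1) (hx : ∀ n α, 0 < fx n v α) :
    Good (st0 hr (mkStd r v hv hs)) := by
  have ht := std_tra hr (mkStd_std (r := r) hv hs)
  have hx0 : (st0 hr (mkStd r v hv hs)).x = v := by
    funext α
    fin_cases α
    · show v 0 - 0 = v 0
      ring
    · show (v 0 + v 1) - v 0 = v 1
      ring
    · show (v 0 + v 1 + v 2) - (v 0 + v 1) = v 2
      ring
    · show 1 - (v 0 + v 1 + v 2) = v 3
      linarith
  refine ⟨st0_inv hr _, st0_end hr _, fun n α => ?_⟩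
  have h1 := tra_x (st0_inv hr (mkStd r v hv hs)) ht n
  rw [hx0] at h1
  have h2 : (run (st0 hr (mkStd r v hv hs)) n).x α = fx n v α := by rw [h1]
  have h3 := hx n α
  rw [← h2] at h3
  unfold St.x at h3
  linarith

theorem noConn (hr : 1 ≤ r) {T : GIEM 4 r} (h : Good (st0 hr T)) (ht : Tra (st0 hr T)) :
    NoConnection pi0 T := by
  have key : ∀ (α β : Fin 4) (m : ℕ), α ≠ 3 → (gmap pi0 T)^[m] (bl pi0 T α) ≠ tl pi0 T β := by
    intro α β m hα
    have h1 := no_conn h ht hα m β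
    have h2 : (st0 hr T).g α ((st0 hr T).p α) = bl pi0 T α := branch_tl T α
    rw [h2] at h1
    have h3 : 0 ≤ bl pi0 T α := by
      rw [← h2]; exact (h.ord 0).q_nonneg α
    have h4 : bl pi0 T α < 1 := by
      have h5 := (h.ord 0).gr_le α
      have h6 : (st0 hr T).g α ((st0 hr T).p α) < (st0 hr T).g α ((st0 hr T).r α) :=
        ((st0 hr T).g α).strictMono (h.pos 0 α)
      have h7 : (run (st0 hr T) 0).r ((ctl 0).ph.tO 3) = 1 := h.fin
      rw [h7] at h5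
      rw [← h2]
      exact h6.trans_le h5
    have h5 : ∀ m, (gmap pi0 T)^[m] (bl pi0 T α) = (st0 hr T).mp^[m] (bl pi0 T α) := by
      intro m
      induction m with
      | zero => rfl
      | succ m ih =>
        rw [iterate_succ_apply', iterate_succ_apply', ih]
        exact gmap_eq hr T (h.iter_mem h3 h4 m).1 (h.iter_mem h3 h4 m).2
    rw [h5]; exact h1
  have hb : ∀ i : Fin 5, i ≠ 0 → i ≠ Fin.last 4 → ∃ α, α ≠ 3 ∧ T.2.1.pt i = bl pi0 T α := by
    intro i h0 h4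
    fin_cases i
    · exact absurd rfl h0
    · exact ⟨1, by decide, rfl⟩
    · exact ⟨0, by decide, rfl⟩
    · exact ⟨2, by decide, rfl⟩
    · exact absurd rfl h4
  have ht' : ∀ j : Fin 5, j ≠ Fin.last 4 → ∃ β, T.1.pt j = tl pi0 T β := by
    intro j h4
    fin_cases j
    · exact ⟨0, rfl⟩
    · exact ⟨1, rfl⟩
    · exact ⟨2, rfl⟩
    · exact ⟨3, rfl⟩
    · exact absurd rfl h4
  intro m i j hi0 hi4 hj0 hj4
  obtain ⟨α, hα, h1⟩ := hb i hi0 hi4
  obtain ⟨β, h2⟩ := ht' j hj4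
  rw [h1, h2]
  exact key α β m hα

/-- a set containing `PP` is not a submanifold of codimension `k ≥ 3` -/
theorem not_sub (hr : 1 ≤ r) {k : ℕ} (hk : 3 ≤ k) {S : Set (GIEM 4 r)}
    (hS : PP (r := r) hr ⊆ S) : ¬ IsTopSubmanifold k S := by
  intro h
  apply not_locFlat hr hk
  intro T hT
  obtain ⟨E, i1, i2, i3, φ, h1, h2⟩ := h T (hS hT)
  refine ⟨E, i1, i2, φ, h1, fun T' hT' hs => ?_⟩
  have h3 : φ T' ∈ φ '' (φ.source ∩ S) := ⟨T', ⟨hs, hS hT'⟩, rfl⟩
  rw [h2] at h3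
  exact h3.2

theorem main_thm : pi0.Irreducible ∧ ∀ r : ℕ, 1 ≤ r → ∃ T0 : GIEM 4 r,
    IsStandard pi0 T0 ∧ NoConnection pi0 T0 ∧
    ∀ S : Set (GIEM 4 r), (∀ T, SemiConj pi0 T T0 → BranchSemiConj pi0 T T0 → T ∈ S) →
      ∀ k, 3 ≤ k → ¬ IsTopSubmanifold k S := by
  refine ⟨pi0_irreducible, fun r hr => ?_⟩
  obtain ⟨v, hv1, hv2⟩ := exists_std
  have hv : ∀ α, 0 < v α := hv2 0
  rw [Fin.sum_univ_four] at hv1
  have hstd := mkStd_std (r := r) hv hv1
  have ht := std_tra hr hstd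
  have hg := std_good hr hv hv1 hv2
  refine ⟨mkStd r v hv hv1, hstd, noConn hr hg ht, fun S hS k hk => ?_⟩
  exact not_sub hr hk (fun T hT => hS T (semiConj_of hr hT hg ht) (branchSemiConj_of hr hT hg ht))

end Pool.Agent.Giem37
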