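import Pool.Agent.Lib_helper37.Giem.Words

/-! Return, covering, visits, order. -/

set_option autoImplicit false

namespace Pool.Agent.Giem37

open Function Set Topology Filter

theorem next_last (c : Ctl) : (c.ph.stp.top = true → c.next.ph.tO 3 = c.ph.stp.w) ∧
    (c.ph.stp.top = false → c.next.ph.bO 3 = c.ph.stp.w) := by
  obtain ⟨ph, cnt, k, ex, lo, up⟩ := c
  cases ph <;> simp [Ctl.next, Ph.stp, Ph.tO, Ph.bO] <;> by_cases hc : cnt ≤ 1 <;> simp [hc]

theorem cc_zero {s : St} (h : Good s) : cc s 0 = 1 := h.fin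

theorem cc_top {s : St} (h : Good s) {n : ℕ} (htop : (stp n).top = true) :
    cc s (n + 1) = (run s n).g (stp n).l ((run s n).p (stp n).l) := by
  unfold cc
  have h1 : (ctl (n + 1)).ph.tO 3 = (stp n).w := (next_last (ctl n)).1 htop
  rw [h1, (topStep h.inv htop).rw]

theorem cc_bot {s : St} (h : Good s) {n : ℕ} (htop : (stp n).top = false) :
    cc s (n + 1) = (run s n).p (stp n).l := by
  unfold cc
  have h1 : (ctl (n + 1)).ph.bO 3 = (stp n).w := (next_last (ctl n)).2 htop
  have h2 := (run_inv h.inv (n + 1)).e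
  obtain ⟨τ, hS⟩ := botStep h.inv htop
  rw [h2, h1, hS.g _ (stp_ne n), hS.rw, hS.gτ]

theorem cc_pos {s : St} (h : Good s) (n : ℕ) : 0 < cc s n :=
  lt_of_le_of_lt ((h.ord n).p_nonneg ((ctl n).ph.tO 3)) (h.pos n _)

theorem Good.letter {s : St} (h : Good s) (n : ℕ) {x : ℝ} (h0 : 0 ≤ x) (h1 : x < cc s n) :
    ∃ α, (run s n).p α ≤ x ∧ x < (run s n).r α := (h.ord n).cover x h0 h1

/-- every orbit enters `[0, c_n)` -/
theorem Good.ret {s : St} (h : Good s) (n : ℕ) {x : ℝ} (hx0 : 0 ≤ x) (hx1 : x < 1) :
    ∃ k, s.mp^[k] x < cc s n := by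
  induction n with
  | zero => exact ⟨0, by rw [cc_zero h]; exact hx1⟩
  | succ n ih =>
    obtain ⟨k, hk⟩ := ih
    obtain ⟨y, hy⟩ : ∃ y, y = s.mp^[k] x := ⟨_, rfl⟩
    have hy0 : 0 ≤ y := by rw [hy]; exact (h.iter_mem hx0 hx1 k).1
    rw [← hy] at hk
    by_cases hlt : y < cc s (n + 1)
    · exact ⟨k, by rw [← hy]; exact hlt⟩
    · rw [not_lt] at hlt
      have ho := h.ord n
      have key : ∀ α, (run s n).p α ≤ y → y < (run s n).r α → (run s n).g α y < cc s (n + 1) →
          ∃ k, s.mp^[k] x < cc s (n + 1) := by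
        intro α h1 h2 h3
        have h4 := ((h.fol n α y h1 h2).iter h.chain).1
        refine ⟨(wd n α).length + k, ?_⟩
        rw [iterate_add_apply, ← hy, h4]; exact h3
      cases htop : (stp n).top
      · obtain ⟨τ, hS⟩ := botStep h.inv htop
        rw [cc_bot h htop] at hlt key ⊢
        have h2 : y < (run s n).r (stp n).l := by rw [hS.llast]; exact hk
        apply key _ hlt h2
        have h3 : (run s n).g (stp n).l y < (run s n).g (stp n).l ((run s n).r (stp n).l) :=
          ((run s n).g _).strictMono h2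
        have h4 := ho.bot_lt (stp n).l (by rw [← hS.wlast]; exact (stp_ne n).symm)
        rw [← hS.wlast] at h4
        have h5 : (run s n).g (stp n).w ((run s n).p (stp n).w) ≤ (run s n).g (stp n).w τ := by
          apply ((run s n).g _).monotone
          have := h.pos (n + 1) (stp n).w
          rw [hS.rw, hS.p _ (stp_ne n)] at this
          exact this.le
        rw [hS.gτ] at h5
        linarith
      · have hS := topStep h.inv htop
        rw [cc_top h htop] at hlt key ⊢
        have h2 : y < (run s n).r (stp n).w := by rw [hS.wlast]; exact hk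
        have h1 : (run s n).p (stp n).w ≤ y := by
          have := h.pos (n + 1) (stp n).w
          rw [hS.rw, hS.p] at this
          linarith
        apply key _ h1 h2
        have h3 : (run s n).g (stp n).w y < (run s n).g (stp n).w ((run s n).r (stp n).w) :=
          ((run s n).g _).strictMono h2
        have h4 := ho.bot_lt (stp n).w (by rw [← hS.llast]; exact stp_ne n)
        rw [← hS.llast] at h4
        linarith

/-- every point is in a floor of a tower -/
theorem Good.cov {s : St} (h : Good s) (n : ℕ) {x : ℝ} (hx0 : 0 ≤ x) (hx1 : x < 1) :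
    ∃ α z W1 W2, wd n α = W1 ++ W2 ∧ ((run s n).p α ≤ z ∧ z < (run s n).r α) ∧ Fol s W1 z x := by
  induction n with
  | zero =>
    obtain ⟨h1, h2⟩ := h.chain.lt_mem hx0 hx1
    exact ⟨s.lt x, x, [], [s.lt x], rfl, ⟨h1, h2⟩, rfl⟩
  | succ n ih =>
    obtain ⟨α, z, W1, W2, hW, ⟨hz1, hz2⟩, hf⟩ := ih
    cases htop : (stp n).top
    · obtain ⟨τ, hS⟩ := botStep h.inv htop
      by_cases hl : α = (stp n).l
      · rw [hl] at hW hz1 hz2
        obtain ⟨z', hz'⟩ : ∃ z', (run s n).g (stp n).w z' = z := ((run s n).g _).surjective z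
        have h1 : τ ≤ z' := by
          rw [← ((run s n).g (stp n).w).le_iff_le, hS.gτ, hz']; exact hz1
        have h2 : z' < (run s n).r (stp n).w := by
          rw [← ((run s n).g (stp n).w).lt_iff_lt, ← hS.e, hz']; exact hz2
        refine ⟨(stp n).l, z', wd n (stp n).w ++ W1, W2, ?_, ⟨?_, ?_⟩, ?_⟩
        · rw [wd_bot htop, hW, List.append_assoc]
        · rw [hS.pl]; exact h1
        · rw [hS.rl]; exact h2
        · apply Fol.append _ hf
          rw [← hz']
          apply h.fol n _ _ _ h2
          have := h.pos (n + 1) (stp n).w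
          rw [hS.rw, hS.p _ (stp_ne n)] at this
          linarith
      · by_cases hw : α = (stp n).w
        · rw [hw] at hW hz1 hz2
          by_cases hzτ : z < τ
          · refine ⟨(stp n).w, z, W1, W2, ?_, ⟨?_, ?_⟩, hf⟩
            · rw [wd_ne (stp_ne n), hW]
            · rw [hS.p _ (stp_ne n)]; exact hz1
            · rw [hS.rw]; exact hzτ
          · refine ⟨(stp n).l, z, W1, W2 ++ wd n (stp n).l, ?_, ⟨?_, ?_⟩, hf⟩
            · rw [wd_bot htop, hW, List.append_assoc]
            · rw [hS.pl]; exact not_lt.mp hzτ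
            · rw [hS.rl]; exact hz2
        · refine ⟨α, z, W1, W2, ?_, ⟨?_, ?_⟩, hf⟩
          · rw [wd_ne hl, hW]
          · rw [hS.p _ hl]; exact hz1
          · rw [hS.r _ hw hl]; exact hz2
    · have hS := topStep h.inv htop
      by_cases hw : α = (stp n).w
      · rw [hw] at hW hz1 hz2
        by_cases hzc : z < (run s n).g (stp n).l ((run s n).p (stp n).l)
        · refine ⟨(stp n).w, z, W1, W2, ?_, ⟨?_, ?_⟩, hf⟩
          · rw [wd_ne (stp_ne n), hW]
          · rw [hS.p]; exact hz1
          · rw [hS.rw]; exact hzc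
        · rw [not_lt] at hzc
          obtain ⟨z', hz'⟩ : ∃ z', (run s n).g (stp n).l z' = z := ((run s n).g _).surjective z
          have h1 : (run s n).p (stp n).l ≤ z' := by
            rw [← ((run s n).g (stp n).l).le_iff_le, hz']; exact hzc
          have h2 : z' < (run s n).r (stp n).l := by
            rw [← ((run s n).g (stp n).l).lt_iff_lt, ← hS.e, hz']; exact hz2
          refine ⟨(stp n).l, z', wd n (stp n).l ++ W1, W2, ?_, ⟨?_, ?_⟩, ?_⟩
          · rw [wd_top htop, hW, List.append_assoc]
          · rw [hS.p]; exact h1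
          · rw [hS.r _ (stp_ne n).symm]; exact h2
          · apply Fol.append _ hf
            rw [← hz']
            exact h.fol n _ _ h1 h2
      · by_cases hl : α = (stp n).l
        · rw [hl] at hW hz1 hz2
          refine ⟨(stp n).l, z, W1, W2 ++ wd n (stp n).w, ?_, ⟨?_, ?_⟩, hf⟩
          · rw [wd_top htop, hW, List.append_assoc]
          · rw [hS.p]; exact hz1
          · rw [hS.r _ (stp_ne n).symm]; exact hz2
        · refine ⟨α, z, W1, W2, ?_, ⟨?_, ?_⟩, hf⟩
          · rw [wd_ne hl, hW]
          · rw [hS.p]; exact hz1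
          · rw [hS.r _ hw]; exact hz2

/-- the orbit of `0` visits all induced intervals -/
theorem Good.orb {s : St} (h : Good s) (n : ℕ) (α : Fin 4) :
    ∃ m, (run s n).p α ≤ s.mp^[m] 0 ∧ s.mp^[m] 0 < (run s n).r α := by
  let Z : ℕ → Set (Fin 4) := fun n =>
    {α | ¬ ∃ m, (run s n).p α ≤ s.mp^[m] 0 ∧ s.mp^[m] 0 < (run s n).r α}
  have hw : ∀ n, (∃ m, (run s (n + 1)).p (stp n).l ≤ s.mp^[m] 0 ∧
      s.mp^[m] 0 < (run s (n + 1)).r (stp n).l) →
      (∃ m, (run s n).p (stp n).w ≤ s.mp^[m] 0 ∧ s.mp^[m] 0 < (run s n).r (stp n).w) ∧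
      (∃ m, (run s n).p (stp n).l ≤ s.mp^[m] 0 ∧ s.mp^[m] 0 < (run s n).r (stp n).l) := by
    rintro n ⟨m, h1, h2⟩
    cases htop : (stp n).top
    · obtain ⟨τ, hS⟩ := botStep h.inv htop
      rw [hS.pl] at h1
      rw [hS.rl] at h2
      have h3 : (run s n).p (stp n).w ≤ s.mp^[m] 0 := by
        have := h.pos (n + 1) (stp n).w
        rw [hS.rw, hS.p _ (stp_ne n)] at this
        linarith
      refine ⟨⟨m, h3, h2⟩, ?_⟩
      have h4 := ((h.fol n _ _ h3 h2).iter h.chain).1
      refine ⟨(wd n (stp n).w).length + m, ?_⟩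
      rw [iterate_add_apply, h4]
      constructor
      · rw [← hS.gτ]; exact ((run s n).g _).monotone h1
      · rw [hS.e]; exact ((run s n).g _).strictMono h2
    · have hS := topStep h.inv htop
      rw [hS.p] at h1
      rw [hS.r _ (stp_ne n).symm] at h2
      refine ⟨?_, ⟨m, h1, h2⟩⟩
      have h4 := ((h.fol n _ _ h1 h2).iter h.chain).1
      refine ⟨(wd n (stp n).l).length + m, ?_⟩
      rw [iterate_add_apply, h4]
      constructor
      · have h5 := h.pos (n + 1) (stp n).w
        rw [hS.rw, hS.p] at h5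
        have := ((run s n).g (stp n).l).monotone h1
        linarith
      · rw [hS.e]; exact ((run s n).g _).strictMono h2
  have hZ : Prop1 Z := by
    constructor
    · intro n α hα hc
      apply hα
      by_cases hl : α = (stp n).l
      · rw [hl] at hc ⊢; exact (hw n hc).2
      · obtain ⟨m, h1, h2⟩ := hc
        refine ⟨m, ?_⟩
        cases htop : (stp n).top
        · obtain ⟨τ, hS⟩ := botStep h.inv htop
          rw [hS.p _ hl] at h1
          refine ⟨h1, ?_⟩
          by_cases hw : α = (stp n).w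
          · rw [hw] at h2 ⊢
            rw [hS.rw] at h2
            have := h.pos (n + 1) (stp n).l
            rw [hS.pl, hS.rl] at this
            linarith
          · rwa [hS.r _ hw hl] at h2
        · have hS := topStep h.inv htop
          rw [hS.p] at h1
          refine ⟨h1, ?_⟩
          by_cases hw : α = (stp n).w
          · rw [hw] at h2 ⊢
            rw [hS.rw] at h2
            rw [hS.e]
            exact h2.trans (((run s n).g _).strictMono (h.pos n _))
          · rwa [hS.r _ hw] at h2
    · intro n hα hc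
      exact hα (hw n hc).1
  have hne : ∀ n, Z n ≠ univ := by
    intro n hc
    have h1 : (0 : Fin 4) ∈ Z n := by rw [hc]; trivial
    apply h1
    have ho := h.ord n
    refine ⟨0, ?_, ?_⟩
    · rw [ho.p0]; exact le_rfl
    · have := h.pos n 0
      rw [ho.p0] at this
      exact this
  have h1 := no_propagate hZ hne n
  by_contra hc
  have h2 : α ∈ Z n := hc
  rw [h1] at h2
  exact h2

/-- same itinerary up to time `k` preserves the order -/
theorem iter_lt {s : St} {x y : ℝ} (hxy : x < y) {k : ℕ}
    (h : ∀ j < k, s.lt (s.mp^[j] x) = s.lt (s.mp^[j] y)) : s.mp^[k] x < s.mp^[k] y := by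
  induction k with
  | zero => exact hxy
  | succ k ih =>
    have h1 := ih (fun j hj => h j (by omega))
    rw [iterate_succ_apply', iterate_succ_apply']
    have h2 : ∀ z, s.mp z = s.g (s.lt z) z := fun z => rfl
    rw [h2 (s.mp^[k] x), h2 (s.mp^[k] y), h k (by omega)]
    exact (s.g _).strictMono h1

theorem iter_le {s : St} {x y : ℝ} (hxy : x ≤ y) {k : ℕ}
    (h : ∀ j < k, s.lt (s.mp^[j] x) = s.lt (s.mp^[j] y)) : s.mp^[k] x ≤ s.mp^[k] y := by
  rcases hxy.lt_or_eq with h1 | h1
  · exact (iter_lt h1 h).le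
  · rw [h1]

/-- the order is decided by the itineraries -/
theorem order_transfer {s s' : St} (h : Chain s) (h' : Chain s') {x y x' y' : ℝ}
    (hx : ∀ k, s.lt (s.mp^[k] x) = s'.lt (s'.mp^[k] x'))
    (hy : ∀ k, s.lt (s.mp^[k] y) = s'.lt (s'.mp^[k] y'))
    (hlt : x' < y') (hne : ∃ k, s'.lt (s'.mp^[k] x') ≠ s'.lt (s'.mp^[k] y')) : x < y := by
  classical
  have hmin := fun j (hj : j < Nat.find hne) => not_not.mp (Nat.find_min hne hj)
  obtain ⟨k, hk⟩ : ∃ k, k = Nat.find hne := ⟨_, rfl⟩
  have hspec := Nat.find_spec hne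
  rw [← hk] at hmin hspec
  have h1 := iter_lt hlt hmin
  have h2 : s'.lt (s'.mp^[k] x') < s'.lt (s'.mp^[k] y') :=
    lt_of_le_of_ne (h'.lt_mono h1.le) hspec
  by_contra hc
  rw [not_lt] at hc
  have h3 := iter_le hc (k := k) (fun j hj => by rw [hx j, hy j, hmin j hj])
  have h4 := h.lt_mono h3
  rw [hx, hy] at h4
  exact absurd h2 (not_lt.mpr h4)

/-- points of a floor other than the left endpoint are not top endpoints -/
theorem Good.no_left {s : St} (h : Good s) {n : ℕ} {α : Fin 4} {x : ℝ}
    (h1 : (run s n).p α < x) (h2 : x < (run s n).r α) {k : ℕ} (hk : k < (wd n α).length)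
    (β : Fin 4) : s.mp^[k] x ≠ s.p β := by
  have f1 := (h.fol n α x h1.le h2).iter h.chain
  have f2 := (h.fol n α _ le_rfl (h.pos n α)).iter h.chain
  have h3 : s.mp^[k] ((run s n).p α) < s.mp^[k] x :=
    iter_lt h1 (fun j hj => by rw [f1.2 j (by omega), f2.2 j (by omega)])
  intro hc
  have h4 : s.lt (s.mp^[k] x) = β := by
    rw [hc]; exact h.chain.lt_eq le_rfl (h.pos 0 β)
  have h5 : s.lt (s.mp^[k] ((run s n).p α)) = β := by
    rw [f2.2 k hk, ← f1.2 k hk]; exact h4
  have h0 : 0 ≤ (run s n).p α := (h.ord n).p_nonneg α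
  have hc1 : (run s n).p α < 1 := by
    have a1 := h.pos n α
    have a2 := (h.ord n).r_le α
    have a3 : ∀ m, cc s m ≤ 1 := by
      intro m
      induction m with
      | zero => exact (cc_zero h).le
      | succ m ih =>
        cases htop : (stp m).top
        · rw [cc_bot h htop]
          have b1 := h.pos m (stp m).l
          have b2 := (h.ord m).r_le (stp m).l
          unfold cc at ih; linarith
        · rw [cc_top h htop]
          have b1 := ((run s m).g (stp m).l).strictMono (h.pos m (stp m).l)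
          have b2 := (h.ord m).gr_le (stp m).l
          unfold cc at ih; linarith
    have a4 := a3 n
    unfold cc at a4
    linarith
  have h6 := h.iter_mem h0 hc1 k
  have h7 := (h.chain.lt_mem h6.1 h6.2).1
  rw [h5] at h7
  linarith

end Pool.Agent.Giem37
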