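import Pool.Agent.Lib_helper37.Giem.Ret
import Pool.Agent.Lib_helper37.Giem.Core

/-! Standard states: existence, density, separation, no connections. -/

set_option autoImplicit false

namespace Pool.Agent.Giem37

open Function Set Topology Filter

/-- all branches are translations -/
def Tra (s : St) : Prop := ∀ α, ∃ t, ∀ x, s.g α x = x + t

theorem Tra.run {s : St} (h : Tra s) (n : ℕ) : Tra (Giem37.run s n) := by
  induction n with
  | zero => exact h
  | succ n ih =>
    have h1 : Giem37.run s (n + 1) = (Giem37.run s n).step (stp n) := rfl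
    rw [h1]
    obtain ⟨tw, htw⟩ := ih (stp n).w
    obtain ⟨tl, htl⟩ := ih (stp n).l
    intro α
    by_cases hα : α = (stp n).l
    · rw [hα]
      refine ⟨tw + tl, fun x => ?_⟩
      cases htop : (stp n).top
      · simp only [St.step, htop, Bool.false_eq_true, if_false, update_self, OrderIso.trans_apply,
          htw, htl]; ring
      · simp only [St.step, htop, if_true, update_self, OrderIso.trans_apply, htw, htl]; ring
    · obtain ⟨t, ht⟩ := ih α
      refine ⟨t, fun x => ?_⟩
      cases htop : (stp n).top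
      · simp only [St.step, htop, Bool.false_eq_true, if_false, update_of_ne hα, ht]
      · simp only [St.step, htop, if_true, update_of_ne hα, ht]

/-- forward recursion on lengths -/
def fx : ℕ → (Fin 4 → ℝ) → Fin 4 → ℝ
  | 0, v => v
  | n + 1, v => update (fx n v) (stp n).w (fx n v (stp n).w - fx n v (stp n).l)

theorem tra_x {s : St} (hI : Inv .p0 s) (h : Tra s) (n : ℕ) : (run s n).x = fx n s.x := by
  induction n with
  | zero => rfl
  | succ n ih =>
    funext α
    simp only [fx, ← ih]
    cases htop : (stp n).top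
    · obtain ⟨τ, hS⟩ := botStep hI htop
      obtain ⟨t, ht⟩ := h.run n (stp n).w
      have h1 := hS.gτ
      have h2 := hS.e
      rw [ht] at h1 h2
      by_cases hw : α = (stp n).w
      · rw [hw, update_self]
        unfold St.x
        rw [hS.rw, hS.p _ (stp_ne n)]
        linarith
      · rw [update_of_ne hw]
        unfold St.x
        by_cases hl : α = (stp n).l
        · rw [hl, hS.rl, hS.pl]; linarith
        · rw [hS.r _ hw hl, hS.p _ hl]
    · have hS := topStep hI htop
      obtain ⟨t, ht⟩ := h.run n (stp n).l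
      have h2 := hS.e
      have h3 := hS.rw
      rw [ht] at h2 h3
      by_cases hw : α = (stp n).w
      · rw [hw, update_self]
        unfold St.x
        rw [h3, hS.p]
        linarith
      · rw [update_of_ne hw]
        unfold St.x
        rw [hS.r _ hw, hS.p]

theorem continuous_fx (n : ℕ) : Continuous (fx n) := by
  induction n with
  | zero => exact continuous_id
  | succ n ih =>
    have h := continuous_pi_iff.mp ih
    exact ih.update _ ((h _).sub (h _))

theorem fx_Zv (N : ℕ) (z : Fin 4 → ℝ) : ∀ m ≤ N,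
    fx m (Zv (fun _ => 1) N z 0) = Zv (fun _ => 1) N z m := by
  intro m
  induction m with
  | zero => intro _; rfl
  | succ m ih =>
    intro hm
    have h1 := ih (by omega)
    have h2 := Zv_step (fun _ => (1:ℝ)) (by omega : m < N) z
    simp only [fx]
    rw [h1, h2]
    obtain ⟨y, hy⟩ : ∃ y, y = Zv (fun _ => (1:ℝ)) N z (m + 1) := ⟨_, rfl⟩
    rw [← hy]
    have hne := stp_ne m
    funext α
    unfold zs
    cases htop : (stp m).top
    · simp only [Bool.false_eq_true, if_false]
      by_cases hw : α = (stp m).w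
      · rw [hw, update_self, update_of_ne hne, update_self, update_self]; ring
      · rw [update_of_ne hw]
        by_cases hl : α = (stp m).l
        · rw [hl, update_self, one_mul]
        · rw [update_of_ne hl, update_of_ne hw]
    · simp only [if_true]
      by_cases hw : α = (stp m).w
      · rw [hw, update_self, update_self, update_of_ne hne.symm]; ring
      · rw [update_of_ne hw, update_of_ne hw]

theorem fx_smul (n : ℕ) (c : ℝ) (v : Fin 4 → ℝ) (α : Fin 4) :
    fx n (fun α => v α / c) α = fx n v α / c := by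
  induction n generalizing α with
  | zero => rfl
  | succ n ih =>
    simp only [fx, update_apply, ih]
    split_ifs
    · ring
    · rfl

/-- the length vector of the standard map -/
theorem exists_std : ∃ v : Fin 4 → ℝ, (∑ α, v α = 1) ∧ ∀ n α, 0 < fx n v α := by
  obtain ⟨A, hA⟩ : ∃ A : ℕ → Set (Fin 4 → ℝ),
    A = fun N => stdSimplex ℝ (Fin 4) ∩ {v | ∀ m ≤ N, ∀ α, 0 ≤ fx m v α} := ⟨_, rfl⟩
  have hAc : ∀ N, IsClosed (A N) := by
    intro N
    rw [hA]
    refine (isCompact_stdSimplex ℝ (Fin 4)).isClosed.inter ?_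
    simp only [Set.ofPred_forall]
    refine isClosed_iInter fun k => isClosed_iInter fun _ => isClosed_iInter fun α => ?_
    exact isClosed_le continuous_const ((continuous_pi_iff.mp (continuous_fx k)) α)
  obtain ⟨v, hv⟩ := IsCompact.nonempty_iInter_of_sequence_nonempty_isCompact_isClosed A
    (fun N => by
      rw [hA]; intro v hv
      exact ⟨hv.1, fun k hk α => hv.2 k (by omega) α⟩)
    (fun N => by
      rw [hA]
      obtain ⟨z, hz⟩ : ∃ z, z = Zv (fun _ => (1:ℝ)) N (fun _ => 1) 0 := ⟨_, rfl⟩
      have hp : ∀ m ≤ N, ∀ α, 0 < Zv (fun _ => (1:ℝ)) N (fun _ => 1) m α :=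
        Zv_pos (fun _ => one_pos) N (fun _ => one_pos)
      have hs : 0 < ∑ α, z α := Finset.sum_pos (fun α _ => by
        rw [hz]; exact hp 0 (Nat.zero_le _) α) ⟨0, Finset.mem_univ 0⟩
      refine ⟨fun α => z α / ∑ β, z β, ⟨fun α => ?_, ?_⟩, fun m hm α => ?_⟩
      · exact div_nonneg (by rw [hz]; exact (hp 0 (Nat.zero_le _) α).le) hs.le
      · rw [← Finset.sum_div, div_self hs.ne']
      · rw [fx_smul]
        apply div_nonneg _ hs.le
        rw [hz, fx_Zv N _ m hm]
        exact (hp m hm α).le)
    (by rw [hA]; exact (isCompact_stdSimplex ℝ (Fin 4)).inter_right (by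
          simp only [Set.ofPred_forall]
          refine isClosed_iInter fun k => isClosed_iInter fun _ => isClosed_iInter fun α => ?_
          exact isClosed_le continuous_const ((continuous_pi_iff.mp (continuous_fx k)) α))) hAc
  have h1 : ∀ n α, 0 ≤ fx n v α := by
    intro n α
    have := mem_iInter.mp hv n
    rw [hA] at this
    exact this.2 n le_rfl α
  have hsum : ∑ α, v α = 1 := by
    have := mem_iInter.mp hv 0
    rw [hA] at this
    exact this.1.2
  refine ⟨v, hsum, fun n α => ?_⟩
  let Z : ℕ → Set (Fin 4) := fun n => {α | fx n v α = 0}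
  have hZ : Prop1 Z := by
    constructor
    · intro n α hα
      have h2 : fx n v α = 0 := hα
      show fx (n + 1) v α = 0
      have h3 := h1 (n + 1) α
      by_cases hw : α = (stp n).w
      · rw [hw] at h2 h3 ⊢
        simp only [fx, update_self] at h3 ⊢
        have := h1 n (stp n).l
        linarith
      · simp only [fx, update_of_ne hw]; exact h2
    · intro n hα
      have h2 : fx n v (stp n).w = 0 := hα
      show fx (n + 1) v (stp n).l = 0
      have h3 := h1 (n + 1) (stp n).w
      simp only [fx, update_self] at h3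
      simp only [fx, update_of_ne (stp_ne n).symm]
      have := h1 n (stp n).l
      linarith
  have hne : ∀ n, Z n ≠ univ := by
    intro n
    induction n with
    | zero =>
      intro hc
      have h2 : ∀ α, v α = 0 := fun α => by
        have : α ∈ Z 0 := by rw [hc]; trivial
        exact this
      simp only [h2, Finset.sum_const_zero] at hsum
      exact zero_ne_one hsum
    | succ n ih =>
      intro hc
      apply ih
      have h2 : ∀ α, fx (n + 1) v α = 0 := fun α => by
        have : α ∈ Z (n + 1) := by rw [hc]; trivial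
        exact this
      have h3 : fx n v (stp n).l = 0 := by
        have := h2 (stp n).l
        simp only [fx, update_of_ne (stp_ne n).symm] at this
        exact this
      ext α
      simp only [mem_univ, iff_true]
      show fx n v α = 0
      by_cases hw : α = (stp n).w
      · rw [hw]
        have := h2 (stp n).w
        simp only [fx, update_self] at this
        linarith
      · have := h2 α
        simp only [fx, update_of_ne hw] at this
        exact this
  have h2 := no_propagate hZ hne n
  apply lt_of_le_of_ne (h1 n α)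
  intro hc
  have h3 : α ∈ Z n := hc.symm
  rw [h2] at h3
  exact h3

theorem fx_small {v : Fin 4 → ℝ} (h : ∀ n α, 0 < fx n v α) {ε : ℝ} (hε : 0 < ε) :
    ∃ n, ∑ α, fx n v α < ε := by
  have hstep : ∀ n, ∑ α, fx (n + 1) v α = ∑ α, fx n v α - fx n v (stp n).l := by
    intro n
    simp only [fx]
    rw [Finset.sum_update_of_mem (Finset.mem_univ _),
      ← Finset.add_sum_erase _ _ (Finset.mem_univ (stp n).w), Finset.sdiff_singleton_eq_erase]
    ring
  have hanti : Antitone fun n => ∑ α, fx n v α :=
    antitone_nat_of_succ_le fun n => by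
      show ∑ α, fx (n + 1) v α ≤ ∑ α, fx n v α
      rw [hstep]; linarith [h n (stp n).l]
  have hanti1 : ∀ α, Antitone fun n => fx n v α := fun α =>
    antitone_nat_of_succ_le fun n => by
      show fx (n + 1) v α ≤ fx n v α
      by_cases hw : α = (stp n).w
      · rw [hw]; simp only [fx, update_self]; linarith [h n (stp n).l]
      · simp only [fx, update_of_ne hw]; exact le_rfl
  have hconv : ∃ l, Tendsto (fun n => ∑ α, fx n v α) atTop (𝓝 l) :=
    ⟨_, tendsto_atTop_ciInf hanti ⟨0, by
      rintro _ ⟨n, rfl⟩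
      exact Finset.sum_nonneg fun α _ => (h n α).le⟩⟩
  obtain ⟨l, hl⟩ := hconv
  have hl' : Tendsto (fun n => ∑ α, fx (n + 1) v α) atTop (𝓝 l) := hl.comp (tendsto_add_atTop_nat 1)
  have hd : Tendsto (fun n => fx n v (stp n).l) atTop (𝓝 0) := by
    have h1 := hl.sub hl'
    rw [sub_self] at h1
    refine h1.congr fun n => ?_
    rw [hstep]; ring
  have h4 : ∀ α, ∃ N, ∀ n ≥ N, fx n v α < ε / 4 := by
    intro α
    have h5 := (hd.eventually_lt_const (by positivity : (0:ℝ) < ε / 4))
    obtain ⟨N0, hN0⟩ := eventually_atTop.mp h5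
    obtain ⟨φ, hφ⟩ : ∃ φ : Ph, φ.stp.l = α := by
      fin_cases α
      · exact ⟨.p4, rfl⟩
      · exact ⟨.p5, rfl⟩
      · exact ⟨.p1, rfl⟩
      · exact ⟨.p0, rfl⟩
    obtain ⟨n, hn, hph⟩ := reach_all N0 φ
    have h6 : (stp n).l = α := by unfold stp; rw [hph]; exact hφ
    have h7 := hN0 n hn
    rw [h6] at h7
    exact ⟨n, fun m hm => (hanti1 α hm).trans_lt h7⟩
  choose N hN using h4
  refine ⟨N 0 + N 1 + N 2 + N 3, ?_⟩
  rw [Fin.sum_univ_four]
  have a0 := hN 0 (N 0 + N 1 + N 2 + N 3) (by omega)
  have a1 := hN 1 (N 0 + N 1 + N 2 + N 3) (by omega)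
  have a2 := hN 2 (N 0 + N 1 + N 2 + N 3) (by omega)
  have a3 := hN 3 (N 0 + N 1 + N 2 + N 3) (by omega)
  linarith

theorem cc_sum {s : St} (h : Good s) (n : ℕ) : cc s n = ∑ α, (run s n).x α := by
  have h1 := run_inv h.inv n
  unfold cc
  obtain ⟨t0, t1, t2, t3, -⟩ := h1
  have hp : ∀ φ : Ph, ∑ α, (run s n).x α = ∑ i, (run s n).x (φ.tO i) := by
    intro φ
    cases φ <;> simp [Fin.sum_univ_four, Ph.tO] <;> ring
  rw [hp (ctl n).ph, Fin.sum_univ_four]
  unfold St.x
  linarith

theorem cc_small {s : St} (h : Good s) (ht : Tra s) {ε : ℝ} (hε : 0 < ε) : ∃ n, cc s n < ε := by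
  have h1 := tra_x h.inv ht
  obtain ⟨n, hn⟩ := fx_small (v := s.x) (fun n α => by
    rw [← h1]; have := h.pos n α; unfold St.x; linarith) hε
  exact ⟨n, by rw [cc_sum h, h1]; exact hn⟩

theorem separation {s : St} (h : Good s) (ht : Tra s) {x y : ℝ} (hx : 0 ≤ x) (hxy : x < y)
    (hy : y < 1) : ∃ k, s.lt (s.mp^[k] x) ≠ s.lt (s.mp^[k] y) := by
  by_contra hc
  push Not at hc
  have h1 : ∀ k, s.mp^[k] y - s.mp^[k] x = y - x := by
    intro k
    induction k with
    | zero => rfl
    | succ k ih =>
      rw [iterate_succ_apply', iterate_succ_apply']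
      have h2 : ∀ z, s.mp z = s.g (s.lt z) z := fun z => rfl
      obtain ⟨t, ht'⟩ := ht (s.lt (s.mp^[k] y))
      rw [h2 (s.mp^[k] x), h2 (s.mp^[k] y), hc k, ht', ht']
      linarith
  obtain ⟨n, hn⟩ := cc_small h ht (sub_pos.mpr hxy)
  obtain ⟨k, hk⟩ := h.ret n (hx.trans hxy.le) hy
  have h2 := (h.iter_mem hx (hxy.trans hy) k).1
  have h3 := h1 k
  linarith

theorem Fol.initial {s : St} {W1 W2 : List (Fin 4)} {x y : ℝ} (h : Fol s (W1 ++ W2) x y) :
    ∃ z, Fol s W1 x z := by
  induction W1 generalizing x with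
  | nil => exact ⟨x, rfl⟩
  | cons a W ih =>
    obtain ⟨h1, h2⟩ := h
    obtain ⟨z, hz⟩ := ih h2
    exact ⟨z, h1, hz⟩

theorem Fol.diff {s : St} (ht : Tra s) {W : List (Fin 4)} {x y x' y' : ℝ} (h : Fol s W x y)
    (h' : Fol s W x' y') : y' - y = x' - x := by
  induction W generalizing x x' with
  | nil => rw [show x = y from h, show x' = y' from h']
  | cons a W ih =>
    obtain ⟨t, ht'⟩ := ht a
    have h1 := ih h.2 h'.2
    rw [ht', ht'] at h1
    linarith

theorem dense_orbit {s : St} (h : Good s) (ht : Tra s) {x : ℝ} (hx0 : 0 ≤ x) (hx1 : x < 1)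
    {ε : ℝ} (hε : 0 < ε) : ∃ m, |s.mp^[m] 0 - x| < ε := by
  obtain ⟨n, hn⟩ := cc_small h ht hε
  obtain ⟨α, z, W1, W2, hW, ⟨hz1, hz2⟩, hf⟩ := h.cov n hx0 hx1
  obtain ⟨m, hm1, hm2⟩ := h.orb n α
  have h1 := h.fol n α _ hm1 hm2
  rw [hW] at h1
  obtain ⟨y, hy⟩ := h1.initial
  refine ⟨W1.length + m, ?_⟩
  rw [iterate_add_apply, (hy.iter h.chain).1, hf.diff ht hy]
  have h2 := (h.ord n).p_nonneg α
  have h3 := (h.ord n).r_le α
  unfold cc at hn
  rw [abs_lt]
  constructor <;> linarith

/-- no connections -/
theorem no_conn {s : St} (h : Good s) (ht : Tra s) {α0 : Fin 4} (hα0 : α0 ≠ 3) (m : ℕ)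
    (β : Fin 4) : s.mp^[m] (s.g α0 (s.p α0)) ≠ s.p β := by
  have key : ∀ n, ∃ e α, α ≠ 3 ∧ s.mp^[e] (s.g α0 (s.p α0)) = (run s n).g α ((run s n).p α) ∧
      ∀ k < e, ∀ β, s.mp^[k] (s.g α0 (s.p α0)) ≠ s.p β := by
    intro n
    induction n with
    | zero => exact ⟨0, α0, hα0, rfl, fun k hk => absurd hk (Nat.not_lt_zero _)⟩
    | succ n ih =>
      obtain ⟨e, α, hα, he, hk⟩ := ih
      cases htop : (stp n).top
      · obtain ⟨τ, hS⟩ := botStep h.inv htop
        refine ⟨e, α, hα, ?_, hk⟩
        rw [he]
        by_cases hl : α = (stp n).l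
        · rw [hl, hS.gl, hS.pl, hS.gτ]
        · rw [hS.g _ hl, hS.p _ hl]
      · have hS := topStep h.inv htop
        by_cases hl : α = (stp n).l
        · have h1 : (run s n).p (stp n).w < (run s n).g (stp n).l ((run s n).p (stp n).l) := by
            have := h.pos (n + 1) (stp n).w
            rwa [hS.rw, hS.p] at this
          have h2 : (run s n).g (stp n).l ((run s n).p (stp n).l) < (run s n).r (stp n).w := by
            rw [hS.e]; exact ((run s n).g _).strictMono (h.pos n _)
          rw [hl] at he hα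
          have h3 := ((h.fol n _ _ h1.le h2).iter h.chain).1
          refine ⟨(wd n (stp n).w).length + e, (stp n).l, hα, ?_, ?_⟩
          · rw [iterate_add_apply, he, h3, hS.gl, hS.p]
          · intro k hke β
            by_cases hke' : k < e
            · exact hk k hke' β
            · obtain ⟨j, hj⟩ : ∃ j, k = j + e := ⟨k - e, by omega⟩
              rw [hj, iterate_add_apply, he]
              exact h.no_left h1 h2 (by omega) β
        · refine ⟨e, α, hα, ?_, hk⟩
          rw [he, hS.g _ hl, hS.p]
  intro hm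
  have hδ : ∀ M, ∃ δ > 0, ∀ k ≤ M, 0 < s.mp^[k] (s.g α0 (s.p α0)) →
      δ ≤ s.mp^[k] (s.g α0 (s.p α0)) := by
    intro M
    induction M with
    | zero =>
      by_cases hp : 0 < s.mp^[0] (s.g α0 (s.p α0))
      · exact ⟨_, hp, fun k hk _ => by rw [Nat.le_zero.mp hk]⟩
      · exact ⟨1, one_pos, fun k hk h0 => absurd (by rw [Nat.le_zero.mp hk] at h0; exact h0) hp⟩
    | succ M ih =>
      obtain ⟨δ, hδ, h1⟩ := ih
      by_cases hp : 0 < s.mp^[M + 1] (s.g α0 (s.p α0))
      · refine ⟨min δ (s.mp^[M + 1] (s.g α0 (s.p α0))), lt_min hδ hp, fun k hk h0 => ?_⟩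
        rcases Nat.lt_or_ge k (M + 1) with h2 | h2
        · exact (min_le_left _ _).trans (h1 k (by omega) h0)
        · have : k = M + 1 := by omega
          rw [this]; exact min_le_right _ _
      · refine ⟨δ, hδ, fun k hk h0 => ?_⟩
        rcases Nat.lt_or_ge k (M + 1) with h2 | h2
        · exact h1 k (by omega) h0
        · have : k = M + 1 := by omega
          rw [this] at h0; exact absurd h0 hp
  obtain ⟨δ, hδ, hδ'⟩ := hδ m
  obtain ⟨n, hn⟩ := cc_small h ht hδ
  obtain ⟨e, α, hα, he, hk⟩ := key n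
  have hem : e ≤ m := by
    by_contra hc
    exact hk m (not_le.mp hc) β hm
  have ho := h.ord n
  have h1 := ho.q_pos α hα
  have h2 := ho.gr_le α
  have h3 := ((run s n).g α).strictMono (h.pos n α)
  have h4 := hδ' e hem (by rw [he]; exact h1)
  rw [he] at h4
  unfold cc at hn
  linarith

end Pool.Agent.Giem37
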