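import Pool.Agent.Lib_helper37.Giem.Gap
import Pool.Agent.Lib_helper37.Giem.Std
import Pool.Agent.Lib_helper37.Giem.Fam

/-! The semi-conjugacy. -/

set_option autoImplicit false

namespace Pool.Agent.Giem37

open Function Set Topology Filter

/-- weak positivity at all stages implies strict positivity -/
theorem good_of_nonneg {s : St} (hI : Inv .p0 s) (hfin : s.r 3 = 1) (h0 : ∀ α, 0 < s.x α)
    (h : ∀ n α, 0 ≤ (run s n).x α) : Good s := by
  let Z : ℕ → Set (Fin 4) := fun n => {α | (run s n).x α = 0}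
  have hle : ∀ n α, (run s n).p α ≤ (run s n).r α := fun n α => by
    have := h n α; unfold St.x at this; linarith
  have hZ : Prop1 Z := by
    constructor
    · intro n α hα
      have h1 : (run s n).r α - (run s n).p α = 0 := hα
      show (run s (n + 1)).x α = 0
      have h2 := h (n + 1) α
      unfold St.x at h2 ⊢
      cases htop : (stp n).top
      · obtain ⟨τ, hS⟩ := botStep hI htop
        have h3 := hle (n + 1) (stp n).w
        have h4 := hle (n + 1) (stp n).l
        rw [hS.rw, hS.p _ (stp_ne n)] at h3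
        rw [hS.rl, hS.pl] at h4
        by_cases hw : α = (stp n).w
        · rw [hw] at h1 ⊢
          rw [hS.rw, hS.p _ (stp_ne n)]
          linarith
        · by_cases hl : α = (stp n).l
          · rw [hl] at h1 ⊢
            rw [hS.rl, hS.pl]
            have h5 : (run s n).g (stp n).w ((run s n).r (stp n).w) = (run s n).g (stp n).w τ := by
              rw [← hS.e, hS.gτ]; linarith
            have := ((run s n).g (stp n).w).injective h5
            linarith
          · rw [hS.r _ hw hl, hS.p _ hl]; exact h1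
      · have hS := topStep hI htop
        by_cases hw : α = (stp n).w
        · rw [hw] at h1 h2 ⊢
          rw [hS.rw, hS.p] at h2 ⊢
          have h5 : (run s n).g (stp n).l ((run s n).p (stp n).l) ≤
              (run s n).g (stp n).l ((run s n).r (stp n).l) :=
            ((run s n).g _).monotone (hle n _)
          rw [← hS.e] at h5
          linarith
        · rw [hS.r _ hw, hS.p]; exact h1
    · intro n hα
      have h1 : (run s n).r (stp n).w - (run s n).p (stp n).w = 0 := hα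
      show (run s (n + 1)).x (stp n).l = 0
      unfold St.x
      cases htop : (stp n).top
      · obtain ⟨τ, hS⟩ := botStep hI htop
        have h3 := hle (n + 1) (stp n).w
        have h4 := hle (n + 1) (stp n).l
        rw [hS.rw, hS.p _ (stp_ne n)] at h3
        rw [hS.rl, hS.pl] at h4 ⊢
        linarith
      · have hS := topStep hI htop
        have h3 := hle (n + 1) (stp n).w
        rw [hS.rw, hS.p] at h3
        rw [hS.r _ (stp_ne n).symm, hS.p]
        have h5 : (run s n).g (stp n).l ((run s n).p (stp n).l) ≤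
            (run s n).g (stp n).l ((run s n).r (stp n).l) :=
          ((run s n).g _).monotone (hle n _)
        have h6 : (run s n).g (stp n).l ((run s n).p (stp n).l) =
            (run s n).g (stp n).l ((run s n).r (stp n).l) := by
          have := hS.e
          linarith
        have := ((run s n).g (stp n).l).injective h6
        linarith
  have hne : ∀ n, Z n ≠ univ := by
    intro n
    induction n with
    | zero =>
      intro hc
      have : (0 : Fin 4) ∈ Z 0 := by rw [hc]; trivial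
      have h1 : s.x 0 = 0 := this
      have := h0 0
      linarith
    | succ n ih =>
      intro hc
      apply ih
      have h2 : ∀ α, (run s (n + 1)).r α - (run s (n + 1)).p α = 0 := fun α => by
        have : α ∈ Z (n + 1) := by rw [hc]; trivial
        exact this
      ext α
      simp only [mem_univ, iff_true]
      show (run s n).x α = 0
      unfold St.x
      cases htop : (stp n).top
      · obtain ⟨τ, hS⟩ := botStep hI htop
        have h3 := h2 (stp n).w
        have h4 := h2 (stp n).l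
        rw [hS.rw, hS.p _ (stp_ne n)] at h3
        rw [hS.rl, hS.pl] at h4
        by_cases hw : α = (stp n).w
        · rw [hw]; linarith
        · by_cases hl : α = (stp n).l
          · rw [hl, hS.e, ← hS.gτ]
            have : (run s n).r (stp n).w = τ := by linarith
            rw [this, sub_self]
          · have := h2 α
            rw [hS.r _ hw hl, hS.p _ hl] at this
            exact this
      · have hS := topStep hI htop
        have h3 := h2 (stp n).w
        have h4 := h2 (stp n).l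
        rw [hS.rw, hS.p] at h3
        rw [hS.r _ (stp_ne n).symm, hS.p] at h4
        by_cases hw : α = (stp n).w
        · rw [hw, hS.e]
          have : (run s n).r (stp n).l = (run s n).p (stp n).l := by linarith
          rw [this]; exact h3
        · have := h2 α
          rw [hS.r _ hw, hS.p] at this
          exact this
  have h2 := no_propagate hZ hne
  refine ⟨hI, hfin, fun n α => ?_⟩
  have h3 := h n α
  rcases h3.lt_or_eq with h4 | h4
  · unfold St.x at h4; linarith
  · exfalso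
    have h5 : α ∈ Z n := h4.symm
    rw [h2] at h5
    exact h5

variable {r : ℕ}

theorem PP_good (hr : 1 ≤ r) {T : GIEM 4 r} (h : T ∈ PP hr) : Good (st0 hr T) :=
  good_of_nonneg (st0_inv hr T) (st0_end hr T) (st0_x_pos hr T) h.2

theorem PP_slp (hr : 1 ≤ r) {T : GIEM 4 r} (h : T ∈ PP hr) : Slp (st0 hr T) := by
  have h1 := fun n α => run_sl (m := fun α => (2:ℝ) ^ ((ctl 0).lo α))
    (M := fun α => (2:ℝ) ^ ((ctl 0).up α)) (fun α => by positivity) (fun α => by positivity)
    h.1 n α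
  constructor
  · intro n g hg u v huv
    have h2 := (h1 n g u v huv).2
    rw [bd_up] at h2
    have h3 : (2:ℝ) ^ ((ctl n).up g) ≤ 1 / 2 := by
      apply zpow_neg_le_half
      rcases hg with hg | hg
      · rw [hg]; exact (ctl_CI n).u0
      · rw [hg]; exact (ctl_CI n).u1
    have h4 : 0 ≤ v - u := by linarith
    nlinarith
  · intro n g hg u v huv
    have h2 := (h1 n g u v huv).1
    rw [bd_lo] at h2
    have h3 : (2:ℝ) ≤ (2:ℝ) ^ ((ctl n).lo g) := by
      apply two_le_zpow
      rcases hg with hg | hg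
      · rw [hg]; exact (ctl_CI n).l2
      · rw [hg]; exact (ctl_CI n).l3
    have h4 : 0 ≤ v - u := by linarith
    nlinarith

/-- positions in the bottom row -/
def botO : Fin 4 → ℕ := ![2, 1, 3, 0]

theorem botO_inj {α β : Fin 4} (h : botO α = botO β) : α = β := by
  fin_cases α <;> fin_cases β <;> simp [botO] at h ⊢

theorem Good.bot_le {s : St} (h : Good s) {β α : Fin 4} (hlt : botO β < botO α) :
    s.g β (s.r β) ≤ s.g α (s.p α) := by
  have b1 := h.inv.b1; have b2 := h.inv.b2; have b3 := h.inv.b3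
  simp only [Ph.bO, Matrix.cons_val_zero, Matrix.cons_val_one, Matrix.cons_val] at b1 b2 b3
  have hg : ∀ α, s.g α (s.p α) < s.g α (s.r α) := fun α => (s.g α).strictMono (h.pos 0 α)
  have g0 := hg 0; have g1 := hg 1; have g2 := hg 2; have g3 := hg 3
  fin_cases β <;> fin_cases α <;> simp [botO] at hlt ⊢ <;> linarith

theorem Good.bot_iff {s : St} (h : Good s) {β α : Fin 4} {w : ℝ} (h1 : s.p β ≤ w)
    (h2 : w < s.r β) : s.g β w < s.g α (s.p α) ↔ botO β < botO α := by
  constructor
  · intro h3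
    by_contra hc
    rw [not_lt] at hc
    rcases hc.lt_or_eq with h4 | h4
    · have h5 := h.bot_le h4
      have h6 := (s.g β).monotone h1
      have h7 := (s.g α).strictMono (h.pos 0 α)
      change s.g α (s.p α) < s.g α (s.r α) at h7
      linarith
    · rw [botO_inj h4] at h3
      have h6 := (s.g β).monotone h1
      linarith
  · intro h3
    exact ((s.g β).strictMono h2).trans_le (h.bot_le h3)

theorem Good.zero_lt_q {s : St} (h : Good s) (α : Fin 4) : 0 < s.g α (s.p α) ↔ α ≠ 3 := by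
  constructor
  · rintro h1 rfl
    have := h.inv.b0
    simp only [Ph.bO, Matrix.cons_val_zero] at this
    linarith
  · exact (h.ord 0).q_pos α

theorem Good.lt_p_iff {s : St} (h : Good s) {x : ℝ} (hx0 : 0 ≤ x) (α : Fin 4) :
    x < s.p α ↔ s.lt x < α := by
  obtain ⟨p0, p1, p2, p3, x0, x1, x2, x3, r3⟩ := h.chain
  unfold St.lt
  fin_cases α <;> simp only [Fin.zero_eta, Fin.mk_one, Fin.reduceFinMk] <;> split_ifs <;>
    constructor <;> intro hh <;>
    first | (exfalso; linarith) | decide | (exfalso; revert hh; decide) | linarith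

theorem Good.lt_r_iff {s : St} (h : Good s) {x : ℝ} (hx1 : x < 1) (α : Fin 4) :
    x < s.r α ↔ s.lt x ≤ α := by
  obtain ⟨p0, p1, p2, p3, x0, x1, x2, x3, r3⟩ := h.chain
  unfold St.lt
  fin_cases α <;> simp only [Fin.zero_eta, Fin.mk_one, Fin.reduceFinMk] <;> split_ifs <;>
    constructor <;> intro hh <;>
    first | (exfalso; linarith) | decide | (exfalso; revert hh; decide) | linarith

section conj

variable {s s' : St}

/-- the semi-conjugacy -/
noncomputable def hh (s s' : St) (x : ℝ) : ℝ :=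
  if x < 0 then x else if 1 ≤ x then x else sSup {y | ∃ m, y = s'.mp^[m] 0 ∧ s.mp^[m] 0 ≤ x}

theorem ab_order (h : Good s) (h' : Good s') (ht : Tra s') {m n : ℕ}
    (hmn : s.mp^[m] 0 ≤ s.mp^[n] 0) : s'.mp^[m] 0 ≤ s'.mp^[n] 0 := by
  by_contra hc
  rw [not_le] at hc
  have hit : ∀ n k, s.lt (s.mp^[k] (s.mp^[n] 0)) = s'.lt (s'.mp^[k] (s'.mp^[n] 0)) := by
    intro n k
    rw [← iterate_add_apply, ← iterate_add_apply]
    exact itin_zero h h' _
  have h1 := order_transfer h.chain h'.chain (hit n) (hit m) hc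
    (separation h' ht (h'.iter_mem le_rfl one_pos n).1 hc (h'.iter_mem le_rfl one_pos m).2)
  linarith

theorem hh_eq {x : ℝ} (hx0 : 0 ≤ x) (hx1 : x < 1) :
    hh s s' x = sSup {y | ∃ m, y = s'.mp^[m] 0 ∧ s.mp^[m] 0 ≤ x} := by
  unfold hh
  rw [if_neg (not_lt.mpr hx0), if_neg (not_le.mpr hx1)]

theorem hh_bdd (h' : Good s') (x : ℝ) :
    BddAbove {y | ∃ m, y = s'.mp^[m] 0 ∧ s.mp^[m] 0 ≤ x} :=
  ⟨1, by rintro _ ⟨m, rfl, -⟩; exact (h'.iter_mem le_rfl one_pos m).2.le⟩

theorem hh_ne {x : ℝ} (hx0 : 0 ≤ x) :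
    {y | ∃ m, y = s'.mp^[m] 0 ∧ s.mp^[m] 0 ≤ x}.Nonempty := ⟨0, 0, rfl, hx0⟩

theorem le_hh (h' : Good s') {x : ℝ} (hx0 : 0 ≤ x) (hx1 : x < 1) {m : ℕ}
    (hm : s.mp^[m] 0 ≤ x) : s'.mp^[m] 0 ≤ hh s s' x := by
  rw [hh_eq hx0 hx1]
  exact le_csSup (hh_bdd h' x) ⟨m, rfl, hm⟩

theorem hh_le {x : ℝ} (hx0 : 0 ≤ x) (hx1 : x < 1) {c : ℝ}
    (hc : ∀ m, s.mp^[m] 0 ≤ x → s'.mp^[m] 0 ≤ c) : hh s s' x ≤ c := by
  rw [hh_eq hx0 hx1]
  exact csSup_le (hh_ne hx0) (by rintro _ ⟨m, rfl, hm⟩; exact hc m hm)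

theorem hh_orbit (h : Good s) (h' : Good s') (ht : Tra s') (m : ℕ) :
    hh s s' (s.mp^[m] 0) = s'.mp^[m] 0 := by
  have h1 := h.iter_mem le_rfl one_pos m
  apply le_antisymm
  · exact hh_le h1.1 h1.2 (fun n hn => ab_order h h' ht hn)
  · exact le_hh h' h1.1 h1.2 le_rfl

theorem hh_mono (h' : Good s') : Monotone (hh s s') := by
  intro x y hxy
  by_cases hx : x < 0
  · have h1 : hh s s' x = x := by unfold hh; rw [if_pos hx]
    rw [h1]
    by_cases hy : y < 0
    · have h2 : hh s s' y = y := by unfold hh; rw [if_pos hy]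
      rw [h2]; exact hxy
    · rw [not_lt] at hy
      by_cases hy1 : 1 ≤ y
      · have h2 : hh s s' y = y := by unfold hh; rw [if_neg (not_lt.mpr hy), if_pos hy1]
        rw [h2]; exact hxy
      · have := le_hh (s := s) h' hy (not_le.mp hy1) (m := 0) hy
        have h3 : s'.mp^[0] 0 = 0 := rfl
        rw [h3] at this
        linarith
  · rw [not_lt] at hx
    by_cases hx1 : 1 ≤ x
    · have h1 : hh s s' x = x := by unfold hh; rw [if_neg (not_lt.mpr hx), if_pos hx1]
      have h2 : hh s s' y = y := by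
        unfold hh; rw [if_neg (by linarith), if_pos (by linarith)]
      rw [h1, h2]; exact hxy
    · rw [not_le] at hx1
      by_cases hy1 : 1 ≤ y
      · have h2 : hh s s' y = y := by unfold hh; rw [if_neg (by linarith), if_pos hy1]
        rw [h2]
        exact (hh_le hx hx1 (fun m _ => (h'.iter_mem le_rfl one_pos m).2.le)).trans hy1
      · rw [not_le] at hy1
        exact hh_le hx hx1 (fun m hm => le_hh h' (hx.trans hxy) hy1 (hm.trans hxy))

theorem hh_cont (h : Good s) (h' : Good s') (ht : Tra s') : Continuous (hh s s') := by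
  apply (hh_mono h').continuous_of_denseRange
  intro y
  rw [Metric.mem_closure_iff]
  intro ε hε
  by_cases hy : y < 0
  · exact ⟨y, ⟨y, by unfold hh; rw [if_pos hy]⟩, by rw [dist_self]; exact hε⟩
  · rw [not_lt] at hy
    by_cases hy1 : 1 ≤ y
    · exact ⟨y, ⟨y, by unfold hh; rw [if_neg (by linarith), if_pos hy1]⟩,
        by rw [dist_self]; exact hε⟩
    · obtain ⟨m, hm⟩ := dense_orbit h' ht hy (not_le.mp hy1) hε
      refine ⟨_, ⟨s.mp^[m] 0, hh_orbit h h' ht m⟩, ?_⟩
      rw [dist_comm, Real.dist_eq]; exact hm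

theorem dense_between (h' : Good s') (ht : Tra s') {y z : ℝ} (hy : 0 ≤ y) (hyz : y < z)
    (hz : z ≤ 1) : ∃ m, y < s'.mp^[m] 0 ∧ s'.mp^[m] 0 < z := by
  obtain ⟨m, hm⟩ := dense_orbit h' ht (x := (y + z) / 2) (by linarith) (by linarith)
    (ε := (z - y) / 2) (by linarith)
  rw [abs_lt] at hm
  exact ⟨m, by linarith [hm.1], by linarith [hm.2]⟩

theorem lt_p_transfer (h : Good s) (h' : Good s') (n : ℕ) (α : Fin 4) :
    s.mp^[n] 0 < s.p α ↔ s'.mp^[n] 0 < s'.p α := by
  rw [h.lt_p_iff (h.iter_mem le_rfl one_pos n).1,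
    h'.lt_p_iff (h'.iter_mem le_rfl one_pos n).1, itin_zero h h']

theorem lt_r_transfer (h : Good s) (h' : Good s') (n : ℕ) (α : Fin 4) :
    s.mp^[n] 0 < s.r α ↔ s'.mp^[n] 0 < s'.r α := by
  rw [h.lt_r_iff (h.iter_mem le_rfl one_pos n).2,
    h'.lt_r_iff (h'.iter_mem le_rfl one_pos n).2, itin_zero h h']

theorem mp_succ (s : St) (m : ℕ) : s.mp^[m + 1] 0 = s.g (s.lt (s.mp^[m] 0)) (s.mp^[m] 0) := by
  rw [iterate_succ_apply']; rfl

theorem lt_q_transfer (h : Good s) (h' : Good s') (n : ℕ) (α : Fin 4) :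
    s.mp^[n] 0 < s.g α (s.p α) ↔ s'.mp^[n] 0 < s'.g α (s'.p α) := by
  cases n with
  | zero =>
    show 0 < s.g α (s.p α) ↔ 0 < s'.g α (s'.p α)
    rw [h.zero_lt_q, h'.zero_lt_q]
  | succ m =>
    have h1 := h.iter_mem le_rfl one_pos m
    have h2 := h'.iter_mem le_rfl one_pos m
    have h3 := h.chain.lt_mem h1.1 h1.2
    have h4 := h'.chain.lt_mem h2.1 h2.2
    rw [mp_succ, mp_succ, h.bot_iff h3.1 h3.2, h'.bot_iff h4.1 h4.2, itin_zero h h']

theorem hh_main (h : Good s) (h' : Good s') (ht : Tra s') (hs : Slp s) {α : Fin 4} {x : ℝ}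
    (hx1 : s.p α ≤ x) (hx2 : x < s.r α) :
    (s'.p α ≤ hh s s' x ∧ hh s s' x < s'.r α) ∧ hh s s' (s.g α x) = s'.g α (hh s s' x) := by
  have hp0 : 0 ≤ s.p α := (h.ord 0).p_nonneg α
  have hr1 : s.r α ≤ 1 := by
    have := (h.ord 0).r_le α
    rw [← h.fin]; exact this
  have hp0' : 0 ≤ s'.p α := (h'.ord 0).p_nonneg α
  have hr1' : s'.r α ≤ 1 := by
    have := (h'.ord 0).r_le α
    rw [← h'.fin]; exact this
  have hpr' : s'.p α < s'.r α := h'.pos 0 α
  have hx0 : 0 ≤ x := hp0.trans hx1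
  have hxl : x < 1 := hx2.trans_le hr1
  have hq0 : 0 ≤ s.g α (s.p α) := (h.ord 0).q_nonneg α
  have hq0' : 0 ≤ s'.g α (s'.p α) := (h'.ord 0).q_nonneg α
  have hgr : s.g α (s.r α) ≤ 1 := by
    have := (h.ord 0).gr_le α
    rw [← h.fin]; exact this
  have hgr' : s'.g α (s'.r α) ≤ 1 := by
    have := (h'.ord 0).gr_le α
    rw [← h'.fin]; exact this
  have hgx0 : 0 ≤ s.g α x := hq0.trans ((s.g α).monotone hx1)
  have hgx1 : s.g α x < 1 := ((s.g α).strictMono hx2).trans_le hgr
  have hnn : ∀ z, 0 ≤ z → z < 1 → 0 ≤ hh s s' z := fun z hz0 hz1 => le_hh (m := 0) h' hz0 hz1 hz0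
  have hlow : s'.p α ≤ hh s s' x := by
    by_contra hc
    rw [not_le] at hc
    obtain ⟨m, hm1, hm2⟩ := dense_between h' ht (hnn x hx0 hxl) hc (by linarith)
    have h1 := (lt_p_transfer h h' m α).mpr hm2
    have h2 := le_hh h' hx0 hxl (h1.le.trans hx1)
    linarith
  have hup : hh s s' x < s'.r α := by
    obtain ⟨m, hm1, hm2⟩ := no_gap h hs hx2
    have h1 := (lt_r_transfer h h' m α).mp hm2
    have h2 := hh_mono (s := s) h' hm1.le
    rw [hh_orbit h h' ht] at h2
    linarith
  have hq : s'.g α (s'.p α) ≤ hh s s' (s.g α x) := by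
    by_contra hc
    rw [not_le] at hc
    obtain ⟨m, hm1, hm2⟩ := dense_between h' ht (hnn _ hgx0 hgx1) hc
      (((s'.g α).strictMono hpr').le.trans hgr')
    have h1 := (lt_q_transfer h h' m α).mpr hm2
    have h2 := le_hh h' hgx0 hgx1 (h1.le.trans ((s.g α).monotone hx1))
    linarith
  refine ⟨⟨hlow, hup⟩, le_antisymm ?_ ?_⟩
  · apply hh_le hgx0 hgx1
    intro n hn
    have hq' : s'.g α (s'.p α) ≤ s'.g α (hh s s' x) := (s'.g α).monotone hlow
    by_cases hlt : s.mp^[n] 0 < s.g α (s.p α)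
    · exact ((lt_q_transfer h h' n α).mp hlt).le.trans hq'
    · cases n with
      | zero => exact hq0'.trans hq'
      | succ m =>
        have h1 := h.iter_mem le_rfl one_pos m
        have h3 := h.chain.lt_mem h1.1 h1.2
        rw [mp_succ] at hn hlt
        have h4 : s.lt (s.mp^[m] 0) = α := by
          have h5 : ¬ botO (s.lt (s.mp^[m] 0)) < botO α :=
            fun hc => hlt ((h.bot_iff (α := α) h3.1 h3.2).mpr hc)
          apply botO_inj
          by_contra hne
          have h6 : botO α < botO (s.lt (s.mp^[m] 0)) := by omega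
          have h7 := h.bot_le h6
          have h8 := (s.g (s.lt (s.mp^[m] 0))).monotone h3.1
          have h9 := (s.g α).strictMono hx2
          linarith
        rw [h4] at hn
        have h5 : s.mp^[m] 0 ≤ x := (s.g α).le_iff_le.mp hn
        have h6 := le_hh h' hx0 hxl h5
        rw [mp_succ, ← itin_zero h h', h4]
        exact (s'.g α).monotone h6
  · by_contra hc
    rw [not_le] at hc
    obtain ⟨y, hy⟩ : ∃ y, s'.g α y = hh s s' (s.g α x) := (s'.g α).surjective _
    rw [← hy] at hc hq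
    have hyx : y < hh s s' x := (s'.g α).lt_iff_lt.mp hc
    have hpy : s'.p α ≤ y := (s'.g α).le_iff_le.mp hq
    rw [hh_eq hx0 hxl] at hyx
    obtain ⟨_, ⟨m, rfl, hm⟩, hlt⟩ := exists_lt_of_lt_csSup (hh_ne hx0) hyx
    have h1 : s.p α ≤ s.mp^[m] 0 := by
      by_contra hc2
      have := (lt_p_transfer h h' m α).mp (not_le.mp hc2)
      linarith
    have h2 : s.lt (s.mp^[m] 0) = α := h.chain.lt_eq h1 (hm.trans_lt hx2)
    have h3 : s.mp^[m + 1] 0 ≤ s.g α x := by
      rw [mp_succ, h2]; exact (s.g α).monotone hm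
    have h4 := le_hh h' hgx0 hgx1 h3
    rw [mp_succ, ← itin_zero h h', h2, ← hy] at h4
    have := (s'.g α).le_iff_le.mp h4
    linarith

theorem hh_zero (h : Good s) (h' : Good s') (ht : Tra s') : hh s s' 0 = 0 := hh_orbit h h' ht 0

theorem hh_one : hh s s' 1 = 1 := by
  unfold hh; rw [if_neg (by norm_num), if_pos le_rfl]

theorem hh_image (h : Good s) (h' : Good s') (ht : Tra s') :
    hh s s' '' Icc 0 1 = Icc 0 1 := by
  apply Subset.antisymm
  · rintro _ ⟨x, hx, rfl⟩
    constructor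
    · rw [← hh_zero h h' ht]; exact hh_mono h' hx.1
    · rw [← hh_one (s := s) (s' := s')]; exact hh_mono h' hx.2
  · have := intermediate_value_Icc (zero_le_one) (hh_cont h h' ht).continuousOn
    rwa [hh_zero h h' ht, hh_one] at this

end conj

theorem gmap_eq (hr : 1 ≤ r) (T : GIEM 4 r) {x : ℝ} (hx0 : 0 ≤ x) (hx1 : x < 1) :
    gmap pi0 T x = (st0 hr T).mp x := by
  have hch : Chain (st0 hr T) := by
    obtain ⟨t0, t1, t2, t3, -⟩ := st0_inv hr T
    simp only [Ph.tO, Matrix.cons_val_zero, Matrix.cons_val_one, Matrix.cons_val] at t0 t1 t2 t3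
    exact ⟨t0, t1.symm, t2.symm, t3.symm, tl_lt_tr T 0, tl_lt_tr T 1, tl_lt_tr T 2, tl_lt_tr T 3,
      st0_end hr T⟩
  obtain ⟨h1, h2⟩ := hch.lt_mem hx0 hx1
  unfold gmap
  rw [Finset.sum_eq_single ((st0 hr T).lt x)]
  · have h3 : x ∈ Ico (tl pi0 T ((st0 hr T).lt x)) (tr pi0 T ((st0 hr T).lt x)) := ⟨h1, h2⟩
    rw [indicator_of_mem h3]
    rfl
  · intro β _ hβ
    apply indicator_of_notMem
    rintro ⟨h3, h4⟩
    exact hβ (hch.lt_eq h3 h4).symm
  · intro hc; exact absurd (Finset.mem_univ _) hc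

theorem semiConj_of (hr : 1 ≤ r) {T T0 : GIEM 4 r} (hT : T ∈ PP hr) (h0 : Good (st0 hr T0))
    (ht : Tra (st0 hr T0)) : SemiConj pi0 T T0 := by
  have h := PP_good hr hT
  have hs := PP_slp hr hT
  refine ⟨hh (st0 hr T) (st0 hr T0), (hh_cont h h0 ht).continuousOn, (hh_mono h0).monotoneOn _,
    hh_image h h0 ht, ?_⟩
  rintro x ⟨hx0, hx1⟩
  obtain ⟨h1, h2⟩ := h.chain.lt_mem hx0 hx1
  obtain ⟨⟨h3, h4⟩, h5⟩ := hh_main h h0 ht hs h1 h2
  have h6 : 0 ≤ hh (st0 hr T) (st0 hr T0) x := ((h0.ord 0).p_nonneg _).trans h3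
  have h7 : hh (st0 hr T) (st0 hr T0) x < 1 := by
    have := (h0.ord 0).r_le ((st0 hr T).lt x)
    rw [← h0.fin]; exact h4.trans_le this
  refine ⟨⟨h6, h7⟩, ?_⟩
  rw [gmap_eq hr T hx0 hx1, gmap_eq hr T0 h6 h7]
  unfold St.mp
  rw [h0.chain.lt_eq h3 h4]
  exact h5

theorem branchSemiConj_of (hr : 1 ≤ r) {T T0 : GIEM 4 r} (hT : T ∈ PP hr)
    (h0 : Good (st0 hr T0)) (ht : Tra (st0 hr T0)) : BranchSemiConj pi0 T T0 := by
  have h := PP_good hr hT
  have hs := PP_slp hr hT
  have hc := hh_cont h h0 ht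
  refine ⟨hh (st0 hr T) (st0 hr T0), hc.continuousOn, (hh_mono h0).monotoneOn _,
    hh_image h h0 ht, ?_⟩
  intro α
  have hcl : IsClosed {x | hh (st0 hr T) (st0 hr T0) x ∈ Icc (tl pi0 T0 α) (tr pi0 T0 α) ∧
      hh (st0 hr T) (st0 hr T0) ((st0 hr T).g α x) =
      (st0 hr T0).g α (hh (st0 hr T) (st0 hr T0) x)} := by
    apply IsClosed.inter
    · exact isClosed_Icc.preimage hc
    · exact isClosed_eq (hc.comp ((st0 hr T).g α).continuous)
        (((st0 hr T0).g α).continuous.comp hc)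
  have hsub : Ico (tl pi0 T α) (tr pi0 T α) ⊆
      {x | hh (st0 hr T) (st0 hr T0) x ∈ Icc (tl pi0 T0 α) (tr pi0 T0 α) ∧
      hh (st0 hr T) (st0 hr T0) ((st0 hr T).g α x) =
      (st0 hr T0).g α (hh (st0 hr T) (st0 hr T0) x)} := by
    rintro x ⟨hx1, hx2⟩
    obtain ⟨⟨h3, h4⟩, h5⟩ := hh_main (α := α) h h0 ht hs hx1 hx2
    exact ⟨⟨h3, h4.le⟩, h5⟩
  have h1 := closure_minimal hsub hcl
  rw [closure_Ico (tl_lt_tr T α).ne] at h1
  intro x hx
  exact h1 hx

end Pool.Agent.Giem37
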