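import Pool.Agent.Lib_helper37.Giem.Ctl

/-! Signs of the dual vectors along the path. -/

set_option autoImplicit false

namespace Pool.Agent.Giem37

open Function

/-- dual (forward) step on covectors -/
def cf (σ : Stp) (a : ℝ) (c : Fin 4 → ℝ) : Fin 4 → ℝ :=
  if σ.top then update c σ.l (c σ.l + a * c σ.w) else update c σ.l (c σ.w + a * c σ.l)

/-- the letter whose slope enters as a coefficient -/
def Stp.cl (σ : Stp) : Fin 4 := if σ.top then σ.l else σ.w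

/-- invariants of the covector -/
structure JC (t : Ctl) (c : Fin 4 → ℝ) : Prop where
  m0 : -(2:ℝ) ^ t.ex ≤ c 0
  m1 : -(2:ℝ) ^ t.ex ≤ c 1
  x2 : c 2 ≤ (2:ℝ) ^ t.ex
  x3 : c 3 ≤ (2:ℝ) ^ t.ex
  n2 : 1 ≤ c 2
  n3 : 1 ≤ c 3
  s0 : t.ph ≠ .p7 → c 0 ≤ -(1 / 4 + ((2:ℝ) ^ (t.k + 3))⁻¹)
  s0' : t.ph = .p7 → c 0 ≤ -(1 / 4 + ((2:ℝ) ^ (t.k + 4))⁻¹)
  s1 : c 1 ≤ -(1 / 4 + ((2:ℝ) ^ (t.k + 3))⁻¹)
  q0 : t.ph = .p0 → -c 0 + 1 ≤ c 3 * 2 ^ t.cnt * (2:ℝ) ^ (t.lo 0)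
  q1 : t.ph = .p1 → -c 0 + 1 ≤ c 3 * (2:ℝ) ^ (t.lo 0)
  q2 : t.ph = .p2 → -c 0 + 1 ≤ c 3 * (2:ℝ) ^ (t.lo 0) ∧ -c 0 + 1 ≤ c 2 * (2:ℝ) ^ (t.lo 0)
  q3 : t.ph = .p3 → -c 0 + 1 ≤ c 2 * (2:ℝ) ^ (t.lo 0)
  q4 : t.ph = .p4 → (2:ℝ) ^ (t.up 0) * c 3 ≤ 2 ^ t.cnt * ((2:ℝ) ^ (t.k + 11))⁻¹
  q5 : t.ph = .p5 → (2:ℝ) ^ (t.up 0) * c 3 ≤ ((2:ℝ) ^ (t.k + 11))⁻¹
  q6 : t.ph = .p6 → (2:ℝ) ^ (t.up 0) * c 3 ≤ ((2:ℝ) ^ (t.k + 11))⁻¹ ∧
    (2:ℝ) ^ (t.up 1) * c 3 ≤ ((2:ℝ) ^ (t.k + 11))⁻¹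
  q7 : t.ph = .p7 → (2:ℝ) ^ (t.up 1) * c 3 ≤ ((2:ℝ) ^ (t.k + 11))⁻¹

theorem zpow_neg_le_half {e : ℤ} (h : e ≤ -1) : (2:ℝ) ^ e ≤ 1 / 2 := by
  calc (2:ℝ) ^ e ≤ (2:ℝ) ^ (-1 : ℤ) := zpow_le_zpow_right₀ (by norm_num) h
    _ = 1 / 2 := by norm_num

theorem two_le_zpow {e : ℤ} (h : 1 ≤ e) : (2:ℝ) ≤ (2:ℝ) ^ e := by
  calc (2:ℝ) = (2:ℝ) ^ (1 : ℤ) := by norm_num
    _ ≤ (2:ℝ) ^ e := zpow_le_zpow_right₀ (by norm_num) h

theorem zpow_le_pow {e : ℤ} {n : ℕ} (h : e ≤ n) : (2:ℝ) ^ e ≤ (2:ℝ) ^ n := by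
  rw [← zpow_natCast]; exact zpow_le_zpow_right₀ (by norm_num) h

theorem JC.next {t : Ctl} {c : Fin 4 → ℝ} (hI : CI t) (h : JC t c) {a : ℝ}
    (ha1 : (2:ℝ) ^ (t.lo t.ph.stp.cl) ≤ a) (ha2 : a ≤ (2:ℝ) ^ (t.up t.ph.stp.cl)) :
    JC t.next (cf t.ph.stp a c) := by
  obtain ⟨l0, l1, u2, u3, u0, u1, l2, l3, Q0, Q1, Q2, Q3, Q4, Q5, Q6, Q7⟩ := hI
  obtain ⟨m0, m1, x2, x3, n2, n3, s0, s0', s1, q0, q1, q2, q3, q4, q5, q6, q7⟩ := h
  obtain ⟨ph, cnt, k, ex, lo, up⟩ := t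
  simp only at *
  obtain ⟨E, hE⟩ : ∃ E : ℝ, E = 2 ^ ex := ⟨_, rfl⟩
  have hE1 : 1 ≤ E := by rw [hE]; exact one_le_pow₀ (by norm_num)
  have hE' : (2:ℝ) ^ (2 * ex + 1) = 2 * E * E := by rw [hE]; ring
  rw [← hE] at m0 m1 x2 x3
  have hEE : E ≤ E * E := by nlinarith
  obtain ⟨κ, hκ⟩ : ∃ κ : ℝ, κ = ((2:ℝ) ^ (k + 11))⁻¹ := ⟨_, rfl⟩
  have hκ0 : 0 < κ := by rw [hκ]; positivity
  have hκ3 : ((2:ℝ) ^ (k + 3))⁻¹ = 256 * κ := by
    rw [hκ, show k + 11 = (k + 3) + 8 by ring, pow_add (2:ℝ) (k + 3) 8]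
    field_simp; norm_num
  have hκ4 : ((2:ℝ) ^ (k + 4))⁻¹ = 128 * κ := by
    rw [hκ, show k + 11 = (k + 4) + 7 by ring, pow_add (2:ℝ) (k + 4) 7]
    field_simp; norm_num
  have hκ4' : ((2:ℝ) ^ (k + 1 + 3))⁻¹ = 128 * κ := by
    rw [show k + 1 + 3 = k + 4 by ring, hκ4]
  rw [hκ3] at s0 s1
  rw [hκ4] at s0'
  rw [← hκ] at q4 q5 q6 q7
  cases ph
  · -- p0
    obtain ⟨Qa, Qb⟩ := Q0 rfl
    have q0 := q0 rfl
    have s0 := s0 (by simp)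
    simp only [Ph.stp, Stp.cl, Bool.false_eq_true, if_false] at ha1 ha2
    have h2 : 2 ≤ a := (two_le_zpow l2).trans ha1
    have h3 : a ≤ E := by rw [hE]; exact ha2.trans (zpow_le_pow u2)
    have hp : (0:ℝ) < 2 ^ (lo 0) := by positivity
    have hcnt : (2:ℝ) ^ cnt = 2 * 2 ^ (cnt - 1) := by
      rw [← pow_succ']; congr 1; omega
    have hx : c 2 + a * c 3 ≤ 2 * E * E := by nlinarith
    have hy : 2 * c 3 ≤ c 2 + a * c 3 := by nlinarith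
    have hz : -c 0 + 1 ≤ (c 2 + a * c 3) * 2 ^ (cnt - 1) * 2 ^ (lo 0) := by
      refine q0.trans ?_
      rw [hcnt]
      calc c 3 * (2 * 2 ^ (cnt - 1)) * (2:ℝ) ^ (lo 0) = (2 * c 3) * 2 ^ (cnt - 1) * 2 ^ (lo 0) := by
            ring
        _ ≤ _ := by gcongr
    by_cases hc : cnt ≤ 1
    · have hc1 : cnt = 1 := by omega
      subst hc1
      rw [Nat.sub_self, pow_zero, mul_one] at hz
      constructor <;> simp [Ctl.next, expUp, Ph.stp, cf, hE', hκ3] <;> linarith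
    · constructor <;> simp [Ctl.next, hc, expUp, Ph.stp, cf, hE', hκ3] <;> linarith
  · -- p1
    have q1 := q1 rfl
    have s0 := s0 (by simp)
    simp only [Ph.stp, Stp.cl, if_true] at ha1 ha2
    have h2 : 2 ≤ a := (two_le_zpow l2).trans ha1
    have h3 : a ≤ E := by rw [hE]; exact ha2.trans (zpow_le_pow u2)
    have hp : (0:ℝ) < 2 ^ (lo 0) := by positivity
    have hx : c 2 + a * c 3 ≤ 2 * E * E := by nlinarith
    have hy : c 3 ≤ c 2 + a * c 3 := by nlinarith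
    have hz : -c 0 + 1 ≤ (c 2 + a * c 3) * 2 ^ (lo 0) := by
      refine q1.trans ?_
      gcongr
    constructor <;> simp [Ctl.next, expUp, Ph.stp, cf, hE', hκ3] <;>
      first | linarith | (constructor <;> linarith)
  · -- p2
    obtain ⟨qa, qb⟩ := q2 rfl
    have s0 := s0 (by simp)
    simp only [Ph.stp, Stp.cl, Bool.false_eq_true, if_false] at ha1 ha2
    have h2 : a ≤ 1 / 2 := ha2.trans (zpow_neg_le_half u0)
    have hx : 1 ≤ c 0 + a * c 3 := by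
      have : c 3 * (2:ℝ) ^ (lo 0) ≤ c 3 * a := by gcongr
      linarith
    have hy : c 0 + a * c 3 ≤ c 3 := by nlinarith
    constructor <;> simp [Ctl.next, expUp, Ph.stp, cf, hE', hκ3] <;> linarith
  · -- p3
    have qa := q3 rfl
    have s0 := s0 (by simp)
    simp only [Ph.stp, Stp.cl, Bool.false_eq_true, if_false] at ha1 ha2
    have h2 : a ≤ 1 / 2 := ha2.trans (zpow_neg_le_half u0)
    have hx : 1 ≤ c 0 + a * c 2 := by
      have : c 2 * (2:ℝ) ^ (lo 0) ≤ c 2 * a := by gcongr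
      linarith
    have hy : c 0 + a * c 2 ≤ c 2 := by nlinarith
    have hu : (2:ℝ) ^ (up 0) * c 3 ≤ 2 ^ (ex + k + 11) * κ := by
      have h1 : (2:ℝ) ^ (ex + k + 11) * κ = E := by
        rw [hκ, hE, show ex + k + 11 = ex + (k + 11) by ring, pow_add]
        field_simp
      rw [h1]
      have h4 := zpow_neg_le_half u0
      have h5 : (0:ℝ) < 2 ^ (up 0) := by positivity
      nlinarith
    constructor <;> simp [Ctl.next, expUp, Ph.stp, cf, hE', hκ3, ← hκ] <;> linarith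
  · -- p4
    obtain ⟨Qa, Qb⟩ := Q4 rfl
    have q4 := q4 rfl
    have s0 := s0 (by simp)
    simp only [Ph.stp, Stp.cl, if_true] at ha1 ha2
    have h2 : a ≤ 1 / 2 := ha2.trans (zpow_neg_le_half u0)
    have h3 : 0 < a := lt_of_lt_of_le (by positivity) ha1
    have hcnt : (2:ℝ) ^ cnt = 2 * 2 ^ (cnt - 1) := by
      rw [← pow_succ']; congr 1; omega
    have hx : c 0 + a * c 1 ≤ c 0 := by nlinarith
    have hy : -(2 * E * E) ≤ c 0 + a * c 1 := by nlinarith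
    have hz : (2:ℝ) ^ (up 0 + up 1) * c 3 ≤ 2 ^ (cnt - 1) * κ := by
      rw [zpow_add₀ (by norm_num)]
      have h4 := zpow_neg_le_half u1
      have h5 : (0:ℝ) < 2 ^ (up 0) * c 3 := by positivity
      calc (2:ℝ) ^ (up 0) * 2 ^ (up 1) * c 3 = 2 ^ (up 1) * (2 ^ (up 0) * c 3) := by ring
        _ ≤ 1 / 2 * (2 ^ (up 0) * c 3) := by gcongr
        _ ≤ 1 / 2 * (2 ^ cnt * κ) := by gcongr
        _ = _ := by rw [hcnt]; ring
    by_cases hc : cnt ≤ 1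
    · have hc1 : cnt = 1 := by omega
      subst hc1
      rw [Nat.sub_self, pow_zero, one_mul] at hz
      constructor <;> simp [Ctl.next, expUp, Ph.stp, cf, hE', hκ3, ← hκ] <;> linarith
    · constructor <;> simp [Ctl.next, hc, expUp, Ph.stp, cf, hE', hκ3, ← hκ] <;> linarith
  · -- p5
    have q5 := q5 rfl
    have s0 := s0 (by simp)
    simp only [Ph.stp, Stp.cl, Bool.false_eq_true, if_false] at ha1 ha2
    have h2 : a ≤ 1 / 2 := ha2.trans (zpow_neg_le_half u0)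
    have h3 : 0 < a := lt_of_lt_of_le (by positivity) ha1
    have hx : c 0 + a * c 1 ≤ c 0 := by nlinarith
    have hy : -(2 * E * E) ≤ c 0 + a * c 1 := by nlinarith
    have hz : (2:ℝ) ^ (up 1 + up 0) * c 3 ≤ κ := by
      rw [zpow_add₀ (by norm_num)]
      have h4 := zpow_neg_le_half u1
      have h5 : (0:ℝ) < 2 ^ (up 0) * c 3 := by positivity
      calc (2:ℝ) ^ (up 1) * 2 ^ (up 0) * c 3 = 2 ^ (up 1) * (2 ^ (up 0) * c 3) := by ring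
        _ ≤ 1 * (2 ^ (up 0) * c 3) := by gcongr; linarith
        _ ≤ κ := by rw [one_mul]; exact q5
    constructor <;> simp [Ctl.next, expUp, Ph.stp, cf, hE', hκ3, ← hκ] <;>
      first | linarith | (constructor <;> linarith)
  · -- p6
    obtain ⟨qa, qb⟩ := q6 rfl
    have s0 := s0 (by simp)
    simp only [Ph.stp, Stp.cl, if_true] at ha1 ha2
    have h3 : 0 < a := lt_of_lt_of_le (by positivity) ha1
    have hx : c 0 + a * c 3 ≤ c 0 + κ := by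
      have : a * c 3 ≤ (2:ℝ) ^ (up 0) * c 3 := by gcongr
      linarith
    have hy : c 0 ≤ c 0 + a * c 3 := by nlinarith
    constructor <;> simp [Ctl.next, expUp, Ph.stp, cf, hE', hκ3, hκ4, ← hκ] <;> linarith
  · -- p7
    have qa := q7 rfl
    have s0 := s0' rfl
    simp only [Ph.stp, Stp.cl, if_true] at ha1 ha2
    have h3 : 0 < a := lt_of_lt_of_le (by positivity) ha1
    have hx : c 1 + a * c 3 ≤ c 1 + κ := by
      have : a * c 3 ≤ (2:ℝ) ^ (up 1) * c 3 := by gcongr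
      linarith
    have hy : c 1 ≤ c 1 + a * c 3 := by nlinarith
    have hz : -c 0 + 1 ≤ c 3 * 2 ^ (2 * ex + 2) * 2 ^ (lo 0) := by
      have h4 : (2:ℝ) ^ (-(ex:ℤ)) ≤ 2 ^ (lo 0) := zpow_le_zpow_right₀ (by norm_num) l0
      have h5 : (2:ℝ) ^ (2 * ex + 2) * 2 ^ (-(ex:ℤ)) = 4 * E := by
        rw [zpow_neg, zpow_natCast, hE]
        have : (2:ℝ) ^ (2 * ex + 2) = 4 * 2 ^ ex * 2 ^ ex := by ring
        rw [this]; field_simp
      calc -c 0 + 1 ≤ 4 * E := by linarith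
        _ = 1 * 2 ^ (2 * ex + 2) * 2 ^ (-(ex:ℤ)) := by rw [one_mul, h5]
        _ ≤ _ := by gcongr
    constructor <;> simp [Ctl.next, expUp, Ph.stp, cf, hE', hκ4'] <;> linarith

end Pool.Agent.Giem37
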