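import Pool.Agent.Lib_helper37.Giem.Dyn

/-! Dynamics of a state with positive lengths: words, return, covering, visits. -/

set_option autoImplicit false

namespace Pool.Agent.Giem37

open Function Set Topology Filter

/-- consequences of the chain invariant when all lengths are positive -/
structure Ord (φ : Ph) (t : St) : Prop where
  p_nonneg : ∀ α, 0 ≤ t.p α
  r_le : ∀ α, t.r α ≤ t.r (φ.tO 3)
  top_lt : ∀ α, α ≠ φ.tO 3 → t.r α ≤ t.p (φ.tO 3)
  cover : ∀ x, 0 ≤ x → x < t.r (φ.tO 3) → ∃ α, t.p α ≤ x ∧ x < t.r α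
  q_nonneg : ∀ α, 0 ≤ t.g α (t.p α)
  q_pos : ∀ α, α ≠ 3 → 0 < t.g α (t.p α)
  gr_le : ∀ α, t.g α (t.r α) ≤ t.r (φ.tO 3)
  bot_lt : ∀ α, α ≠ φ.bO 3 → t.g α (t.r α) ≤ t.g (φ.bO 3) (t.p (φ.bO 3))
  p0 : t.p 0 = 0

theorem Inv.ord {φ : Ph} {t : St} (h : Inv φ t) (hp : ∀ α, t.p α < t.r α) : Ord φ t := by
  have hg : ∀ α, t.g α (t.p α) < t.g α (t.r α) := fun α => (t.g α).strictMono (hp α)
  have p0 := hp 0; have p1 := hp 1; have p2 := hp 2; have p3 := hp 3
  have g0 := hg 0; have g1 := hg 1; have g2 := hg 2; have g3 := hg 3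
  obtain ⟨t0, t1, t2, t3, b0, b1, b2, b3, e⟩ := h
  have hcov : ∀ a b c d : Fin 4, t.p a = 0 → t.r a = t.p b → t.r b = t.p c → t.r c = t.p d →
      ∀ x, 0 ≤ x → x < t.r d → ∃ α, t.p α ≤ x ∧ x < t.r α := by
    intro a b c d h1 h2 h3 h4 x hx hxd
    by_cases c1 : x < t.r a
    · exact ⟨a, by linarith, c1⟩
    by_cases c2 : x < t.r b
    · exact ⟨b, by linarith, c2⟩
    by_cases c3 : x < t.r c
    · exact ⟨c, by linarith, c3⟩
    exact ⟨d, by linarith, hxd⟩
  have hc := hcov _ _ _ _ t0 t1 t2 t3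
  cases φ <;> simp only [Ph.tO, Ph.bO, Matrix.cons_val_zero, Matrix.cons_val_one,
    Matrix.cons_val] at t0 t1 t2 t3 b0 b1 b2 b3 e <;>
  exact {
    p_nonneg := by intro α; fin_cases α <;> simp <;> linarith
    r_le := by intro α; fin_cases α <;> simp [Ph.tO] <;> linarith
    top_lt := by intro α hα; fin_cases α <;> simp [Ph.tO] at hα ⊢ <;> linarith
    cover := hc
    q_nonneg := by intro α; fin_cases α <;> simp <;> linarith
    q_pos := by intro α hα; fin_cases α <;> simp at hα ⊢ <;> linarith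
    gr_le := by intro α; fin_cases α <;> simp [Ph.tO] <;> linarith
    bot_lt := by intro α hα; fin_cases α <;> simp [Ph.bO] at hα ⊢ <;> linarith
    p0 := by linarith }

/-- a good state: all induced lengths are positive, total length one -/
structure Good (s : St) : Prop where
  inv : Inv .p0 s
  fin : s.r 3 = 1
  pos : ∀ n α, (run s n).p α < (run s n).r α

theorem Good.ord {s : St} (h : Good s) (n : ℕ) : Ord (ctl n).ph (run s n) :=
  (run_inv h.inv n).ord (h.pos n)

/-- the right end of the domain at stage `n` -/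
noncomputable def cc (s : St) (n : ℕ) : ℝ := (run s n).r ((ctl n).ph.tO 3)

theorem stp_last (φ : Ph) : (φ.stp.top = true → φ.stp.w = φ.tO 3 ∧ φ.stp.l = φ.bO 3) ∧
    (φ.stp.top = false → φ.stp.l = φ.tO 3 ∧ φ.stp.w = φ.bO 3) := by
  cases φ <;> simp [Ph.stp, Ph.tO, Ph.bO]

theorem stp_ne (n : ℕ) : (stp n).w ≠ (stp n).l := zs_w_ne_l _

/-- a top step spelled out -/
structure TopStep (s : St) (n : ℕ) : Prop where
  p : ∀ α, (run s (n + 1)).p α = (run s n).p α
  rw : (run s (n + 1)).r (stp n).w = (run s n).g (stp n).l ((run s n).p (stp n).l)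
  r : ∀ α, α ≠ (stp n).w → (run s (n + 1)).r α = (run s n).r α
  gl : ∀ x, (run s (n + 1)).g (stp n).l x = (run s n).g (stp n).w ((run s n).g (stp n).l x)
  g : ∀ α, α ≠ (stp n).l → (run s (n + 1)).g α = (run s n).g α
  e : (run s n).r (stp n).w = (run s n).g (stp n).l ((run s n).r (stp n).l)
  wlast : (stp n).w = (ctl n).ph.tO 3
  llast : (stp n).l = (ctl n).ph.bO 3

theorem topStep {s : St} (hI : Inv .p0 s) {n : ℕ} (h : (stp n).top = true) : TopStep s n := by
  have h1 : run s (n + 1) = (run s n).step (stp n) := rfl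
  have h2 := (stp_last (ctl n).ph).1 h
  refine ⟨fun α => ?_, ?_, fun α hα => ?_, fun x => ?_, fun α hα => ?_,
    (run_inv hI n).end_top h, h2.1, h2.2⟩
  · rw [h1]; simp only [St.step, h, if_true]
  · rw [h1]; simp only [St.step, h, if_true, update_self]
  · rw [h1]; simp only [St.step, h, if_true, update_of_ne hα]
  · rw [h1]; simp only [St.step, h, if_true, update_self, OrderIso.trans_apply]
  · rw [h1]; simp only [St.step, h, if_true, update_of_ne hα]

/-- a bottom step spelled out -/
structure BotStep (s : St) (n : ℕ) (τ : ℝ) : Prop where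
  gτ : (run s n).g (stp n).w τ = (run s n).p (stp n).l
  pl : (run s (n + 1)).p (stp n).l = τ
  p : ∀ α, α ≠ (stp n).l → (run s (n + 1)).p α = (run s n).p α
  rw : (run s (n + 1)).r (stp n).w = τ
  rl : (run s (n + 1)).r (stp n).l = (run s n).r (stp n).w
  r : ∀ α, α ≠ (stp n).w → α ≠ (stp n).l → (run s (n + 1)).r α = (run s n).r α
  gl : ∀ x, (run s (n + 1)).g (stp n).l x = (run s n).g (stp n).l ((run s n).g (stp n).w x)
  g : ∀ α, α ≠ (stp n).l → (run s (n + 1)).g α = (run s n).g α
  e : (run s n).r (stp n).l = (run s n).g (stp n).w ((run s n).r (stp n).w)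
  llast : (stp n).l = (ctl n).ph.tO 3
  wlast : (stp n).w = (ctl n).ph.bO 3

theorem botStep {s : St} (hI : Inv .p0 s) {n : ℕ} (h : (stp n).top = false) :
    ∃ τ, BotStep s n τ := by
  have h1 : run s (n + 1) = (run s n).step (stp n) := rfl
  have h2 := (stp_last (ctl n).ph).2 h
  have hne := stp_ne n
  refine ⟨((run s n).g (stp n).w).symm ((run s n).p (stp n).l), ?_, ?_, fun α hα => ?_, ?_, ?_,
    fun α hα hβ => ?_, fun x => ?_, fun α hα => ?_,
    (run_inv hI n).end_bot h, h2.1, h2.2⟩
  · rw [OrderIso.apply_symm_apply]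
  · rw [h1]; simp only [St.step, h, Bool.false_eq_true, if_false, update_self]
  · rw [h1]; simp only [St.step, h, Bool.false_eq_true, if_false, update_of_ne hα]
  · rw [h1]; simp only [St.step, h, Bool.false_eq_true, if_false, update_self]
  · rw [h1]; simp only [St.step, h, Bool.false_eq_true, if_false, update_of_ne hne.symm,
      update_self]
  · rw [h1]; simp only [St.step, h, Bool.false_eq_true, if_false, update_of_ne hα,
      update_of_ne hβ]
  · rw [h1]; simp only [St.step, h, Bool.false_eq_true, if_false, update_self,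
      OrderIso.trans_apply]
  · rw [h1]; simp only [St.step, h, Bool.false_eq_true, if_false, update_of_ne hα]

/-- return words -/
def wd : ℕ → Fin 4 → List (Fin 4)
  | 0 => fun α => [α]
  | n + 1 => if (stp n).top then update (wd n) (stp n).l (wd n (stp n).l ++ wd n (stp n).w)
      else update (wd n) (stp n).l (wd n (stp n).w ++ wd n (stp n).l)

theorem wd_top {n : ℕ} (h : (stp n).top = true) :
    wd (n + 1) (stp n).l = wd n (stp n).l ++ wd n (stp n).w := by
  simp only [wd, h, if_true, update_self]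

theorem wd_bot {n : ℕ} (h : (stp n).top = false) :
    wd (n + 1) (stp n).l = wd n (stp n).w ++ wd n (stp n).l := by
  simp only [wd, h, Bool.false_eq_true, if_false, update_self]

theorem wd_ne {n : ℕ} {α : Fin 4} (hα : α ≠ (stp n).l) : wd (n + 1) α = wd n α := by
  by_cases h : (stp n).top = true
  · simp only [wd, h, if_true, update_of_ne hα]
  · simp only [wd, h, Bool.false_eq_true, if_false, update_of_ne hα]

/-- `x` follows the word `W` and ends at `y` -/
def Fol (s : St) : List (Fin 4) → ℝ → ℝ → Prop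
  | [], x, y => x = y
  | a :: W, x, y => (s.p a ≤ x ∧ x < s.r a) ∧ Fol s W (s.g a x) y

theorem Fol.append {s : St} {W1 W2 : List (Fin 4)} {x y z : ℝ} (h1 : Fol s W1 x y)
    (h2 : Fol s W2 y z) : Fol s (W1 ++ W2) x z := by
  induction W1 generalizing x with
  | nil => rw [show x = y from h1]; exact h2
  | cons a W ih => exact ⟨h1.1, ih h1.2⟩

theorem Good.fol {s : St} (h : Good s) (n : ℕ) (α : Fin 4) (x : ℝ) (h1 : (run s n).p α ≤ x)
    (h2 : x < (run s n).r α) : Fol s (wd n α) x ((run s n).g α x) := by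
  induction n generalizing α x with
  | zero => exact ⟨⟨h1, h2⟩, rfl⟩
  | succ n ih =>
    cases htop : (stp n).top
    · obtain ⟨τ, hS⟩ := botStep h.inv htop
      have hτr := h.pos (n + 1) (stp n).w
      rw [hS.rw, hS.p _ (stp_ne n)] at hτr
      by_cases hl : α = (stp n).l
      · rw [hl] at h1 h2 ⊢
        rw [hS.pl] at h1
        rw [hS.rl] at h2
        rw [wd_bot htop, hS.gl]
        apply (ih _ x (by linarith) h2).append
        apply ih
        · rw [← hS.gτ]; exact ((run s n).g _).monotone h1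
        · rw [hS.e]; exact ((run s n).g _).strictMono h2
      · rw [wd_ne hl, hS.g _ hl]
        rw [hS.p _ hl] at h1
        apply ih _ x h1
        by_cases hw : α = (stp n).w
        · rw [hw] at h2 ⊢
          rw [hS.rw] at h2
          have := h.pos (n + 1) (stp n).l
          rw [hS.pl, hS.rl] at this
          linarith
        · rwa [hS.r _ hw hl] at h2
    · have hS := topStep h.inv htop
      have hw' := h.pos (n + 1) (stp n).w
      rw [hS.rw, hS.p] at hw'
      rw [hS.p] at h1
      by_cases hl : α = (stp n).l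
      · rw [hl] at h1 h2 ⊢
        rw [hS.r _ (stp_ne n).symm] at h2
        rw [wd_top htop, hS.gl]
        apply (ih _ x h1 h2).append
        apply ih
        · have := ((run s n).g (stp n).l).monotone h1
          linarith
        · rw [hS.e]; exact ((run s n).g _).strictMono h2
      · rw [wd_ne hl, hS.g _ hl]
        apply ih _ x h1
        by_cases hw : α = (stp n).w
        · rw [hw] at h2 ⊢
          rw [hS.rw] at h2
          rw [hS.e]
          exact h2.trans (((run s n).g _).strictMono (h.pos n _))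
        · rwa [hS.r _ hw] at h2

/-- the top letter of a point -/
noncomputable def St.lt (s : St) (x : ℝ) : Fin 4 :=
  if x < s.r 0 then 0 else if x < s.r 1 then 1 else if x < s.r 2 then 2 else 3

/-- the map -/
noncomputable def St.mp (s : St) (x : ℝ) : ℝ := s.g (s.lt x) x

structure Chain (s : St) : Prop where
  p0 : s.p 0 = 0
  p1 : s.p 1 = s.r 0
  p2 : s.p 2 = s.r 1
  p3 : s.p 3 = s.r 2
  x0 : s.p 0 < s.r 0
  x1 : s.p 1 < s.r 1
  x2 : s.p 2 < s.r 2
  x3 : s.p 3 < s.r 3
  r3 : s.r 3 = 1

theorem Good.chain {s : St} (h : Good s) : Chain s := by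
  have t0 := h.inv.t0; have t1 := h.inv.t1; have t2 := h.inv.t2; have t3 := h.inv.t3
  simp only [Ph.tO, Matrix.cons_val_zero, Matrix.cons_val_one, Matrix.cons_val] at t0 t1 t2 t3
  exact ⟨t0, t1.symm, t2.symm, t3.symm, h.pos 0 0, h.pos 0 1, h.pos 0 2, h.pos 0 3, h.fin⟩

theorem Chain.lt_mem {s : St} (h : Chain s) {x : ℝ} (hx0 : 0 ≤ x) (hx1 : x < 1) :
    s.p (s.lt x) ≤ x ∧ x < s.r (s.lt x) := by
  obtain ⟨p0, p1, p2, p3, x0, x1, x2, x3, r3⟩ := h
  unfold St.lt
  split_ifs with h1 h2 h3 <;> constructor <;> linarith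

theorem Chain.lt_eq {s : St} (h : Chain s) {x : ℝ} {α : Fin 4} (h1 : s.p α ≤ x)
    (h2 : x < s.r α) : s.lt x = α := by
  obtain ⟨p0, p1, p2, p3, x0, x1, x2, x3, r3⟩ := h
  unfold St.lt
  fin_cases α <;> simp only [Fin.zero_eta, Fin.mk_one, Fin.reduceFinMk] at h1 h2 ⊢ <;>
    split_ifs <;> first | rfl | (exfalso; linarith)

theorem Chain.lt_mono {s : St} (h : Chain s) {x y : ℝ} (hxy : x ≤ y) : s.lt x ≤ s.lt y := by
  obtain ⟨p0, p1, p2, p3, x0, x1, x2, x3, r3⟩ := h
  unfold St.lt
  split_ifs <;> first | (exfalso; linarith) | decide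

theorem Good.mp_mem {s : St} (h : Good s) {x : ℝ} (hx0 : 0 ≤ x) (hx1 : x < 1) :
    0 ≤ s.mp x ∧ s.mp x < 1 := by
  obtain ⟨h1, h2⟩ := h.chain.lt_mem hx0 hx1
  have ho := h.ord 0
  have h3 := ho.q_nonneg (s.lt x)
  have h4 := ho.gr_le (s.lt x)
  have h5 : (run s 0).r ((ctl 0).ph.tO 3) = 1 := h.fin
  rw [h5] at h4
  exact ⟨h3.trans ((s.g _).monotone h1), lt_of_lt_of_le ((s.g _).strictMono h2) h4⟩

theorem Good.iter_mem {s : St} (h : Good s) {x : ℝ} (hx0 : 0 ≤ x) (hx1 : x < 1) (k : ℕ) :
    0 ≤ s.mp^[k] x ∧ s.mp^[k] x < 1 := by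
  induction k with
  | zero => exact ⟨hx0, hx1⟩
  | succ k ih =>
    rw [iterate_succ_apply']
    exact h.mp_mem ih.1 ih.2

theorem Fol.iter {s : St} (h : Chain s) {W : List (Fin 4)} {x y : ℝ} (hf : Fol s W x y) :
    s.mp^[W.length] x = y ∧ ∀ k, ∀ hk : k < W.length, s.lt (s.mp^[k] x) = W[k] := by
  induction W generalizing x with
  | nil => exact ⟨hf, fun k hk => absurd hk (Nat.not_lt_zero _)⟩
  | cons a W ih =>
    obtain ⟨⟨h1, h2⟩, h3⟩ := hf
    have hl := h.lt_eq h1 h2
    have hm : s.mp x = s.g a x := by unfold St.mp; rw [hl]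
    obtain ⟨i1, i2⟩ := ih h3
    refine ⟨?_, fun k hk => ?_⟩
    · rw [List.length_cons, iterate_succ_apply, hm]; exact i1
    · cases k with
      | zero => exact hl
      | succ k =>
        rw [iterate_succ_apply, hm]
        exact i2 k (by simpa using hk)

theorem wd_len_pos (n : ℕ) (α : Fin 4) : 0 < (wd n α).length := by
  induction n generalizing α with
  | zero => simp [wd]
  | succ n ih =>
    by_cases hl : α = (stp n).l
    · rw [hl]
      cases htop : (stp n).top
      · rw [wd_bot htop, List.length_append]; have := ih (stp n).l; omega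
      · rw [wd_top htop, List.length_append]; have := ih (stp n).l; omega
    · rw [wd_ne hl]; exact ih α

theorem wd_len_mono (n : ℕ) (α : Fin 4) : (wd n α).length ≤ (wd (n + 1) α).length := by
  by_cases hl : α = (stp n).l
  · rw [hl]
    cases htop : (stp n).top
    · rw [wd_bot htop, List.length_append]; omega
    · rw [wd_top htop, List.length_append]; omega
  · rw [wd_ne hl]

theorem wd_len_unbounded (K : ℕ) : ∃ n, K < (wd n 0).length := by
  induction K with
  | zero => exact ⟨0, by simp [wd]⟩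
  | succ K ih =>
    obtain ⟨n, hn⟩ := ih
    obtain ⟨m, hm, hph⟩ := reach_all n .p6
    have h1 : (wd n 0).length ≤ (wd m 0).length :=
      monotone_nat_of_le_succ (f := fun k => (wd k 0).length) (fun k => wd_len_mono k 0) hm
    refine ⟨m + 1, ?_⟩
    have h2 : stp m = ⟨true, 3, 0⟩ := by unfold stp; rw [hph]; rfl
    have h3 : (stp m).top = true := by rw [h2]
    have h4 := wd_top h3
    have h5 : (stp m).l = 0 := by rw [h2]
    rw [h5] at h4
    rw [h4, List.length_append]
    have := wd_len_pos m (stp m).w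
    omega

theorem Good.lt_zero {s : St} (h : Good s) {n k : ℕ} (hk : k < (wd n 0).length) :
    s.lt (s.mp^[k] 0) = (wd n 0)[k] := by
  have ho := h.ord n
  have h1 := h.fol n 0 0 ho.p0.le (by have := h.pos n 0; rw [ho.p0] at this; exact this)
  exact (h1.iter h.chain).2 k hk

/-- the itinerary of `0` is the same for all good states -/
theorem itin_zero {s s' : St} (h : Good s) (h' : Good s') (k : ℕ) :
    s.lt (s.mp^[k] 0) = s'.lt (s'.mp^[k] 0) := by
  obtain ⟨n, hn⟩ := wd_len_unbounded k
  rw [h.lt_zero hn, h'.lt_zero hn]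

end Pool.Agent.Giem37
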